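import Mathlib
import Pool.Agent.Helper337.PolygonProofC

/-!
Rescaling the short extra edges of a polygon by a homeomorphism of the plane, one edge at a time.
-/

set_option autoImplicit false

namespace Pool.Agent.W5h5.PolyPush

open Set Pool.Agent.Helper337.PolygonPattern

/-- the increasing bijection of the line that is the identity outside `[0, D]` and is linear on
`[0, m1]` and on `[m1, D]`, with `m1` going to `m2` -/
noncomputable def gfun (D m1 m2 l : ℝ) : ℝ :=
  if l ≤ 0 then l else if l ≤ m1 then l * m2 / m1 else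
    if l ≤ D then D - (D - l) * (D - m2) / (D - m1) else l

theorem gfun_inv {D m1 m2 : ℝ} (h1 : 0 < m1) (h1' : m1 < D) (h2 : 0 < m2) (h2' : m2 < D) (l : ℝ) :
    gfun D m2 m1 (gfun D m1 m2 l) = l := by
  have d1 : 0 < D - m1 := by linarith
  have d2 : 0 < D - m2 := by linarith
  by_cases c1 : l ≤ 0
  · have e : gfun D m1 m2 l = l := by simp [gfun, c1]
    rw [e]; simp [gfun, c1]
  · push Not at c1
    by_cases c2 : l ≤ m1
    · have e : gfun D m1 m2 l = l * m2 / m1 := by simp [gfun, c2, not_le.mpr c1]
      rw [e]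
      have hp : 0 < l * m2 / m1 := by positivity
      have hq : l * m2 / m1 ≤ m2 := by
        rw [div_le_iff₀ h1]; nlinarith
      have e2 : gfun D m2 m1 (l * m2 / m1) = (l * m2 / m1) * m1 / m2 := by
        simp [gfun, not_le.mpr hp, hq]
      rw [e2]; field_simp
    · push Not at c2
      by_cases c3 : l ≤ D
      · have e : gfun D m1 m2 l = D - (D - l) * (D - m2) / (D - m1) := by
          simp [gfun, not_le.mpr c1, not_le.mpr c2, c3]
        rw [e]
        have hq : (D - l) * (D - m2) / (D - m1) < D - m2 := by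
          rw [div_lt_iff₀ d1]; nlinarith
        have hr : 0 ≤ (D - l) * (D - m2) / (D - m1) :=
          div_nonneg (mul_nonneg (by linarith) d2.le) d1.le
        have a1 : ¬ (D - (D - l) * (D - m2) / (D - m1) ≤ 0) := by
          push Not; linarith
        have a2 : ¬ (D - (D - l) * (D - m2) / (D - m1) ≤ m2) := by
          push Not; linarith
        have a3 : D - (D - l) * (D - m2) / (D - m1) ≤ D := by linarith
        have e2 : gfun D m2 m1 (D - (D - l) * (D - m2) / (D - m1)) =
            D - (D - (D - (D - l) * (D - m2) / (D - m1))) * (D - m1) / (D - m2) := by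
          simp only [gfun, if_neg a1, if_neg a2, if_pos a3]
        rw [e2]; field_simp; ring
      · push Not at c3
        have e : gfun D m1 m2 l = l := by
          simp [gfun, not_le.mpr c1, not_le.mpr c2, not_le.mpr c3]
        rw [e]
        simp [gfun, not_le.mpr c1, not_le.mpr c3, not_le.mpr (lt_trans h2' c3)]

theorem gfun_self {D m : ℝ} (h : 0 < m) (h' : m < D) (l : ℝ) : gfun D m m l = l := by
  have d1 : D - m ≠ 0 := by intro h; linarith
  unfold gfun
  split_ifs
  · rfl
  · field_simp
  · field_simp; ring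
  · rfl

theorem gfun_nonpos {D m1 m2 l : ℝ} (h : l ≤ 0) : gfun D m1 m2 l = l := by simp [gfun, h]

theorem gfun_ge {D m1 m2 l : ℝ} (h1 : 0 < m1) (h1' : m1 < D) (h : D ≤ l) : gfun D m1 m2 l = l := by
  have a1 : ¬ l ≤ 0 := by push Not; linarith
  have a2 : ¬ l ≤ m1 := by push Not; linarith
  unfold gfun
  rw [if_neg a1, if_neg a2]
  split_ifs with h3
  · have : l = D := le_antisymm h3 h
    rw [this]; simp
  · rfl

theorem gfun_low {D m1 m2 l : ℝ} (h0 : 0 ≤ l) (h : l ≤ m1) (hm : 0 < m1) :
    gfun D m1 m2 l = l * m2 / m1 := by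
  rcases eq_or_lt_of_le h0 with h1 | h1
  · rw [← h1]; simp [gfun]
  · simp [gfun, not_le.mpr h1, h]

theorem gfun_continuous {X : Type} [TopologicalSpace X] {D : ℝ} {m1 m2 l : X → ℝ}
    (c1 : Continuous m1) (c2 : Continuous m2) (cl : Continuous l)
    (h1 : ∀ p, 0 < m1 p) (h1' : ∀ p, m1 p < D) (h2 : ∀ p, 0 < m2 p) :
    Continuous (fun p => gfun D (m1 p) (m2 p) (l p)) := by
  have d1 : ∀ p, D - m1 p ≠ 0 := fun p => by have := h1' p; intro h; linarith
  have cA : Continuous (fun p => l p * m2 p / m1 p) :=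
    (cl.mul c2).div c1 (fun p => (h1 p).ne')
  have cB : Continuous (fun p => D - (D - l p) * (D - m2 p) / (D - m1 p)) :=
    continuous_const.sub (((continuous_const.sub cl).mul (continuous_const.sub c2)).div
      (continuous_const.sub c1) d1)
  have cC : Continuous (fun p => if l p ≤ D then D - (D - l p) * (D - m2 p) / (D - m1 p) else l p) := by
    apply Continuous.if_le cB cl cl continuous_const
    intro p hp
    rw [hp]; simp
  have cE : Continuous (fun p => if l p ≤ m1 p then l p * m2 p / m1 p else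
      if l p ≤ D then D - (D - l p) * (D - m2 p) / (D - m1 p) else l p) := by
    apply Continuous.if_le cA cC cl c1
    intro p hp
    rw [hp, if_pos (h1' p).le]
    have := h1 p
    have := d1 p
    field_simp
    ring
  have : Continuous (fun p => if l p ≤ 0 then l p else if l p ≤ m1 p then l p * m2 p / m1 p else
      if l p ≤ D then D - (D - l p) * (D - m2 p) / (D - m1 p) else l p) := by
    apply Continuous.if_le cl cE cl continuous_const
    intro p hp
    rw [hp, if_pos (h1 p).le]
    simp
  exact this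

/-- the moving break point: `ε` at `κ = 0`, and `D / 2` for `|κ| ≥ D` -/
noncomputable def mfun (D ε κ : ℝ) : ℝ := ε + (D / 2 - ε) * min 1 (|κ| / D)

theorem mfun_zero (D ε : ℝ) : mfun D ε 0 = ε := by simp [mfun]

theorem mfun_far {D κ : ℝ} (ε : ℝ) (hD : 0 < D) (h : D ≤ |κ|) : mfun D ε κ = D / 2 := by
  have : 1 ≤ |κ| / D := by rwa [one_le_div hD]
  simp [mfun, min_eq_left this]

theorem mfun_continuous (D ε : ℝ) : Continuous (mfun D ε) := by
  unfold mfun
  fun_prop

theorem mfun_pos {D ε : ℝ} (hD : 0 < D) (h0 : 0 < ε) (κ : ℝ) : 0 < mfun D ε κ := by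
  have h1 : 0 ≤ min 1 (|κ| / D) := le_min zero_le_one (by positivity)
  have h2 : min 1 (|κ| / D) ≤ 1 := min_le_left _ _
  unfold mfun
  have : ε + (D / 2 - ε) * min 1 (|κ| / D) = (1 - min 1 (|κ| / D)) * ε + min 1 (|κ| / D) * (D / 2) := by
    ring
  rw [this]
  rcases eq_or_lt_of_le h2 with h3 | h3
  · rw [h3]; simp; linarith
  · have : 0 < (1 - min 1 (|κ| / D)) * ε := mul_pos (by linarith) h0
    have : 0 ≤ min 1 (|κ| / D) * (D / 2) := by positivity
    linarith

theorem mfun_lt {D ε : ℝ} (hD : 0 < D) (h0 : ε < D) (κ : ℝ) : mfun D ε κ < D := by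
  have h1 : 0 ≤ min 1 (|κ| / D) := le_min zero_le_one (by positivity)
  have h2 : min 1 (|κ| / D) ≤ 1 := min_le_left _ _
  have : D - mfun D ε κ = (1 - min 1 (|κ| / D)) * (D - ε) + min 1 (|κ| / D) * (D / 2) := by
    unfold mfun; ring
  have h4 : 0 < D - mfun D ε κ := by
    rw [this]
    rcases eq_or_lt_of_le h2 with h3 | h3
    · rw [h3]; simp; linarith
    · have : 0 < (1 - min 1 (|κ| / D)) * (D - ε) := mul_pos (by linarith) (by linarith)
      have : 0 ≤ min 1 (|κ| / D) * (D / 2) := by positivity
      linarith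
  linarith

/-- the homeomorphism moving points in direction `d` near the segment `λ ∈ [0, D]`, `κ = 0` -/
noncomputable def push (D : ℝ) (hD : 0 < D) (d : Plane) (lam kap : Plane → ℝ)
    (hlam : Continuous lam) (hkap : Continuous kap)
    (h1 : ∀ p s, lam (p + s • d) = lam p + s) (h2 : ∀ p (s : ℝ), kap (p + s • d) = kap p)
    (e1 e2 : ℝ) (a1 : 0 < e1) (b1 : e1 < D) (a2 : 0 < e2) (b2 : e2 < D) : Plane ≃ₜ Plane where
  toFun p := p + (gfun D (mfun D e1 (kap p)) (mfun D e2 (kap p)) (lam p) - lam p) • d
  invFun p := p + (gfun D (mfun D e2 (kap p)) (mfun D e1 (kap p)) (lam p) - lam p) • d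
  left_inv p := by
    simp only [h1, h2]
    rw [add_sub_cancel, gfun_inv (mfun_pos hD a1 _) (mfun_lt hD b1 _) (mfun_pos hD a2 _)
      (mfun_lt hD b2 _), add_assoc, ← add_smul]
    simp
  right_inv p := by
    simp only [h1, h2]
    rw [add_sub_cancel, gfun_inv (mfun_pos hD a2 _) (mfun_lt hD b2 _) (mfun_pos hD a1 _)
      (mfun_lt hD b1 _), add_assoc, ← add_smul]
    simp
  continuous_toFun := by
    refine continuous_id.add (Continuous.smul (Continuous.sub ?_ hlam) continuous_const)
    exact gfun_continuous ((mfun_continuous D e1).comp hkap) ((mfun_continuous D e2).comp hkap) hlam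
      (fun p => mfun_pos hD a1 _) (fun p => mfun_lt hD b1 _) (fun p => mfun_pos hD a2 _)
  continuous_invFun := by
    refine continuous_id.add (Continuous.smul (Continuous.sub ?_ hlam) continuous_const)
    exact gfun_continuous ((mfun_continuous D e2).comp hkap) ((mfun_continuous D e1).comp hkap) hlam
      (fun p => mfun_pos hD a2 _) (fun p => mfun_lt hD b2 _) (fun p => mfun_pos hD a1 _)

end Pool.Agent.W5h5.PolyPush
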