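import Mathlib
import Pool.Agent.W5h5.PolyPush

/-!
The extra short edges of the first polygon can be rescaled by a homeomorphism of the plane that
fixes all edges.
-/

set_option autoImplicit false

namespace Pool.Agent.W5h5.PolyPush

open Set Pool.Agent.Helper337.PolygonPattern

/-- the integer vector from `x_i` to `x_{i-1}` -/
def aZ (i : ZMod 14) : ℤ × ℤ := XZ (i - 1) - XZ i

/-- the integer direction of the extra edge -/
def dZ (i : ZMod 14) : ℤ × ℤ := (2 * (XZ i).1 - (XZ (i - 1)).1 - (XZ (i + 1)).1,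
  2 * (XZ i).2 - (XZ (i - 1)).2 - (XZ (i + 1)).2)

/-- the determinant of `d` and `a` -/
def detZ (i : ZMod 14) : ℤ := (dZ i).1 * (aZ i).2 - (dZ i).2 * (aZ i).1

theorem detZ_ne : ∀ i, detZ i ≠ 0 := by decide +kernel

theorem bounds : ∀ i, |(dZ i).1| + |(aZ i).1| ≤ 250 ∧ |(dZ i).2| + |(aZ i).2| ≤ 250 := by
  decide +kernel

/-- one of four functionals separates the vertex `i` from the edge `j` -/
def sepF (p q r : ℤ × ℤ) : Bool :=
  (decide (p.1 + 1 ≤ q.1) && decide (p.1 + 1 ≤ r.1)) ||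
  (decide (q.1 + 1 ≤ p.1) && decide (r.1 + 1 ≤ p.1)) ||
  (decide (p.2 + 1 ≤ q.2) && decide (p.2 + 1 ≤ r.2)) ||
  (decide (q.2 + 1 ≤ p.2) && decide (r.2 + 1 ≤ p.2)) ||
  (decide (p.1 + p.2 + 1 ≤ q.1 + q.2) && decide (p.1 + p.2 + 1 ≤ r.1 + r.2)) ||
  (decide (q.1 + q.2 + 1 ≤ p.1 + p.2) && decide (r.1 + r.2 + 1 ≤ p.1 + p.2)) ||
  (decide (p.1 - p.2 + 1 ≤ q.1 - q.2) && decide (p.1 - p.2 + 1 ≤ r.1 - r.2)) ||
  (decide (q.1 - q.2 + 1 ≤ p.1 - p.2) && decide (r.1 - r.2 + 1 ≤ p.1 - p.2))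

theorem sepF_all : ∀ i j : ZMod 14, j ≠ i → j + 1 ≠ i → sepF (XZ i) (XZ j) (XZ (j + 1)) = true := by
  decide +kernel

theorem sepV_all : ∀ i j : ZMod 14, j ≠ i →
    (XZ i).1 + 1 ≤ (XZ j).1 ∨ (XZ j).1 + 1 ≤ (XZ i).1 ∨
    (XZ i).2 + 1 ≤ (XZ j).2 ∨ (XZ j).2 + 1 ≤ (XZ i).2 := by
  decide +kernel

/-- first coordinate with respect to `d`, `a` -/
noncomputable def lamF (i : ZMod 14) (p : Plane) : ℝ :=
  ((p.1 - (XZ i).1) * (aZ i).2 - (p.2 - (XZ i).2) * (aZ i).1) / detZ i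

/-- second coordinate with respect to `d`, `a` -/
noncomputable def kapF (i : ZMod 14) (p : Plane) : ℝ :=
  ((dZ i).1 * (p.2 - (XZ i).2) - (dZ i).2 * (p.1 - (XZ i).1)) / detZ i

theorem lamF_cont (i : ZMod 14) : Continuous (lamF i) := by
  unfold lamF; fun_prop

theorem kapF_cont (i : ZMod 14) : Continuous (kapF i) := by
  unfold kapF; fun_prop

theorem detR_ne (i : ZMod 14) : ((detZ i : ℤ) : ℝ) ≠ 0 := by exact_mod_cast detZ_ne i

theorem detR (i : ZMod 14) : ((detZ i : ℤ) : ℝ) =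
    ((dZ i).1 : ℝ) * (aZ i).2 - ((dZ i).2 : ℝ) * (aZ i).1 := by
  unfold detZ; push_cast; ring

theorem lamF_add (i : ZMod 14) (p : Plane) (s : ℝ) : lamF i (p + s • toR (dZ i)) = lamF i p + s := by
  have h := detR_ne i
  unfold lamF
  rw [div_add' _ _ _ h]
  congr 1
  rw [detR]
  simp only [toR, Prod.fst_add, Prod.snd_add, Prod.smul_fst, Prod.smul_snd, smul_eq_mul]
  ring

theorem kapF_add (i : ZMod 14) (p : Plane) (s : ℝ) : kapF i (p + s • toR (dZ i)) = kapF i p := by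
  unfold kapF
  congr 1
  simp only [toR, Prod.fst_add, Prod.snd_add, Prod.smul_fst, Prod.smul_snd, smul_eq_mul]
  ring

theorem coord1 (i : ZMod 14) (p : Plane) :
    p.1 - (XZ i).1 = lamF i p * (dZ i).1 + kapF i p * (aZ i).1 := by
  have h := detR_ne i
  unfold lamF kapF
  rw [div_mul_eq_mul_div, div_mul_eq_mul_div, ← add_div, eq_div_iff h, detR]
  ring

theorem coord2 (i : ZMod 14) (p : Plane) :
    p.2 - (XZ i).2 = lamF i p * (dZ i).2 + kapF i p * (aZ i).2 := by
  have h := detR_ne i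
  unfold lamF kapF
  rw [div_mul_eq_mul_div, div_mul_eq_mul_div, ← add_div, eq_div_iff h, detR]
  ring

/-- the constant -/
noncomputable def DD : ℝ := 1 / 1000

theorem DD_pos : 0 < DD := by norm_num [DD]

/-- the region near the vertex `i` -/
def Supp (i : ZMod 14) (p : Plane) : Prop := 0 < lamF i p ∧ lamF i p < DD ∧ |kapF i p| < DD

theorem supp_near (i : ZMod 14) (p : Plane) (h : Supp i p) :
    |p.1 - (XZ i).1| ≤ 1 / 4 ∧ |p.2 - (XZ i).2| ≤ 1 / 4 := by
  obtain ⟨h0, h1, h2⟩ := h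
  have hl : |lamF i p| ≤ DD := by rw [abs_of_pos h0]; exact h1.le
  have hk : |kapF i p| ≤ DD := h2.le
  obtain ⟨b1, b2⟩ := bounds i
  have b1' : |((dZ i).1 : ℝ)| + |((aZ i).1 : ℝ)| ≤ 250 := by exact_mod_cast b1
  have b2' : |((dZ i).2 : ℝ)| + |((aZ i).2 : ℝ)| ≤ 250 := by exact_mod_cast b2
  have key : ∀ u v : ℝ, |u| + |v| ≤ 250 → |lamF i p * u + kapF i p * v| ≤ 1 / 4 := by
    intro u v huv
    calc |lamF i p * u + kapF i p * v| ≤ |lamF i p * u| + |kapF i p * v| := abs_add_le _ _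
      _ = |lamF i p| * |u| + |kapF i p| * |v| := by rw [abs_mul, abs_mul]
      _ ≤ DD * |u| + DD * |v| := by gcongr
      _ = DD * (|u| + |v|) := by ring
      _ ≤ DD * 250 := by gcongr; exact DD_pos.le
      _ = 1 / 4 := by norm_num [DD]
  rw [coord1, coord2]
  exact ⟨key _ _ b1', key _ _ b2'⟩

theorem supp_edge (i j : ZMod 14) (p : Plane) (hp : p ∈ edge xx j) (h : Supp i p) : False := by
  have hp' : p ∈ segment ℝ (toR (XZ j)) (toR (XZ (j + 1))) := hp
  obtain ⟨t, t0, t1, e1, e2⟩ := mem_segment_coords hp'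
  simp only [toR] at e1 e2
  by_cases hj : j = i
  · -- on the edge from `x_i` to `x_{i+1}` we have `λ = -t`
    subst hj
    have h3 : lamF j p = -t := by
      have hd := detR_ne j
      unfold lamF
      rw [div_eq_iff hd, detR, e1, e2]
      have q1 : ((dZ j).1 : ℝ) = 2 * (XZ j).1 - (XZ (j - 1)).1 - (XZ (j + 1)).1 := by
        simp [dZ]
      have q2 : ((dZ j).2 : ℝ) = 2 * (XZ j).2 - (XZ (j - 1)).2 - (XZ (j + 1)).2 := by
        simp [dZ]
      have q3 : ((aZ j).1 : ℝ) = (XZ (j - 1)).1 - (XZ j).1 := by simp [aZ]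
      have q4 : ((aZ j).2 : ℝ) = (XZ (j - 1)).2 - (XZ j).2 := by simp [aZ]
      rw [q1, q2, q3, q4]
      ring
    have := h.1
    linarith
  · by_cases hj' : j + 1 = i
    · subst hj'
      have h3 : lamF (j + 1) p = 0 := by
        unfold lamF
        have q3 : ((aZ (j + 1)).1 : ℝ) = (XZ j).1 - (XZ (j + 1)).1 := by simp [aZ]
        have q4 : ((aZ (j + 1)).2 : ℝ) = (XZ j).2 - (XZ (j + 1)).2 := by simp [aZ]
        rw [q3, q4, e1, e2]
        ring
      have := h.1
      linarith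
    · obtain ⟨n1, n2⟩ := supp_near i p h
      rw [abs_le] at n1 n2
      have hs := sepF_all i j hj hj'
      simp only [sepF, Bool.or_eq_true, Bool.and_eq_true, decide_eq_true_eq] at hs
      have key : ∀ (u v w x : ℝ), u + 1 ≤ v → u + 1 ≤ w → x = v + t * (w - v) → u + 1 ≤ x := by
        intro u v w x h1 h2 h3
        have : x - (u + 1) = (1 - t) * (v - (u + 1)) + t * (w - (u + 1)) := by rw [h3]; ring
        have h4 : 0 ≤ (1 - t) * (v - (u + 1)) := mul_nonneg (by linarith) (by linarith)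
        have h5 : 0 ≤ t * (w - (u + 1)) := mul_nonneg t0 (by linarith)
        linarith
      have key' : ∀ (u v w x : ℝ), v + 1 ≤ u → w + 1 ≤ u → x = v + t * (w - v) → x + 1 ≤ u := by
        intro u v w x h1 h2 h3
        have : (u - 1) - x = (1 - t) * ((u - 1) - v) + t * ((u - 1) - w) := by rw [h3]; ring
        have h4 : 0 ≤ (1 - t) * ((u - 1) - v) := mul_nonneg (by linarith) (by linarith)
        have h5 : 0 ≤ t * ((u - 1) - w) := mul_nonneg t0 (by linarith)
        linarith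
      rcases hs with ((((((hs | hs) | hs) | hs) | hs) | hs) | hs) | hs
      · have c := key (XZ i).1 (XZ j).1 (XZ (j + 1)).1 p.1 (by exact_mod_cast hs.1)
          (by exact_mod_cast hs.2) e1
        linarith
      · have c := key' (XZ i).1 (XZ j).1 (XZ (j + 1)).1 p.1 (by exact_mod_cast hs.1)
          (by exact_mod_cast hs.2) e1
        linarith
      · have c := key (XZ i).2 (XZ j).2 (XZ (j + 1)).2 p.2 (by exact_mod_cast hs.1)
          (by exact_mod_cast hs.2) e2
        linarith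
      · have c := key' (XZ i).2 (XZ j).2 (XZ (j + 1)).2 p.2 (by exact_mod_cast hs.1)
          (by exact_mod_cast hs.2) e2
        linarith
      · have c := key ((XZ i).1 + (XZ i).2) ((XZ j).1 + (XZ j).2)
          ((XZ (j + 1)).1 + (XZ (j + 1)).2) (p.1 + p.2) (by exact_mod_cast hs.1)
          (by exact_mod_cast hs.2) (by rw [e1, e2]; ring)
        linarith
      · have c := key' ((XZ i).1 + (XZ i).2) ((XZ j).1 + (XZ j).2)
          ((XZ (j + 1)).1 + (XZ (j + 1)).2) (p.1 + p.2) (by exact_mod_cast hs.1)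
          (by exact_mod_cast hs.2) (by rw [e1, e2]; ring)
        linarith
      · have c := key ((XZ i).1 - (XZ i).2) ((XZ j).1 - (XZ j).2)
          ((XZ (j + 1)).1 - (XZ (j + 1)).2) (p.1 - p.2) (by exact_mod_cast hs.1)
          (by exact_mod_cast hs.2) (by rw [e1, e2]; ring)
        linarith
      · have c := key' ((XZ i).1 - (XZ i).2) ((XZ j).1 - (XZ j).2)
          ((XZ (j + 1)).1 - (XZ (j + 1)).2) (p.1 - p.2) (by exact_mod_cast hs.1)
          (by exact_mod_cast hs.2) (by rw [e1, e2]; ring)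
        linarith

/-- a point of the extra edge -/
noncomputable def spt (i : ZMod 14) (t : ℝ) : Plane := xx i + t • toR (dZ i)

theorem lamF_xx (i : ZMod 14) : lamF i (xx i) = 0 := by simp [lamF, xx, toR]
theorem kapF_xx (i : ZMod 14) : kapF i (xx i) = 0 := by simp [kapF, xx, toR]

theorem lamF_spt (i : ZMod 14) (t : ℝ) : lamF i (spt i t) = t := by
  rw [spt, lamF_add, lamF_xx, zero_add]

theorem kapF_spt (i : ZMod 14) (t : ℝ) : kapF i (spt i t) = 0 := by
  rw [spt, kapF_add, kapF_xx]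

theorem supp_spt (i j : ZMod 14) (hij : j ≠ i) (t : ℝ) (h0 : 0 ≤ t) (h1 : t ≤ DD) :
    ¬ Supp i (spt j t) := by
  intro h
  obtain ⟨n1, n2⟩ := supp_near i _ h
  have e1 : (spt j t).1 = (XZ j).1 + t * (dZ j).1 := by simp [spt, xx, toR]
  have e2 : (spt j t).2 = (XZ j).2 + t * (dZ j).2 := by simp [spt, xx, toR]
  rw [e1] at n1
  rw [e2] at n2
  obtain ⟨b1, b2⟩ := bounds j
  have b1' : |((dZ j).1 : ℝ)| + |((aZ j).1 : ℝ)| ≤ 250 := by exact_mod_cast b1
  have b2' : |((dZ j).2 : ℝ)| + |((aZ j).2 : ℝ)| ≤ 250 := by exact_mod_cast b2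
  have k : ∀ u v : ℝ, |u| + |v| ≤ 250 → |t * u| ≤ 1 / 4 := by
    intro u v huv
    have hv : 0 ≤ |v| := abs_nonneg v
    rw [abs_mul, abs_of_nonneg h0]
    calc t * |u| ≤ DD * 250 := by
          apply mul_le_mul h1 (by linarith) (abs_nonneg _) DD_pos.le
      _ = 1 / 4 := by norm_num [DD]
  have k1 := k _ _ b1'
  have k2 := k _ _ b2'
  rw [abs_le] at n1 n2 k1 k2
  rcases sepV_all i j hij with c | c | c | c
  · have c' : ((XZ i).1 : ℝ) + 1 ≤ (XZ j).1 := by exact_mod_cast c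
    linarith
  · have c' : ((XZ j).1 : ℝ) + 1 ≤ (XZ i).1 := by exact_mod_cast c
    linarith
  · have c' : ((XZ i).2 : ℝ) + 1 ≤ (XZ j).2 := by exact_mod_cast c
    linarith
  · have c' : ((XZ j).2 : ℝ) + 1 ≤ (XZ i).2 := by exact_mod_cast c
    linarith

/-- the homeomorphism near vertex `i` -/
noncomputable def PP (i : ZMod 14) (e1 e2 : ℝ) (a1 : 0 < e1) (b1 : e1 < DD) (a2 : 0 < e2)
    (b2 : e2 < DD) : Plane ≃ₜ Plane :=
  push DD DD_pos (toR (dZ i)) (lamF i) (kapF i) (lamF_cont i) (kapF_cont i) (lamF_add i)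
    (kapF_add i) e1 e2 a1 b1 a2 b2

theorem PP_apply (i : ZMod 14) (e1 e2 : ℝ) (a1 : 0 < e1) (b1 : e1 < DD) (a2 : 0 < e2)
    (b2 : e2 < DD) (p : Plane) : PP i e1 e2 a1 b1 a2 b2 p =
      p + (gfun DD (mfun DD e1 (kapF i p)) (mfun DD e2 (kapF i p)) (lamF i p) - lamF i p) •
        toR (dZ i) := rfl

theorem PP_fix (i : ZMod 14) (e1 e2 : ℝ) (a1 : 0 < e1) (b1 : e1 < DD) (a2 : 0 < e2)
    (b2 : e2 < DD) (p : Plane) (h : ¬ Supp i p) : PP i e1 e2 a1 b1 a2 b2 p = p := by
  rw [PP_apply]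
  have : gfun DD (mfun DD e1 (kapF i p)) (mfun DD e2 (kapF i p)) (lamF i p) = lamF i p := by
    unfold Supp at h
    by_cases c1 : 0 < lamF i p
    · by_cases c2 : lamF i p < DD
      · have c3 : DD ≤ |kapF i p| := by
          by_contra hc
          push Not at hc
          exact h ⟨c1, c2, hc⟩
        rw [mfun_far e1 DD_pos c3, mfun_far e2 DD_pos c3]
        have := DD_pos
        exact gfun_self (by linarith) (by linarith) _
      · push Not at c2
        exact gfun_ge (mfun_pos DD_pos a1 _) (mfun_lt DD_pos b1 _) c2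
    · push Not at c1
      exact gfun_nonpos c1
  rw [this, sub_self, zero_smul, add_zero]

theorem PP_spt (i : ZMod 14) (e1 e2 : ℝ) (a1 : 0 < e1) (b1 : e1 < DD) (a2 : 0 < e2)
    (b2 : e2 < DD) (t : ℝ) (h0 : 0 ≤ t) (h1 : t ≤ e1) :
    PP i e1 e2 a1 b1 a2 b2 (spt i t) = spt i (t * e2 / e1) := by
  rw [PP_apply, kapF_spt, lamF_spt, mfun_zero, mfun_zero, gfun_low h0 h1 a1]
  simp only [spt]
  rw [add_assoc, ← add_smul]
  congr 2
  ring

/-- the extra edge -/
noncomputable def sp (i : ZMod 14) (e : ℝ) : Set Plane := segment ℝ (xx i) (spt i e)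

theorem mem_sp (i : ZMod 14) (e : ℝ) (p : Plane) :
    p ∈ sp i e ↔ ∃ s : ℝ, 0 ≤ s ∧ s ≤ 1 ∧ p = spt i (s * e) := by
  unfold sp
  rw [segment_eq_image']
  constructor
  · rintro ⟨s, ⟨h0, h1⟩, rfl⟩
    refine ⟨s, h0, h1, ?_⟩
    simp only [spt]
    rw [add_sub_cancel_left, smul_smul]
  · rintro ⟨s, h0, h1, rfl⟩
    refine ⟨s, ⟨h0, h1⟩, ?_⟩
    simp only [spt]
    rw [add_sub_cancel_left, smul_smul]

theorem PP_sp_self (i : ZMod 14) (e1 e2 : ℝ) (a1 : 0 < e1) (b1 : e1 < DD) (a2 : 0 < e2)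
    (b2 : e2 < DD) : PP i e1 e2 a1 b1 a2 b2 '' sp i e1 = sp i e2 := by
  ext p
  rw [mem_image, mem_sp]
  constructor
  · rintro ⟨q, hq, rfl⟩
    rw [mem_sp] at hq
    obtain ⟨s, h0, h1, rfl⟩ := hq
    refine ⟨s, h0, h1, ?_⟩
    rw [PP_spt i e1 e2 a1 b1 a2 b2 (s * e1) (by positivity) (by nlinarith)]
    congr 1
    field_simp
  · rintro ⟨s, h0, h1, rfl⟩
    refine ⟨spt i (s * e1), (mem_sp _ _ _).2 ⟨s, h0, h1, rfl⟩, ?_⟩
    rw [PP_spt i e1 e2 a1 b1 a2 b2 (s * e1) (by positivity) (by nlinarith)]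
    congr 1
    field_simp

theorem image_fix {α : Type} (f : α → α) (S : Set α) (h : ∀ p ∈ S, f p = p) : f '' S = S := by
  ext p
  constructor
  · rintro ⟨q, hq, rfl⟩
    rw [h q hq]; exact hq
  · intro hp
    exact ⟨p, hp, h p hp⟩

theorem PP_sp_other (i j : ZMod 14) (hij : j ≠ i) (e1 e2 e : ℝ) (a1 : 0 < e1) (b1 : e1 < DD)
    (a2 : 0 < e2) (b2 : e2 < DD) (a : 0 < e) (b : e < DD) :
    PP i e1 e2 a1 b1 a2 b2 '' sp j e = sp j e := by
  apply image_fix
  intro p hp
  rw [mem_sp] at hp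
  obtain ⟨s, h0, h1, rfl⟩ := hp
  exact PP_fix i e1 e2 a1 b1 a2 b2 _ (supp_spt i j hij _ (by positivity) (by nlinarith))

theorem PP_edge (i j : ZMod 14) (e1 e2 : ℝ) (a1 : 0 < e1) (b1 : e1 < DD)
    (a2 : 0 < e2) (b2 : e2 < DD) (p : Plane) (hp : p ∈ edge xx j) :
    PP i e1 e2 a1 b1 a2 b2 p = p :=
  PP_fix i e1 e2 a1 b1 a2 b2 p (fun h => supp_edge i j p hp h)

/-- the polygon with extra edges of lengths `e i` -/
noncomputable def MS (e : ZMod 14 → ℝ) : Set Plane := (⋃ i, edge xx i) ∪ ⋃ i, sp i (e i)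

/-- the nodes -/
noncomputable def ND (e : ZMod 14 → ℝ) : Set Plane :=
  range xx ∪ {p : Plane | ∃ i j, i ≠ j ∧ p ∈ edge xx i ∧ p ∈ edge xx j} ∪
    range (fun i => spt i (e i))

theorem step (i : ZMod 14) (e : ZMod 14 → ℝ) (he : ∀ j, 0 < e j ∧ e j < DD) (e' : ℝ)
    (h0 : 0 < e') (h1 : e' < DD) :
    ∃ h : Plane ≃ₜ Plane, h '' MS e = MS (Function.update e i e') ∧
      h '' ND e = ND (Function.update e i e') := by
  refine ⟨PP i (e i) e' (he i).1 (he i).2 h0 h1, ?_, ?_⟩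
  · unfold MS
    rw [image_union, image_iUnion, image_iUnion]
    congr 1
    · exact iUnion_congr fun j => image_fix _ _ fun p hp => PP_edge i j _ _ _ _ _ _ p hp
    · refine iUnion_congr fun j => ?_
      by_cases hj : j = i
      · subst hj
        rw [Function.update_self]
        exact PP_sp_self j _ _ _ _ _ _
      · rw [Function.update_of_ne hj]
        exact PP_sp_other i j hj _ _ _ _ _ _ _ (he j).1 (he j).2
  · unfold ND
    rw [image_union, image_union]
    congr 1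
    · congr 1
      · apply image_fix
        rintro p ⟨j, rfl⟩
        exact PP_edge i j _ _ _ _ _ _ _ (left_mem_segment ℝ _ _)
      · apply image_fix
        rintro p ⟨j, k, hjk, hj, hk⟩
        exact PP_edge i j _ _ _ _ _ _ _ hj
    · rw [← range_comp]
      congr 1
      funext j
      simp only [Function.comp_apply]
      by_cases hj : j = i
      · subst hj
        rw [Function.update_self, PP_spt j (e j) e' _ _ _ _ (e j) (he j).1.le le_rfl]
        congr 1
        have := (he j).1.ne'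
        field_simp
      · rw [Function.update_of_ne hj]
        exact PP_fix i _ _ _ _ _ _ _ (supp_spt i j hj _ (he j).1.le (he j).2.le)

/-- all the extra edges can be rescaled -/
theorem rescale (e1 e2 : ℝ) (a1 : 0 < e1) (b1 : e1 < DD) (a2 : 0 < e2) (b2 : e2 < DD) :
    ∃ h : Plane ≃ₜ Plane, h '' MS (fun _ => e1) = MS (fun _ => e2) ∧
      h '' ND (fun _ => e1) = ND (fun _ => e2) := by
  classical
  have key : ∀ s : Finset (ZMod 14), ∃ h : Plane ≃ₜ Plane,
      h '' MS (fun _ => e1) = MS (fun i => if i ∈ s then e2 else e1) ∧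
      h '' ND (fun _ => e1) = ND (fun i => if i ∈ s then e2 else e1) := by
    intro s
    induction s using Finset.induction_on with
    | empty => exact ⟨Homeomorph.refl _, by simp, by simp⟩
    | insert i s hi ih =>
      obtain ⟨h, h1, h2⟩ := ih
      obtain ⟨g, g1, g2⟩ := step i (fun i => if i ∈ s then e2 else e1)
        (fun j => by by_cases hj : j ∈ s <;> simp [hj, a1, b1, a2, b2]) e2 a2 b2
      have hu : Function.update (fun i => if i ∈ s then e2 else e1) i e2 =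
          fun j => if j ∈ insert i s then e2 else e1 := by
        funext j
        by_cases hj : j = i
        · subst hj; simp
        · rw [Function.update_of_ne hj]; simp [hj]
      rw [hu] at g1 g2
      refine ⟨h.trans g, ?_, ?_⟩
      · rw [show (⇑(h.trans g)) = g ∘ h from rfl, image_comp, h1, g1]
      · rw [show (⇑(h.trans g)) = g ∘ h from rfl, image_comp, h2, g2]
  obtain ⟨h, h1, h2⟩ := key Finset.univ
  exact ⟨h, by simpa using h1, by simpa using h2⟩

end Pool.Agent.W5h5.PolyPush
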