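import Mathlib
import Pool.Agent.W5h5.PolyShrink

/-! Dihedral permutations, and the same pattern with independent sizes of the extra edges. -/

set_option autoImplicit false

namespace Pool.Agent.W5h5.PolyPush

open Set Pool.Agent.Helper337.PolygonPattern

theorem rel_of_add (τ : ZMod 14 → ZMod 14) (h : ∀ i, τ (i + 1) = τ i + 1) : IsRelabelling τ := by
  refine ⟨τ 0, Or.inl fun i => ?_⟩
  have key : ∀ k : ℕ, τ ((k : ℕ) : ZMod 14) = τ 0 + ((k : ℕ) : ZMod 14) := by
    intro k
    induction k with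
    | zero => simp
    | succ k ih =>
      push_cast
      rw [h, ih]
      ring
  have h2 := key i.val
  rwa [ZMod.natCast_zmod_val] at h2

theorem rel_of_sub (τ : ZMod 14 → ZMod 14) (h : ∀ i, τ (i + 1) = τ i - 1) : IsRelabelling τ := by
  refine ⟨τ 0, Or.inr fun i => ?_⟩
  have key : ∀ k : ℕ, τ ((k : ℕ) : ZMod 14) = τ 0 - ((k : ℕ) : ZMod 14) := by
    intro k
    induction k with
    | zero => simp
    | succ k ih =>
      push_cast
      rw [h, ih]
      ring
  have h2 := key i.val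
  rwa [ZMod.natCast_zmod_val] at h2

theorem rot_apply (i : Fin 14) : finRotate 14 i = i + 1 := finRotate_apply i

theorem rot_symm (i : Fin 14) : (finRotate 14).symm i = i - 1 := by
  rw [Equiv.symm_apply_eq, rot_apply, sub_add_cancel]

theorem dihedral_rel (σ : Equiv.Perm (Fin 14))
    (h : (∀ i, σ (finRotate 14 i) = finRotate 14 (σ i)) ∨
      (∀ i, σ (finRotate 14 i) = (finRotate 14).symm (σ i))) :
    IsRelabelling (n := 14) (fun i => σ i) := by
  rcases h with h | h
  · have h1 : ∀ i : Fin 14, σ (i + 1) = σ i + 1 := fun i => by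
      have h2 := h i
      rwa [rot_apply, rot_apply] at h2
    exact rel_of_add (fun i => σ i) h1
  · have h1 : ∀ i : Fin 14, σ (i + 1) = σ i - 1 := fun i => by
      have h2 := h i
      rwa [rot_apply, rot_symm] at h2
    exact rel_of_sub (fun i => σ i) h1

/-- the end of the extra edge, in the form of the frozen statement -/
noncomputable def pend (x : ZMod 14 → Plane) (ε : ℝ) (i : ZMod 14) : Plane :=
  x i + ε • ((2 : ℝ) • x i - x (i - 1) - x (i + 1))

theorem pend_xx (ε : ℝ) (i : ZMod 14) : pend xx ε i = spt i ε := by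
  unfold pend spt
  congr 2
  simp only [xx, dZ, toR]
  apply Prod.ext
  · simp
  · simp

theorem tau_pend (ε : ℝ) (i : ZMod 14) : tau (pend xx ε i) = pend yy ε (i + 7) := by
  unfold pend
  have h1 : i + 7 - 1 = (i - 1) + 7 := by ring
  have h2 : i + 7 + 1 = (i + 1) + 7 := by ring
  rw [h1, h2, ← tau_xx, ← tau_xx, ← tau_xx]
  simp only [tau_apply]
  apply Prod.ext
  · simp
  · simp; ring

/-- the polygon with the extra edges -/
noncomputable def MSg (x : ZMod 14 → Plane) (ε : ℝ) : Set Plane :=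
  (⋃ i, edge x i) ∪ ⋃ i, segment ℝ (x i) (pend x ε i)

/-- the nodes -/
noncomputable def NDg (x : ZMod 14 → Plane) (ε : ℝ) : Set Plane :=
  range x ∪ {p : Plane | ∃ i j, i ≠ j ∧ p ∈ edge x i ∧ p ∈ edge x j} ∪ range (pend x ε)

theorem MSg_xx (ε : ℝ) : MSg xx ε = MS (fun _ => ε) := by
  unfold MSg MS sp
  simp only [pend_xx]

theorem NDg_xx (ε : ℝ) : NDg xx ε = ND (fun _ => ε) := by
  unfold NDg ND
  congr 1
  congr 1
  funext i
  exact pend_xx ε i

theorem tau_MSg (ε : ℝ) : tau '' MSg xx ε = MSg yy ε := by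
  unfold MSg
  rw [image_union, image_iUnion, image_iUnion]
  simp only [tau_edge, tau_segment, tau_xx, tau_pend]
  rw [iUnion_shift (fun i => edge yy i), iUnion_shift (fun i => segment ℝ (yy i) (pend yy ε i))]

theorem add77 : ∀ i : ZMod 14, i + 7 + 7 = i := by decide +kernel

theorem tau_NDg (ε : ℝ) : tau '' NDg xx ε = NDg yy ε := by
  unfold NDg
  rw [image_union, image_union]
  congr 1
  · congr 1
    · ext p
      constructor
      · rintro ⟨_, ⟨i, rfl⟩, rfl⟩
        exact ⟨i + 7, (tau_xx i).symm⟩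
      · rintro ⟨i, rfl⟩
        refine ⟨xx (i + 7), ⟨i + 7, rfl⟩, ?_⟩
        rw [tau_xx, add77]
    · ext p
      constructor
      · rintro ⟨q, ⟨i, j, hij, hi, hj⟩, rfl⟩
        refine ⟨i + 7, j + 7, fun h => hij (add_right_cancel h), ?_, ?_⟩
        · rw [← tau_edge]; exact ⟨q, hi, rfl⟩
        · rw [← tau_edge]; exact ⟨q, hj, rfl⟩
      · rintro ⟨i, j, hij, hi, hj⟩
        rw [← add77 i, ← tau_edge] at hi
        rw [← add77 j, ← tau_edge] at hj
        obtain ⟨q, hq, rfl⟩ := hi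
        obtain ⟨q', hq', he⟩ := hj
        have : q' = q := tau.injective he
        rw [this] at hq'
        exact ⟨q, ⟨i + 7, j + 7, fun h => hij (add_right_cancel h), hq, hq'⟩, rfl⟩
  · ext p
    constructor
    · rintro ⟨_, ⟨i, rfl⟩, rfl⟩
      exact ⟨i + 7, (tau_pend ε i).symm⟩
    · rintro ⟨i, rfl⟩
      refine ⟨pend xx ε (i + 7), ⟨i + 7, rfl⟩, ?_⟩
      rw [tau_pend, add77]

theorem same_pattern (e1 e2 : ℝ) (a1 : 0 < e1) (b1 : e1 < DD) (a2 : 0 < e2) (b2 : e2 < DD) :
    ∃ h : Plane ≃ₜ Plane, h '' MSg xx e1 = MSg yy e2 ∧ h '' NDg xx e1 = NDg yy e2 := by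
  obtain ⟨h, h1, h2⟩ := rescale e1 e2 a1 b1 a2 b2
  refine ⟨h.trans tau, ?_, ?_⟩
  · rw [show (⇑(h.trans tau)) = tau ∘ h from rfl, image_comp, MSg_xx, h1, ← MSg_xx, tau_MSg]
  · rw [show (⇑(h.trans tau)) = tau ∘ h from rfl, image_comp, NDg_xx, h2, ← NDg_xx, tau_NDg]

end Pool.Agent.W5h5.PolyPush
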