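import Mathlib

/-! Geometry of the type B permutahedron: flags of sign vectors and vertices. -/

set_option linter.all false

open Finset

namespace Pool.Agent.W5h5.BG

/-- flag of faces of the cube, as sign vectors -/
structure GF (n : ℕ) (φ : ℕ → Fin n → SignType) : Prop where
  card : ∀ j ≤ n, (univ.filter (fun i => φ j i = 0)).card = j
  le : ∀ j < n, ∀ i, φ (j + 1) i = 0 ∨ φ j i = φ (j + 1) i

/-- vertex of a flag -/
noncomputable def vert {n : ℕ} (φ : ℕ → Fin n → SignType) : Fin n → ℝ :=
  fun i => ∑ j ∈ range n, ((φ j i : SignType) : ℝ)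

/-- inner product of sign vectors -/
noncomputable def ip {n : ℕ} (s t : Fin n → SignType) : ℝ := ∑ i, ((s i : SignType) : ℝ) * (t i : ℝ)

/-- number of nonzero coordinates -/
def sp {n : ℕ} (s : Fin n → SignType) : ℕ := (univ.filter (fun i => s i ≠ 0)).card

/-- number of zero coordinates -/
def zn {n : ℕ} (s : Fin n → SignType) : ℕ := (univ.filter (fun i => s i = 0)).card

lemma sp_add_zn {n : ℕ} (s : Fin n → SignType) : zn s + sp s = n := by
  have := Finset.card_filter_add_card_filter_not (s := (univ : Finset (Fin n))) (fun i => s i = 0)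
  simpa [sp, zn] using this

lemma ip_comm {n : ℕ} (s t : Fin n → SignType) : ip s t = ip t s := by
  unfold ip; exact Finset.sum_congr rfl (fun i _ => mul_comm _ _)

lemma term_le (s t : SignType) : ((s : ℝ)) * (t : ℝ) ≤ if s ≠ 0 then 1 else 0 := by
  cases s <;> cases t <;> norm_num

lemma term_eq (s t : SignType) : ((s : ℝ)) * (t : ℝ) = (if s ≠ 0 then 1 else 0) ↔
    (s ≠ 0 → t = s) := by
  cases s <;> cases t <;> norm_num <;> decide

lemma sp_eq_sum {n : ℕ} (s : Fin n → SignType) : (sp s : ℝ) = ∑ i, if s i ≠ 0 then (1:ℝ) else 0 := by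
  rw [sp, Finset.sum_boole]

lemma ip_le {n : ℕ} (s t : Fin n → SignType) : ip s t ≤ sp s := by
  rw [sp_eq_sum]; exact Finset.sum_le_sum (fun i _ => term_le _ _)

lemma ip_eq {n : ℕ} (s t : Fin n → SignType) : ip s t = sp s ↔ ∀ i, s i ≠ 0 → t i = s i := by
  rw [sp_eq_sum, ip, Finset.sum_eq_sum_iff_of_le (fun i _ => term_le _ _)]
  simp only [Finset.mem_univ, true_implies, term_eq]

/-- support function value -/
noncomputable def cc {n : ℕ} (s : Fin n → SignType) : ℝ := ∑ j ∈ range n, ((min (sp s) (n - j) : ℕ) : ℝ)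

/-- facet functional -/
noncomputable def ell {n : ℕ} (s : Fin n → SignType) : (Fin n → ℝ) →L[ℝ] ℝ :=
  ∑ i, ((s i : SignType) : ℝ) • (ContinuousLinearMap.proj i : (Fin n → ℝ) →L[ℝ] ℝ)

lemma ell_apply {n : ℕ} (s : Fin n → SignType) (x : Fin n → ℝ) :
    ell s x = ∑ i, ((s i : SignType) : ℝ) * x i := by
  simp [ell, ContinuousLinearMap.sum_apply]

lemma ell_vert {n : ℕ} (s : Fin n → SignType) (φ : ℕ → Fin n → SignType) :
    ell s (vert φ) = ∑ j ∈ range n, ip s (φ j) := by
  rw [ell_apply]
  simp only [vert, ip, Finset.mul_sum]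
  rw [Finset.sum_comm]

lemma GF.zn {n : ℕ} {φ : ℕ → Fin n → SignType} (h : GF n φ) {j : ℕ} (hj : j ≤ n) :
    zn (φ j) = j := h.card j hj

lemma GF.sp {n : ℕ} {φ : ℕ → Fin n → SignType} (h : GF n φ) {j : ℕ} (hj : j ≤ n) :
    sp (φ j) = n - j := by
  have := sp_add_zn (φ j)
  rw [h.zn hj] at this; omega

lemma GF.mono {n : ℕ} {φ : ℕ → Fin n → SignType} (h : GF n φ) {j k : ℕ} (hjk : j ≤ k) (hk : k ≤ n)
    (i : Fin n) (hi : φ k i ≠ 0) : φ j i = φ k i := by
  induction k, hjk using Nat.le_induction with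
  | base => rfl
  | succ k hjk ih =>
    rcases h.le k (by omega) i with h0 | h1
    · exact absurd h0 hi
    · rw [← h1] at hi ⊢
      exact ih (by omega) hi

lemma ell_vert_le {n : ℕ} (s : Fin n → SignType) {φ : ℕ → Fin n → SignType} (h : GF n φ) :
    ell s (vert φ) ≤ cc s := by
  rw [ell_vert, cc]
  refine Finset.sum_le_sum (fun j hj => ?_)
  rw [Finset.mem_range] at hj
  rw [Nat.cast_min]
  refine le_min (ip_le _ _) ?_
  rw [ip_comm, ← h.sp hj.le]
  exact ip_le _ _

lemma ell_vert_eq {n : ℕ} (s : Fin n → SignType) (hs : zn s < n) {φ : ℕ → Fin n → SignType}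
    (h : GF n φ) : ell s (vert φ) = cc s ↔ φ (zn s) = s := by
  have hle : ∀ j ∈ range n, ip s (φ j) ≤ ((min (sp s) (n - j) : ℕ) : ℝ) := by
    intro j hj
    rw [Finset.mem_range] at hj
    rw [Nat.cast_min]
    refine le_min (ip_le _ _) ?_
    rw [ip_comm, ← h.sp hj.le]
    exact ip_le _ _
  have hsz := sp_add_zn s
  rw [ell_vert, cc, Finset.sum_eq_sum_iff_of_le hle]
  constructor
  · intro H
    have h1 := H (zn s) (Finset.mem_range.2 hs)
    rw [show min (sp s) (n - zn s) = sp s by omega] at h1
    have h2 := (ip_eq _ _).1 h1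
    rw [ip_comm, show sp s = sp (φ (zn s)) by rw [h.sp hs.le]; omega] at h1
    have h3 := (ip_eq _ _).1 h1
    funext i
    by_cases hi : s i = 0
    · by_contra hne
      have h4 : φ (zn s) i ≠ 0 := by rw [hi] at hne; exact hne
      exact hne (h3 i h4).symm
    · exact h2 i hi
  · intro H j hj
    rw [Finset.mem_range] at hj
    rcases Nat.le_total j (zn s) with hle | hle
    · rw [show min (sp s) (n - j) = sp s by omega, ip_eq]
      intro i hi
      rw [← H] at hi ⊢
      exact h.mono hle hs.le i hi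
    · rw [show min (sp s) (n - j) = sp (φ j) by rw [h.sp hj.le]; omega, ip_comm, ip_eq]
      intro i hi
      rw [← h.mono hle hj.le i hi, H]

/-- Equality of vertices forces equality of flags. -/
lemma vert_inj {n : ℕ} {φ ψ : ℕ → Fin n → SignType} (h : GF n φ) (h' : GF n ψ)
    (he : vert φ = vert ψ) {k : ℕ} (hk : k < n) : φ k = ψ k := by
  have h1 : ell (φ k) (vert φ) = cc (φ k) := (ell_vert_eq _ (by rw [h.zn hk.le]; exact hk) h).2
    (by rw [h.zn hk.le])
  rw [he, ell_vert_eq _ (by rw [h.zn hk.le]; exact hk) h', h.zn hk.le] at h1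
  exact h1.symm

lemma GF.top {n : ℕ} {φ : ℕ → Fin n → SignType} (h : GF n φ) (i : Fin n) : φ n i = 0 := by
  have h1 := h.card n le_rfl
  have h2 : (univ.filter (fun i => φ n i = 0)) = univ := by
    apply Finset.eq_univ_of_card
    rw [h1, Fintype.card_fin]
  have h3 : i ∈ (univ.filter (fun i => φ n i = 0)) := by rw [h2]; exact Finset.mem_univ i
  exact (Finset.mem_filter.1 h3).2

/-- two faces only between consecutive levels -/
lemma two_options {n j : ℕ} (hj : j < n) {φ χ ψ : ℕ → Fin n → SignType} (h1 : GF n φ) (h2 : GF n χ)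
    (h3 : GF n ψ) (e12 : ∀ k < n, k ≠ j → χ k = φ k) (e13 : ∀ k < n, k ≠ j → ψ k = φ k)
    (hne : χ j ≠ φ j) : ψ j = φ j ∨ ψ j = χ j := by
  -- level above
  have a12 : χ (j + 1) = φ (j + 1) := by
    rcases Nat.lt_or_ge (j + 1) n with h | h
    · exact e12 _ h (by omega)
    · have : j + 1 = n := by omega
      rw [this]; funext i; rw [h1.top, h2.top]
  have a13 : ψ (j + 1) = φ (j + 1) := by
    rcases Nat.lt_or_ge (j + 1) n with h | h
    · exact e13 _ h (by omega)
    · have : j + 1 = n := by omega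
      rw [this]; funext i; rw [h1.top, h3.top]
  have hA1 := h1.le j hj
  have hA2 := h2.le j hj
  have hA3 := h3.le j hj
  rw [a12] at hA2
  rw [a13] at hA3
  have cA := h1.card (j + 1) (by omega)
  have c1 := h1.card j hj.le
  have c2 := h2.card j hj.le
  have c3 := h3.card j hj.le
  rcases Nat.eq_zero_or_pos j with h0 | hpos
  · subst h0
    obtain ⟨p, hp⟩ := Finset.card_eq_one.1 cA
    have hpz : ∀ i, φ (0 + 1) i = 0 ↔ i = p := by
      intro i
      have : i ∈ univ.filter (fun i => φ (0 + 1) i = 0) ↔ i ∈ ({p} : Finset (Fin n)) := by rw [hp]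
      simpa using this
    have nz : ∀ (X : Fin n → SignType), (univ.filter (fun i => X i = 0)).card = 0 → ∀ i, X i ≠ 0 := by
      intro X hX i hi
      rw [Finset.card_eq_zero] at hX
      have : i ∈ univ.filter (fun i => X i = 0) := by simp [hi]
      rw [hX] at this; simp at this
    have n1 := nz _ c1 p
    have n2 := nz _ c2 p
    have n3 := nz _ c3 p
    have ext : ∀ (X Y : Fin n → SignType), (∀ i, φ (0 + 1) i = 0 ∨ X i = φ (0 + 1) i) →
        (∀ i, φ (0 + 1) i = 0 ∨ Y i = φ (0 + 1) i) → X p = Y p → X = Y := by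
      intro X Y hX hY hXY
      funext i
      by_cases hi : i = p
      · rw [hi, hXY]
      · have : φ (0 + 1) i ≠ 0 := fun h => hi ((hpz i).1 h)
        rw [(hX i).resolve_left this, (hY i).resolve_left this]
    have hne' : χ 0 p ≠ φ 0 p := fun h => hne (ext _ _ hA2 hA1 h)
    have : ψ 0 p = φ 0 p ∨ ψ 0 p = χ 0 p := by
      revert n1 n2 n3 hne'
      cases ψ 0 p <;> cases φ 0 p <;> cases χ 0 p <;> decide
    rcases this with h | h
    · exact Or.inl (ext _ _ hA3 hA1 h)
    · exact Or.inr (ext _ _ hA3 hA2 h)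
  · obtain ⟨k, rfl⟩ : ∃ k, j = k + 1 := ⟨j - 1, by omega⟩
    have b12 : χ k = φ k := e12 k (by omega) (by omega)
    have b13 : ψ k = φ k := e13 k (by omega) (by omega)
    have hB1 := h1.le k (by omega)
    have hB2 := h2.le k (by omega)
    have hB3 := h3.le k (by omega)
    rw [b12] at hB2
    rw [b13] at hB3
    have cB := h1.card k (by omega)
    -- the two relevant coordinates
    set A := φ (k + 1 + 1) with hA
    set Bf := φ k with hBf
    have key : ∀ (X : Fin n → SignType), (univ.filter (fun i => X i = 0)).card = k + 1 →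
        (∀ i, A i = 0 ∨ X i = A i) → (∀ i, X i = 0 ∨ Bf i = X i) →
        (univ.filter (fun i => A i = 0 ∧ Bf i ≠ 0 ∧ X i = 0)).card = 1 := by
      intro X hX hXA hXB
      have e : univ.filter (fun i => X i = 0) =
          (univ.filter (fun i => Bf i = 0)) ∪ (univ.filter (fun i => A i = 0 ∧ Bf i ≠ 0 ∧ X i = 0)) := by
        ext i
        simp only [Finset.mem_filter, Finset.mem_univ, true_and, Finset.mem_union]
        constructor
        · intro h
          by_cases hb : Bf i = 0
          · exact Or.inl hb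
          · refine Or.inr ⟨?_, hb, h⟩
            rcases hXA i with h' | h'
            · exact h'
            · rw [← h', h]
        · rintro (h | h)
          · rcases hXB i with h' | h'
            · exact h'
            · rw [← h', h]
          · exact h.2.2
      rw [e, Finset.card_union_of_disjoint] at hX
      · omega
      · rw [Finset.disjoint_filter]
        intro i _ h h'
        exact h'.2.1 h
    have cD : (univ.filter (fun i => A i = 0 ∧ Bf i ≠ 0)).card = 2 := by
      have e : univ.filter (fun i => A i = 0) =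
          (univ.filter (fun i => Bf i = 0)) ∪ (univ.filter (fun i => A i = 0 ∧ Bf i ≠ 0)) := by
        ext i
        simp only [Finset.mem_filter, Finset.mem_univ, true_and, Finset.mem_union]
        constructor
        · intro h
          by_cases hb : Bf i = 0
          · exact Or.inl hb
          · exact Or.inr ⟨h, hb⟩
        · rintro (h | h)
          · rcases hB1 i with h' | h'
            · rcases hA1 i with h'' | h''
              · exact h''
              · rw [← h'', h']
            · have h4 : φ (k + 1) i = 0 := by rw [← h', h]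
              rcases hA1 i with h'' | h''
              · exact h''
              · rw [← h'', h4]
          · exact h.1
      rw [e, Finset.card_union_of_disjoint] at cA
      · omega
      · rw [Finset.disjoint_filter]
        intro i _ h h'
        exact h'.2 h
    obtain ⟨p, q, hpq, hD⟩ := Finset.card_eq_two.1 cD
    have hDi : ∀ i, (A i = 0 ∧ Bf i ≠ 0) ↔ (i = p ∨ i = q) := by
      intro i
      have : i ∈ univ.filter (fun i => A i = 0 ∧ Bf i ≠ 0) ↔ i ∈ ({p, q} : Finset (Fin n)) := by
        rw [hD]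
      simpa using this
    -- exactly one of p, q is zero
    have one : ∀ (X : Fin n → SignType),
        (univ.filter (fun i => A i = 0 ∧ Bf i ≠ 0 ∧ X i = 0)).card = 1 → (X q = 0 ↔ X p ≠ 0) := by
      intro X hX
      obtain ⟨r, hr⟩ := Finset.card_eq_one.1 hX
      have hri : ∀ i, (A i = 0 ∧ Bf i ≠ 0 ∧ X i = 0) ↔ i = r := by
        intro i
        have : i ∈ univ.filter (fun i => A i = 0 ∧ Bf i ≠ 0 ∧ X i = 0) ↔
          i ∈ ({r} : Finset (Fin n)) := by rw [hr]
        simpa using this
      have hP := (hDi p).2 (Or.inl rfl)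
      have hQ := (hDi q).2 (Or.inr rfl)
      constructor
      · intro h h'
        have e1 := (hri q).1 ⟨hQ.1, hQ.2, h⟩
        have e2 := (hri p).1 ⟨hP.1, hP.2, h'⟩
        exact hpq (e2.trans e1.symm)
      · intro h
        have hr' := (hri r).2 rfl
        rcases (hDi r).1 ⟨hr'.1, hr'.2.1⟩ with h1 | h1
        · rw [h1] at hr'; exact absurd hr'.2.2 h
        · rw [h1] at hr'; exact hr'.2.2
    have ext : ∀ (X Y : Fin n → SignType), (∀ i, A i = 0 ∨ X i = A i) →
        (∀ i, A i = 0 ∨ Y i = A i) → (∀ i, X i = 0 ∨ Bf i = X i) → (∀ i, Y i = 0 ∨ Bf i = Y i) →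
        (X q = 0 ↔ X p ≠ 0) → (Y q = 0 ↔ Y p ≠ 0) → (X p = 0 ↔ Y p = 0) → X = Y := by
      intro X Y hX hY hX' hY' oX oY hXY
      have aux : ∀ i, (X i = 0 ↔ Y i = 0) → A i = 0 → X i = Y i := by
        intro i h1 h2
        by_cases h3 : X i = 0
        · rw [h3, h1.1 h3]
        · have h4 : Y i ≠ 0 := fun h => h3 (h1.2 h)
          rw [← (hX' i).resolve_left h3, ← (hY' i).resolve_left h4]
      funext i
      by_cases hAi : A i = 0
      · by_cases hBi : Bf i = 0
        · have hx : X i = 0 := by
            rcases hX' i with h | h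
            · exact h
            · rw [← h, hBi]
          have hy : Y i = 0 := by
            rcases hY' i with h | h
            · exact h
            · rw [← h, hBi]
          rw [hx, hy]
        · rcases (hDi i).1 ⟨hAi, hBi⟩ with rfl | rfl
          · exact aux i hXY hAi
          · refine aux i ?_ hAi
            rw [oX, oY, Ne, Ne, hXY]
      · rw [(hX i).resolve_left hAi, (hY i).resolve_left hAi]
    have o1 := one _ (key _ c1 hA1 hB1)
    have o2 := one _ (key _ c2 hA2 hB2)
    have o3 := one _ (key _ c3 hA3 hB3)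
    by_cases p1 : φ (k + 1) p = 0 <;> by_cases p2 : χ (k + 1) p = 0
    · exact absurd (ext _ _ hA2 hA1 hB2 hB1 o2 o1 (by simp [p1, p2])) hne
    · by_cases p3 : ψ (k + 1) p = 0
      · exact Or.inl (ext _ _ hA3 hA1 hB3 hB1 o3 o1 (by simp [p1, p3]))
      · exact Or.inr (ext _ _ hA3 hA2 hB3 hB2 o3 o2 (by simp [p2, p3]))
    · by_cases p3 : ψ (k + 1) p = 0
      · exact Or.inr (ext _ _ hA3 hA2 hB3 hB2 o3 o2 (by simp [p2, p3]))
      · exact Or.inl (ext _ _ hA3 hA1 hB3 hB1 o3 o1 (by simp [p1, p3]))
    · exact absurd (ext _ _ hA2 hA1 hB2 hB1 o2 o1 (by simp [p1, p2])) hne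

end Pool.Agent.W5h5.BG
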