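import Mathlib

/-!
Definitions for the facet-Hamiltonicity of the type B permutahedra.
-/

namespace Pool.Agent.W5h5.BG

/-- The signed permutation vectors `(ε₁σ(1), …, εₙσ(n))` in `ℝⁿ`: `σ` is a permutation of
`Fin n = {0, …, n - 1}`, whose values are shifted by one, and every `εᵢ` is `1` or `-1`. -/
def signedPermVectors (n : ℕ) : Set (Fin n → ℝ) :=
  {x | ∃ (σ : Equiv.Perm (Fin n)) (ε : Fin n → ℝ), (∀ i, ε i = 1 ∨ ε i = -1) ∧
    x = fun i => ε i * (((σ i : ℕ) : ℝ) + 1)}

/-- The type B permutahedron `Bₙ`: the convex hull of the `2ⁿ n!` signed permutation vectors. -/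
def typeBPermutahedron (n : ℕ) : Set (Fin n → ℝ) := convexHull ℝ (signedPermVectors n)

/-- The skeleton of a polytope `P`: two distinct points are adjacent when the segment joining
them is a face of `P`, that is, an edge of `P` (its ends are then vertices of `P`). -/
def skeleton {n : ℕ} (P : Set (Fin n → ℝ)) : SimpleGraph (Fin n → ℝ) where
  Adj x y := x ≠ y ∧ IsExposed ℝ P (segment ℝ x y)
  symm := ⟨fun x y h => ⟨h.1.symm, by rw [segment_symm]; exact h.2⟩⟩
  loopless := ⟨fun x h => h.1 rfl⟩

/-- A facet of a polytope `P`: a nonempty face whose dimension is one less than that of `P`. -/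
def IsFacet {n : ℕ} (P F : Set (Fin n → ℝ)) : Prop :=
  IsExposed ℝ P F ∧ F.Nonempty ∧
    Module.finrank ℝ (vectorSpan ℝ F) + 1 = Module.finrank ℝ (vectorSpan ℝ P)

/-- `P` is facet-Hamiltonian: there is a cycle `c` (an injective homomorphism from the cycle graph
on `m ≥ 3` vertices) in the skeleton of `P` such that for every facet `F` of `P` the part of the
cycle lying in `F` (the vertices of the cycle in `F`, and the edges of the cycle between them) is
nonempty and connected. -/
def FacetHamiltonian {n : ℕ} (P : Set (Fin n → ℝ)) : Prop :=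
  ∃ (m : ℕ) (_ : 3 ≤ m) (c : SimpleGraph.cycleGraph m →g skeleton P),
    Function.Injective c ∧
    ∀ F : Set (Fin n → ℝ), IsFacet P F →
      ((SimpleGraph.cycleGraph m).induce (c ⁻¹' F)).Connected

end Pool.Agent.W5h5.BG
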