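import Pool.Agent.W5h5.BG1
import Pool.Agent.W5h5.BGDefs

/-! Signed permutation vectors, faces of convex hulls, edges. -/

set_option linter.all false

open Finset

namespace Pool.Agent.W5h5.BG

/-- flag of a signed permutation -/
def flagOf {n : ℕ} (σ : Equiv.Perm (Fin n)) (ε : Fin n → SignType) : ℕ → Fin n → SignType :=
  fun j i => if j ≤ (σ i : ℕ) then ε i else 0

lemma flagOf_GF {n : ℕ} (σ : Equiv.Perm (Fin n)) (ε : Fin n → SignType) (hε : ∀ i, ε i ≠ 0) :
    GF n (flagOf σ ε) := by
  refine ⟨fun j hj => ?_, fun j hj i => ?_⟩
  · have e : (univ.filter (fun i => flagOf σ ε j i = 0)) =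
        (univ.filter (fun k : Fin n => (k : ℕ) < j)).map σ.symm.toEmbedding := by
      ext i
      rw [Finset.mem_filter, Finset.mem_map_equiv, Finset.mem_filter, Equiv.symm_symm]
      simp only [Finset.mem_univ, true_and]
      constructor
      · intro h
        by_contra h'
        have h2 : flagOf σ ε j i = ε i := if_pos (by omega)
        rw [h2] at h
        exact hε i h
      · intro h
        exact if_neg (by omega)
    rw [e, Finset.card_map]
    have : (univ.filter (fun k : Fin n => (k : ℕ) < j)).card = j := by
      rw [Fin.card_filter_val_lt]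
      exact min_eq_right hj
    exact this
  · simp only [flagOf]
    by_cases h : j + 1 ≤ (σ i : ℕ)
    · right; rw [if_pos h, if_pos (by omega)]
    · left; rw [if_neg h]

lemma vert_flagOf {n : ℕ} (σ : Equiv.Perm (Fin n)) (ε : Fin n → SignType) (i : Fin n) :
    vert (flagOf σ ε) i = (ε i : ℝ) * (((σ i : ℕ) : ℝ) + 1) := by
  simp only [vert, flagOf]
  have : ∀ j ∈ range n, (((if j ≤ (σ i : ℕ) then ε i else 0 : SignType)) : ℝ) =
      if j < (σ i : ℕ) + 1 then ((ε i : SignType) : ℝ) else 0 := by
    intro j _
    by_cases h : j ≤ (σ i : ℕ)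
    · rw [if_pos h, if_pos (by omega)]
    · rw [if_neg h, if_neg (by omega)]; simp
  rw [Finset.sum_congr rfl this, ← Finset.sum_filter]
  rw [Finset.sum_const]
  have : (range n).filter (fun j => j < (σ i : ℕ) + 1) = range ((σ i : ℕ) + 1) := by
    ext j; simp; have := (σ i).2; omega
  rw [this, Finset.card_range]
  rw [nsmul_eq_mul]; push_cast; ring

lemma signed_iff {n : ℕ} (x : Fin n → ℝ) :
    x ∈ signedPermVectors n ↔ ∃ φ, GF n φ ∧ x = vert φ := by
  constructor
  · rintro ⟨σ, ε, hε, rfl⟩
    refine ⟨flagOf σ (fun i => if ε i = 1 then 1 else -1), flagOf_GF _ _ ?_, ?_⟩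
    · intro i
      by_cases h : ε i = 1
      · simp only [h, if_true]; decide
      · simp only [h, if_false]; decide
    · funext i
      rw [vert_flagOf]
      congr 1
      rcases hε i with h | h
      · simp [h]
      · rw [h]; norm_num
  · rintro ⟨φ, hφ, rfl⟩
    -- height of a coordinate
    have h0 : ∀ i, 0 < n → φ 0 i ≠ 0 := by
      intro i hn h
      have h1 := hφ.card 0 (by omega)
      rw [Finset.card_eq_zero] at h1
      have : i ∈ univ.filter (fun i => φ 0 i = 0) := by simp [h]
      rw [h1] at this; simp at this
    let ht : Fin n → ℕ := fun i => ((range n).filter (fun j => φ j i ≠ 0)).card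
    have hset : ∀ i, (range n).filter (fun j => φ j i ≠ 0) = range (ht i) := by
      intro i
      have hdown : ∀ j k, j ≤ k → k < n → φ k i ≠ 0 → φ j i ≠ 0 := by
        intro j k hjk hk hne
        rw [hφ.mono hjk hk.le i hne]; exact hne
      -- a downward closed subset of range n
      have hgen : ∀ (S : Finset ℕ), (∀ j k, j ≤ k → k ∈ S → j ∈ S) → S = range S.card := by
        intro S hS
        have hsub : ∀ k ∈ S, k < S.card := by
          intro k hk
          have : range (k + 1) ⊆ S := by
            intro j hj
            rw [Finset.mem_range] at hj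
            exact hS j k (by omega) hk
          have := Finset.card_le_card this
          rw [Finset.card_range] at this
          omega
        apply Finset.eq_of_subset_of_card_le
        · intro k hk; rw [Finset.mem_range]; exact hsub k hk
        · rw [Finset.card_range]
      apply hgen
      intro j k hjk hk
      rw [Finset.mem_filter, Finset.mem_range] at hk ⊢
      exact ⟨by omega, hdown j k hjk hk.1 hk.2⟩
    have hiff : ∀ i j, j < n → (φ j i ≠ 0 ↔ j < ht i) := by
      intro i j hj
      have : j ∈ (range n).filter (fun j => φ j i ≠ 0) ↔ j ∈ range (ht i) := by rw [hset]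
      rw [Finset.mem_filter, Finset.mem_range, Finset.mem_range] at this
      exact ⟨fun h => this.1 ⟨hj, h⟩, fun h => (this.2 h).2⟩
    have hpos : ∀ i : Fin n, 0 < ht i := by
      intro i
      have hn : 0 < n := i.pos
      exact (hiff i 0 hn).1 (h0 i hn)
    have hle : ∀ i : Fin n, ht i ≤ n := by
      intro i
      have := Finset.card_filter_le (range n) (fun j => φ j i ≠ 0)
      rwa [Finset.card_range] at this
    have hinj : Function.Injective ht := by
      intro i i' hii
      by_contra hne
      have hk := hpos i
      have hkn := hle i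
      obtain ⟨k, hk'⟩ : ∃ k, ht i = k + 1 := ⟨ht i - 1, by omega⟩
      -- zero sets
      have hz : ∀ j ≤ n, ∀ a, φ j a = 0 ↔ ht a ≤ j := by
        intro j hj a
        rcases Nat.lt_or_ge j n with h | h
        · have := hiff a j h
          constructor
          · intro h1
            by_contra h2
            exact this.2 (by omega) h1
          · intro h1
            by_contra h2
            have := this.1 h2
            omega
        · have : j = n := by omega
          subst this
          exact ⟨fun _ => hle a, fun _ => hφ.top a⟩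
      have c1 := hφ.card (k + 1) (by omega)
      have c0 := hφ.card k (by omega)
      have hsub : insert i (insert i' (univ.filter (fun a => φ k a = 0))) ⊆
          univ.filter (fun a => φ (k + 1) a = 0) := by
        intro a ha
        simp only [Finset.mem_insert, Finset.mem_filter, Finset.mem_univ, true_and] at ha ⊢
        rw [hz (k + 1) (by omega)]
        rcases ha with rfl | rfl | ha
        · omega
        · omega
        · rw [hz k (by omega)] at ha; omega
      have hcard := Finset.card_le_card hsub
      rw [c1, Finset.card_insert_of_notMem, Finset.card_insert_of_notMem, c0] at hcard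
      · omega
      · simp only [Finset.mem_filter, Finset.mem_univ, true_and]
        rw [hz k (by omega)]; omega
      · simp only [Finset.mem_insert, Finset.mem_filter, Finset.mem_univ, true_and]
        rw [hz k (by omega)]
        rintro (h | h)
        · exact hne h
        · omega
    let σ0 : Fin n → Fin n := fun i => ⟨ht i - 1, by have := hpos i; have := hle i; omega⟩
    have hσ0 : Function.Injective σ0 := by
      intro i i' h
      apply hinj
      have h' : ht i - 1 = ht i' - 1 := by simpa [σ0] using h
      have := hpos i; have := hpos i'; omega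
    let σ : Equiv.Perm (Fin n) := Equiv.ofBijective σ0 (Finite.injective_iff_bijective.1 hσ0)
    refine ⟨σ, fun i => (φ 0 i : ℝ), ?_, ?_⟩
    · intro i
      have hgen : ∀ s : SignType, s ≠ 0 → ((s : ℝ) = 1 ∨ (s : ℝ) = -1) := by
        intro s hs
        cases s
        · exact absurd rfl hs
        · right; simp
        · left; simp
      exact hgen _ (h0 i i.pos)
    · funext i
      have hs : ((σ i : Fin n) : ℕ) = ht i - 1 := rfl
      have hp := hpos i
      have hcast : (((σ i : Fin n) : ℕ) : ℝ) + 1 = (ht i : ℝ) := by
        rw [hs]; have : ht i = (ht i - 1) + 1 := by omega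
        conv_rhs => rw [this]
        push_cast; ring
      rw [hcast]
      simp only [vert]
      have hterm : ∀ j ∈ range n, ((φ j i : SignType) : ℝ) =
          if φ j i ≠ 0 then ((φ 0 i : SignType) : ℝ) else 0 := by
        intro j hj
        rw [Finset.mem_range] at hj
        by_cases h : φ j i = 0
        · rw [if_neg (by simpa using h), h]; simp
        · rw [if_pos h, hφ.mono (Nat.zero_le j) hj.le i h]
      rw [Finset.sum_congr rfl hterm, ← Finset.sum_filter, Finset.sum_const, nsmul_eq_mul, mul_comm]

/-- Points of a convex hull on a supporting hyperplane. -/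
lemma hull_face {E : Type*} [AddCommGroup E] [Module ℝ E] (S : Set E) (l : E →ₗ[ℝ] ℝ) (c : ℝ)
    (h : ∀ x ∈ S, l x ≤ c) {x : E} (hx : x ∈ convexHull ℝ S) (hc : l x = c) :
    x ∈ convexHull ℝ {y ∈ S | l y = c} := by
  let A : Set E := convexHull ℝ {y ∈ S | l y = c}
  have hAl : ∀ y ∈ A, l y = c := by
    intro y hy
    have : A ⊆ {y | l y = c} := convexHull_min (fun y hy => hy.2) (by
      have := convex_hyperplane (r := c) (f := l) l.isLinear
      exact this)
    exact this hy
  let T : Set E := A ∪ {y | l y < c}
  have hT : Convex ℝ T := by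
    intro y hy z hz a b ha hb hab
    have hyc : l y ≤ c := by
      rcases hy with hy | hy
      · exact (hAl y hy).le
      · exact le_of_lt hy
    have hzc : l z ≤ c := by
      rcases hz with hz | hz
      · exact (hAl z hz).le
      · exact le_of_lt hz
    have hval : l (a • y + b • z) = a * l y + b * l z := by simp
    rcases hy with hy | hy
    · rcases hz with hz | hz
      · exact Or.inl ((convex_convexHull ℝ _) hy hz ha hb hab)
      · rcases eq_or_lt_of_le hb with hb0 | hb0
        · left
          have ha1 : a = 1 := by linarith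
          rw [← hb0, ha1]; simpa using hy
        · right
          show l (a • y + b • z) < c
          rw [hval]
          have hz' : l z < c := hz
          have h1 := mul_le_mul_of_nonneg_left hyc ha
          have h2 := mul_lt_mul_of_pos_left hz' hb0
          have h3 : a * c + b * c = c := by rw [← add_mul, hab, one_mul]
          linarith
    · rcases eq_or_lt_of_le ha with ha0 | ha0
      · have hb1 : b = 1 := by linarith
        rw [← ha0, hb1]; simpa using hz
      · right
        show l (a • y + b • z) < c
        rw [hval]
        have hy' : l y < c := hy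
        have h1 := mul_le_mul_of_nonneg_left hzc hb
        have h2 := mul_lt_mul_of_pos_left hy' ha0
        have h3 : a * c + b * c = c := by rw [← add_mul, hab, one_mul]
        linarith
  have hST : S ⊆ T := by
    intro y hy
    rcases (h y hy).lt_or_eq with h1 | h1
    · exact Or.inr h1
    · exact Or.inl (subset_convexHull ℝ _ ⟨hy, h1⟩)
  have hxT : x ∈ T := convexHull_min hST hT hx
  rcases hxT with h1 | h1
  · exact h1
  · exact absurd hc (ne_of_lt h1)

lemma hull_le {E : Type*} [AddCommGroup E] [Module ℝ E] (S : Set E) (l : E →ₗ[ℝ] ℝ) (c : ℝ)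
    (h : ∀ x ∈ S, l x ≤ c) {x : E} (hx : x ∈ convexHull ℝ S) : l x ≤ c := by
  have : convexHull ℝ S ⊆ {y | l y ≤ c} := convexHull_min h (convex_halfSpace_le l.isLinear c)
  exact this hx

lemma ell_le {n : ℕ} (s : Fin n → SignType) {x : Fin n → ℝ} (hx : x ∈ typeBPermutahedron n) :
    ell s x ≤ cc s := by
  refine hull_le (signedPermVectors n) (ell s).toLinearMap (cc s) ?_ hx
  intro y hy
  obtain ⟨φ, hφ, rfl⟩ := (signed_iff y).1 hy
  exact ell_vert_le s hφ

lemma vert_mem {n : ℕ} {φ : ℕ → Fin n → SignType} (h : GF n φ) : vert φ ∈ typeBPermutahedron n :=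
  subset_convexHull ℝ _ ((signed_iff _).2 ⟨φ, h, rfl⟩)

/-- Adjacent flags give an edge. -/
lemma edge_exposed {n j : ℕ} (hj : j < n) {φ χ : ℕ → Fin n → SignType} (h1 : GF n φ) (h2 : GF n χ)
    (e12 : ∀ k < n, k ≠ j → χ k = φ k) (hne : χ j ≠ φ j) :
    IsExposed ℝ (typeBPermutahedron n) (segment ℝ (vert φ) (vert χ)) := by
  intro _
  let L : (Fin n → ℝ) →L[ℝ] ℝ := ∑ k ∈ (range n).erase j, ell (φ k)
  let c : ℝ := ∑ k ∈ (range n).erase j, cc (φ k)
  have hL : ∀ x, L x = ∑ k ∈ (range n).erase j, ell (φ k) x := by
    intro x; simp [L, ContinuousLinearMap.sum_apply]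
  have hle : ∀ x ∈ typeBPermutahedron n, L x ≤ c := by
    intro x hx
    rw [hL]
    exact Finset.sum_le_sum (fun k _ => ell_le _ hx)
  have hLφ : L (vert φ) = c := by
    rw [hL]
    refine Finset.sum_congr rfl (fun k hk => ?_)
    rw [Finset.mem_erase, Finset.mem_range] at hk
    exact (ell_vert_eq _ (by rw [h1.zn hk.2.le]; exact hk.2) h1).2 (by rw [h1.zn hk.2.le])
  have hLχ : L (vert χ) = c := by
    rw [hL]
    refine Finset.sum_congr rfl (fun k hk => ?_)
    rw [Finset.mem_erase, Finset.mem_range] at hk
    refine (ell_vert_eq _ (by rw [h1.zn hk.2.le]; exact hk.2) h2).2 ?_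
    rw [h1.zn hk.2.le]; exact e12 k hk.2 hk.1
  refine ⟨L, ?_⟩
  ext x
  constructor
  · intro hx
    have hx2 : x ∈ typeBPermutahedron n :=
      (convex_convexHull ℝ _).segment_subset (vert_mem h1) (vert_mem h2) hx
    refine ⟨hx2, fun y hy => ?_⟩
    have : L x = c := by
      obtain ⟨a, b, ha, hb, hab, rfl⟩ := hx
      rw [map_add, map_smul, map_smul, hLφ, hLχ, smul_eq_mul, smul_eq_mul, ← add_mul, hab, one_mul]
    rw [this]; exact hle y hy
  · rintro ⟨hx, hmax⟩
    have hLx : L x = c := le_antisymm (hle x hx) (by rw [← hLφ]; exact hmax _ (vert_mem h1))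
    have h := hull_face (signedPermVectors n) L.toLinearMap c
      (fun y hy => hle y (subset_convexHull ℝ _ hy)) hx hLx
    have hsub : {y ∈ signedPermVectors n | L.toLinearMap y = c} ⊆ {vert φ, vert χ} := by
      rintro y ⟨hy, hyc⟩
      obtain ⟨ψ, hψ, rfl⟩ := (signed_iff y).1 hy
      have hyc' : L (vert ψ) = c := hyc
      rw [hL] at hyc'
      have hall := (Finset.sum_eq_sum_iff_of_le (fun k _ => ell_vert_le (φ k) hψ)).1 hyc'
      have e13 : ∀ k < n, k ≠ j → ψ k = φ k := by
        intro k hk hkj
        have := hall k (by rw [Finset.mem_erase, Finset.mem_range]; exact ⟨hkj, hk⟩)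
        rw [ell_vert_eq _ (by rw [h1.zn hk.le]; exact hk) hψ, h1.zn hk.le] at this
        exact this
      have := two_options hj h1 h2 hψ e12 e13 hne
      rcases this with h | h
      · left
        funext i
        simp only [vert]
        refine Finset.sum_congr rfl (fun k hk => ?_)
        rw [Finset.mem_range] at hk
        by_cases hkj : k = j
        · rw [hkj, h]
        · rw [e13 k hk hkj]
      · right
        show vert ψ = vert χ
        funext i
        simp only [vert]
        refine Finset.sum_congr rfl (fun k hk => ?_)
        rw [Finset.mem_range] at hk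
        by_cases hkj : k = j
        · rw [hkj, h]
        · rw [e13 k hk hkj, e12 k hk hkj]
    have := convexHull_mono hsub h
    rwa [convexHull_pair] at this

end Pool.Agent.W5h5.BG
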