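import Pool.Agent.W5h5.BG2

/-! Classification of the facets of the type B permutahedron. -/

set_option linter.all false

open Finset

namespace Pool.Agent.W5h5.BG

lemma signed_perm_form {n : ℕ} {x : Fin n → ℝ} (hx : x ∈ signedPermVectors n) :
    ∃ (σ : Equiv.Perm (Fin n)) (ε : Fin n → SignType), (∀ i, ε i ≠ 0) ∧
      x = vert (flagOf σ ε) := by
  obtain ⟨σ, ε, hε, rfl⟩ := hx
  refine ⟨σ, fun i => if ε i = 1 then 1 else -1, ?_, ?_⟩
  · intro i
    by_cases h : ε i = 1
    · simp only [h, if_true]; decide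
    · simp only [h, if_false]; decide
  · funext i
    rw [vert_flagOf]
    congr 1
    rcases hε i with h | h
    · simp [h]
    · rw [h]; norm_num

lemma lin_form {n : ℕ} (L : (Fin n → ℝ) →L[ℝ] ℝ) :
    ∃ a : Fin n → ℝ, ∀ x, L x = ∑ i, a i * x i := by
  refine ⟨fun i => L (fun j => if i = j then 1 else 0), fun x => ?_⟩
  have := L.toLinearMap.pi_apply_eq_sum_univ x
  calc L x = _ := this
    _ = _ := Finset.sum_congr rfl (fun i _ => by simp [mul_comm])

lemma sgn_sq (s : SignType) (hs : s ≠ 0) : (s : ℝ) * (s : ℝ) = 1 := by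
  cases s
  · exact absurd rfl hs
  · simp
  · simp

lemma b_nonneg {n : ℕ} (a : Fin n → ℝ) (σ : Equiv.Perm (Fin n)) (ε : Fin n → SignType)
    (hε : ∀ i, ε i ≠ 0) (hmax : ∀ (σ' : Equiv.Perm (Fin n)) (ε' : Fin n → SignType),
      (∀ i, ε' i ≠ 0) → ∑ i, a i * ((ε' i : ℝ) * (((σ' i : ℕ) : ℝ) + 1)) ≤
        ∑ i, a i * ((ε i : ℝ) * (((σ i : ℕ) : ℝ) + 1))) (i : Fin n) :
    0 ≤ a i * (ε i : ℝ) := by
  have h := hmax σ (Function.update ε i (-ε i)) (by
    intro k
    by_cases hk : k = i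
    · subst hk
      rw [Function.update_self]
      have := hε k
      revert this
      cases ε k <;> decide
    · rw [Function.update_of_ne hk]; exact hε k)
  rw [← Finset.add_sum_erase _ _ (Finset.mem_univ i), ← Finset.add_sum_erase _ _ (Finset.mem_univ i)] at h
  have e : ∑ k ∈ univ.erase i, a k * (((Function.update ε i (-ε i)) k : ℝ) * (((σ k : ℕ) : ℝ) + 1)) =
      ∑ k ∈ univ.erase i, a k * ((ε k : ℝ) * (((σ k : ℕ) : ℝ) + 1)) := by
    refine Finset.sum_congr rfl (fun k hk => ?_)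
    rw [Function.update_of_ne (Finset.ne_of_mem_erase hk)]
  rw [e, Function.update_self] at h
  have hneg : ((-ε i : SignType) : ℝ) = -(ε i : ℝ) := by
    cases ε i <;> simp
  rw [hneg] at h
  have hpos : (0 : ℝ) < ((σ i : ℕ) : ℝ) + 1 := by positivity
  have h2 : 0 ≤ (a i * (ε i : ℝ)) * (((σ i : ℕ) : ℝ) + 1) := by nlinarith
  exact nonneg_of_mul_nonneg_left h2 hpos

lemma b_mono {n : ℕ} (a : Fin n → ℝ) (σ : Equiv.Perm (Fin n)) (ε : Fin n → SignType)
    (hε : ∀ i, ε i ≠ 0) (hmax : ∀ (σ' : Equiv.Perm (Fin n)) (ε' : Fin n → SignType),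
      (∀ i, ε' i ≠ 0) → ∑ i, a i * ((ε' i : ℝ) * (((σ' i : ℕ) : ℝ) + 1)) ≤
        ∑ i, a i * ((ε i : ℝ) * (((σ i : ℕ) : ℝ) + 1))) (i i' : Fin n)
    (hlt : (σ i : ℕ) < (σ i' : ℕ)) :
    a i * (ε i : ℝ) ≤ a i' * (ε i' : ℝ) := by
  have hne : i' ≠ i := by rintro rfl; exact lt_irrefl _ hlt
  have h := hmax ((Equiv.swap i i').trans σ) ε hε
  have hmem : i' ∈ univ.erase i := Finset.mem_erase.2 ⟨hne, Finset.mem_univ _⟩
  rw [← Finset.add_sum_erase _ _ (Finset.mem_univ i), ← Finset.add_sum_erase _ _ hmem,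
    ← Finset.add_sum_erase univ (fun k => a k * ((ε k : ℝ) * (((σ k : ℕ) : ℝ) + 1)))
      (Finset.mem_univ i), ← Finset.add_sum_erase _ _ hmem] at h
  have e : ∑ k ∈ (univ.erase i).erase i', a k * ((ε k : ℝ) *
      (((((Equiv.swap i i').trans σ) k : ℕ) : ℝ) + 1)) =
      ∑ k ∈ (univ.erase i).erase i', a k * ((ε k : ℝ) * (((σ k : ℕ) : ℝ) + 1)) := by
    refine Finset.sum_congr rfl (fun k hk => ?_)
    rw [Finset.mem_erase, Finset.mem_erase] at hk
    rw [Equiv.trans_apply, Equiv.swap_apply_of_ne_of_ne hk.2.1 hk.1]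
  rw [e] at h
  simp only [Equiv.trans_apply, Equiv.swap_apply_left, Equiv.swap_apply_right] at h
  have hd : (0 : ℝ) < ((σ i' : ℕ) : ℝ) - ((σ i : ℕ) : ℝ) := by
    have : ((σ i : ℕ) : ℝ) < ((σ i' : ℕ) : ℝ) := by exact_mod_cast hlt
    linarith
  have h2 : 0 ≤ (a i' * (ε i' : ℝ) - a i * (ε i : ℝ)) * (((σ i' : ℕ) : ℝ) - ((σ i : ℕ) : ℝ)) := by
    nlinarith
  have := nonneg_of_mul_nonneg_left h2 hd
  linarith

lemma facet_form {n : ℕ} (L : (Fin n → ℝ) →L[ℝ] ℝ) (hL : L ≠ 0) (F : Set (Fin n → ℝ))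
    (hF : F = {x ∈ typeBPermutahedron n | ∀ y ∈ typeBPermutahedron n, L y ≤ L x})
    (hne : F.Nonempty) :
    ∃ s : Fin n → SignType, zn s < n ∧ ∀ x ∈ F, ell s x = cc s := by
  obtain ⟨x0, hx0⟩ := hne
  rw [hF] at hx0
  obtain ⟨hx0P, hx0m⟩ := hx0
  -- a maximizing vertex
  have hv := hull_face (signedPermVectors n) L.toLinearMap (L x0)
    (fun y hy => hx0m y (subset_convexHull ℝ _ hy)) hx0P rfl
  have hvne : ({y ∈ signedPermVectors n | L.toLinearMap y = L x0}).Nonempty := by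
    rw [← convexHull_nonempty_iff (𝕜 := ℝ)]; exact ⟨_, hv⟩
  obtain ⟨v, hvS, hvL⟩ := hvne
  have hvL' : L v = L x0 := hvL
  obtain ⟨σ, ε, hε, rfl⟩ := signed_perm_form hvS
  obtain ⟨a, ha⟩ := lin_form L
  have hmax : ∀ (σ' : Equiv.Perm (Fin n)) (ε' : Fin n → SignType),
      (∀ i, ε' i ≠ 0) → ∑ i, a i * ((ε' i : ℝ) * (((σ' i : ℕ) : ℝ) + 1)) ≤
        ∑ i, a i * ((ε i : ℝ) * (((σ i : ℕ) : ℝ) + 1)) := by
    intro σ' ε' hε'
    have h1 := hx0m _ (vert_mem (flagOf_GF σ' ε' hε'))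
    rw [← hvL', ha, ha] at h1
    simpa only [vert_flagOf] using h1
  have hb0 := b_nonneg a σ ε hε hmax
  have hbm := b_mono a σ ε hε hmax
  -- layer decomposition
  let B : ℕ → ℝ := fun k => if h : k < n then a (σ.symm ⟨k, h⟩) * (ε (σ.symm ⟨k, h⟩) : ℝ) else 0
  let μ : ℕ → ℝ := fun k => if k = 0 then B 0 else B k - B (k - 1)
  have hBσ : ∀ i : Fin n, B (σ i : ℕ) = a i * (ε i : ℝ) := by
    intro i
    simp only [B]
    rw [dif_pos (σ i).2]
    simp
  have hμ0 : ∀ k < n, 0 ≤ μ k := by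
    intro k hk
    simp only [μ]
    split_ifs with h
    · subst h
      simp only [B]; rw [dif_pos hk]; exact hb0 _
    · simp only [B]
      rw [dif_pos hk, dif_pos (show k - 1 < n by omega)]
      have := hbm (σ.symm ⟨k - 1, by omega⟩) (σ.symm ⟨k, hk⟩) (by
        simp; omega)
      linarith
  have htel : ∀ m, ∑ k ∈ range (m + 1), μ k = B m := by
    intro m
    induction m with
    | zero => simp [μ]
    | succ m ih =>
      rw [Finset.sum_range_succ, ih]
      simp [μ]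
  have hdec : ∀ i : Fin n, ∑ k ∈ range n, μ k * ((flagOf σ ε k i : SignType) : ℝ) = a i := by
    intro i
    have h1 : ∀ k ∈ range n, μ k * ((flagOf σ ε k i : SignType) : ℝ) =
        if k < (σ i : ℕ) + 1 then μ k * (ε i : ℝ) else 0 := by
      intro k _
      simp only [flagOf]
      by_cases h : k ≤ (σ i : ℕ)
      · rw [if_pos h, if_pos (by omega)]
      · rw [if_neg h, if_neg (by omega)]; simp
    rw [Finset.sum_congr rfl h1, ← Finset.sum_filter]
    have h2 : (range n).filter (fun j => j < (σ i : ℕ) + 1) = range ((σ i : ℕ) + 1) := by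
      ext j; simp; have := (σ i).2; omega
    rw [h2, ← Finset.sum_mul, htel, hBσ, mul_assoc, sgn_sq _ (hε i), mul_one]
  have hLx : ∀ x, L x = ∑ k ∈ range n, μ k * ell (flagOf σ ε k) x := by
    intro x
    rw [ha]
    simp only [ell_apply, Finset.mul_sum]
    rw [Finset.sum_comm]
    refine Finset.sum_congr rfl (fun i _ => ?_)
    rw [← hdec i, Finset.sum_mul]
    refine Finset.sum_congr rfl (fun k _ => ?_)
    ring
  have hGF := flagOf_GF σ ε hε
  obtain ⟨k0, hk0, hμpos⟩ : ∃ k < n, 0 < μ k := by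
    by_contra hcon
    push Not at hcon
    apply hL
    ext x
    rw [hLx]
    refine Finset.sum_eq_zero (fun k hk => ?_)
    rw [Finset.mem_range] at hk
    rw [le_antisymm (hcon k hk) (hμ0 k hk), zero_mul]
  refine ⟨flagOf σ ε k0, by rw [hGF.zn hk0.le]; exact hk0, ?_⟩
  intro x hx
  rw [hF] at hx
  obtain ⟨hxP, hxm⟩ := hx
  have h1 : L x = L (vert (flagOf σ ε)) :=
    le_antisymm (by rw [hvL']; exact hx0m x hxP) (hxm _ (vert_mem hGF))
  have hvcc : ∀ k ∈ range n, ell (flagOf σ ε k) (vert (flagOf σ ε)) = cc (flagOf σ ε k) := by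
    intro k hk
    rw [Finset.mem_range] at hk
    exact (ell_vert_eq _ (by rw [hGF.zn hk.le]; exact hk) hGF).2 (by rw [hGF.zn hk.le])
  have h2 : L (vert (flagOf σ ε)) = ∑ k ∈ range n, μ k * cc (flagOf σ ε k) := by
    rw [hLx]; exact Finset.sum_congr rfl (fun k hk => by rw [hvcc k hk])
  rw [h2, hLx] at h1
  have h3 := (Finset.sum_eq_sum_iff_of_le (fun k hk =>
    mul_le_mul_of_nonneg_left (ell_le (flagOf σ ε k) hxP)
      (hμ0 k (Finset.mem_range.1 hk)))).1 h1 k0 (Finset.mem_range.2 hk0)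
  exact mul_left_cancel₀ hμpos.ne' h3

lemma span_top (n : ℕ) : vectorSpan ℝ (typeBPermutahedron n) = ⊤ := by
  rw [eq_top_iff, ← (Pi.basisFun ℝ (Fin n)).span_eq, Submodule.span_le]
  rintro _ ⟨i, rfl⟩
  rw [Pi.basisFun_apply]
  have h1 : vert (flagOf (Equiv.refl (Fin n)) (fun _ => 1)) ∈ typeBPermutahedron n :=
    vert_mem (flagOf_GF _ _ (fun _ => by decide))
  have h2 : vert (flagOf (Equiv.refl (Fin n)) (Function.update (fun _ => 1) i (-1))) ∈
      typeBPermutahedron n := by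
    refine vert_mem (flagOf_GF _ _ (fun k => ?_))
    by_cases hk : k = i
    · subst hk; rw [Function.update_self]; decide
    · rw [Function.update_of_ne hk]; decide
  have h3 := vsub_mem_vectorSpan ℝ h1 h2
  rw [vsub_eq_sub] at h3
  have h4 : Pi.single i (1 : ℝ) = ((2 : ℝ) * (((i : ℕ) : ℝ) + 1))⁻¹ •
      (vert (flagOf (Equiv.refl (Fin n)) (fun _ => 1)) -
        vert (flagOf (Equiv.refl (Fin n)) (Function.update (fun _ => 1) i (-1)))) := by
    funext k
    rw [Pi.smul_apply, Pi.sub_apply, vert_flagOf, vert_flagOf]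
    by_cases hk : k = i
    · subst hk
      rw [Pi.single_eq_same, Function.update_self]
      have : ((k : ℕ) : ℝ) + 1 ≠ 0 := by positivity
      simp
      field_simp
      ring
    · rw [Pi.single_eq_of_ne hk, Function.update_of_ne hk]
      simp
  show Pi.single i (1 : ℝ) ∈ vectorSpan ℝ (typeBPermutahedron n)
  rw [h4]
  exact Submodule.smul_mem _ _ h3

lemma facet_eq {n : ℕ} {F : Set (Fin n → ℝ)} (hF : IsFacet (typeBPermutahedron n) F) :
    ∃ s : Fin n → SignType, zn s < n ∧ F = {x ∈ typeBPermutahedron n | ell s x = cc s} := by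
  obtain ⟨hexp, hne, hdim⟩ := hF
  rw [span_top, finrank_top, Module.finrank_fin_fun] at hdim
  obtain ⟨L, hL⟩ := hexp hne
  have hL0 : L ≠ 0 := by
    rintro rfl
    have : F = typeBPermutahedron n := by
      rw [hL]; ext x; simp
    rw [this, span_top, finrank_top, Module.finrank_fin_fun] at hdim
    omega
  obtain ⟨s, hs, hFs⟩ := facet_form L hL0 F hL hne
  refine ⟨s, hs, ?_⟩
  -- the functional of the face vanishes on the span
  have hell0 : (ell s).toLinearMap ≠ 0 := by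
    intro h0
    obtain ⟨i, hi⟩ : ∃ i, s i ≠ 0 := by
      by_contra hcon
      push Not at hcon
      have : zn s = n := by
        unfold zn
        rw [Finset.filter_true_of_mem (fun i _ => hcon i), Finset.card_univ, Fintype.card_fin]
      omega
    have h1 : ell s (Pi.single i 1) = 0 := by
      have := LinearMap.congr_fun h0 (Pi.single i 1)
      exact this
    rw [ell_apply] at h1
    simp [Pi.single_apply] at h1
    have h2 := sgn_sq (s i) hi
    rw [h1] at h2
    simp at h2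
  have hker : Module.finrank ℝ (LinearMap.ker (ell s).toLinearMap) + 1 = n := by
    have := Module.Dual.finrank_ker_add_one_of_ne_zero (f := (ell s).toLinearMap) hell0
    rwa [Module.finrank_fin_fun] at this
  have hle : vectorSpan ℝ F ≤ LinearMap.ker (ell s).toLinearMap := by
    rw [vectorSpan_def, Submodule.span_le]
    rintro _ ⟨x, hx, y, hy, rfl⟩
    show (ell s).toLinearMap (x -ᵥ y) = 0
    rw [vsub_eq_sub, map_sub]
    show ell s x - ell s y = 0
    rw [hFs x hx, hFs y hy, sub_self]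
  have heq : vectorSpan ℝ F = LinearMap.ker (ell s).toLinearMap :=
    Submodule.eq_of_le_of_finrank_eq hle (by omega)
  have hleL : vectorSpan ℝ F ≤ LinearMap.ker L.toLinearMap := by
    rw [vectorSpan_def, Submodule.span_le]
    rintro _ ⟨x, hx, y, hy, rfl⟩
    show L.toLinearMap (x -ᵥ y) = 0
    rw [vsub_eq_sub, map_sub]
    show L x - L y = 0
    rw [hL] at hx hy
    have h1 := hx.2 y hy.1
    have h2 := hy.2 x hx.1
    linarith
  ext x
  constructor
  · intro hx
    refine ⟨?_, hFs x hx⟩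
    rw [hL] at hx; exact hx.1
  · rintro ⟨hxP, hxs⟩
    obtain ⟨y, hy⟩ := hne
    have h1 : x - y ∈ LinearMap.ker (ell s).toLinearMap := by
      show (ell s).toLinearMap (x - y) = 0
      rw [map_sub]
      show ell s x - ell s y = 0
      rw [hxs, hFs y hy, sub_self]
    rw [← heq] at h1
    have h2 : L.toLinearMap (x - y) = 0 := hleL h1
    rw [map_sub] at h2
    have h3 : L x = L y := by
      have : L x - L y = 0 := h2
      linarith
    rw [hL] at hy ⊢
    refine ⟨hxP, fun z hz => ?_⟩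
    rw [h3]; exact hy.2 z hz

end Pool.Agent.W5h5.BG
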