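import Pool.Agent.W5h5.BP9

/-! Dimensions two and three. -/

set_option linter.all false

namespace Pool.Agent.W5h5.BP

def c2 : List (List Face) := [
    [[p,p],[p,z],[z,z]],
    [[p,p],[z,p],[z,z]],
    [[m,p],[z,p],[z,z]],
    [[m,p],[m,z],[z,z]],
    [[m,m],[m,z],[z,z]],
    [[m,m],[z,m],[z,z]],
    [[p,m],[z,m],[z,z]],
    [[p,m],[p,z],[z,z]]]

def c3 : List (List Face) := [
    [[p,p,p],[p,z,p],[z,z,p],[z,z,z]],
    [[p,p,p],[z,p,p],[z,z,p],[z,z,z]],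
    [[p,p,p],[z,p,p],[z,p,z],[z,z,z]],
    [[m,p,p],[z,p,p],[z,p,z],[z,z,z]],
    [[m,p,p],[m,p,z],[z,p,z],[z,z,z]],
    [[m,p,p],[m,p,z],[m,z,z],[z,z,z]],
    [[m,p,p],[m,z,p],[m,z,z],[z,z,z]],
    [[m,m,p],[m,z,p],[m,z,z],[z,z,z]],
    [[m,m,p],[m,m,z],[m,z,z],[z,z,z]],
    [[m,m,p],[m,m,z],[z,m,z],[z,z,z]],
    [[m,m,p],[z,m,p],[z,m,z],[z,z,z]],
    [[p,m,p],[z,m,p],[z,m,z],[z,z,z]],
    [[p,m,p],[p,m,z],[z,m,z],[z,z,z]],
    [[p,m,m],[p,m,z],[z,m,z],[z,z,z]],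
    [[p,m,m],[z,m,m],[z,m,z],[z,z,z]],
    [[p,m,m],[z,m,m],[z,z,m],[z,z,z]],
    [[m,m,m],[z,m,m],[z,z,m],[z,z,z]],
    [[m,m,m],[m,z,m],[z,z,m],[z,z,z]],
    [[m,p,m],[m,z,m],[z,z,m],[z,z,z]],
    [[m,p,m],[z,p,m],[z,z,m],[z,z,z]],
    [[p,p,m],[z,p,m],[z,z,m],[z,z,z]],
    [[p,p,m],[p,z,m],[z,z,m],[z,z,z]],
    [[p,p,m],[p,z,m],[p,z,z],[z,z,z]],
    [[p,p,m],[p,p,z],[p,z,z],[z,z,z]],
    [[p,p,p],[p,p,z],[p,z,z],[z,z,z]],
    [[p,p,p],[p,z,p],[p,z,z],[z,z,z]]]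

/-- decidable form of the conditions -/
def chkCyc (n : ℕ) (c : List (List Face)) : Prop :=
  (∀ t, t < c.length → cFlag n (c.getD t [])) ∧
  (∀ t, t < c.length → cStep n ((c.getD t []), n) ((c.getD ((t + 1) % c.length) []), n)) ∧
  (∀ t, t < c.length → ∀ s, s < t → ∃ k, k < n ∧ (c.getD s []).getD k [] ≠ (c.getD t []).getD k [])

instance (n : ℕ) (c : List (List Face)) : Decidable (chkCyc n c) := by
  unfold chkCyc; infer_instance

lemma c2_chk : chkCyc 2 c2 := by decide +kernel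
lemma c3_chk : chkCyc 3 c3 := by decide +kernel

def oneK (c : List (List Face)) (K : Face) : Prop := ∃ s, s < c.length ∧
      (c.getD s []).getD (dim K) [] = K ∧ ∀ t, t < c.length →
      (c.getD ((t + 1) % c.length) []).getD (dim K) [] = K →
      (c.getD t []).getD (dim K) [] ≠ K → (t + 1) % c.length = s

instance (c : List (List Face)) (K : Face) : Decidable (oneK c K) := by
  unfold oneK; infer_instance

lemma c2_one : ∀ a b : SignType, dim [a, b] < 2 → oneK c2 [a, b] := by decide +kernel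

lemma c3_one : ∀ a b c : SignType, dim [a, b, c] < 3 → oneK c3 [a, b, c] := by decide +kernel

lemma cyc_of_chk {n : ℕ} {c : List (List Face)} (h3 : 3 ≤ c.length) (h : chkCyc n c)
    (h1 : ∀ K : Face, K.length = n → dim K < n → oneK c K) :
    Cyc n c.length (fun t => cf (c.getD t [])) := by
  refine ⟨h3, fun t ht => (h.1 t ht).isFlag, ?_, ?_, h1⟩
  · intro t ht
    have := (h.2.1 t ht).step
    rcases this with ⟨j, _, _, h3⟩ | ⟨_, h2⟩
    · exact ⟨j, h3⟩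
    · simp only [mk] at h2; omega
  · intro s t hst ht
    exact h.2.2 t ht s hst

theorem exists_cyc (n : ℕ) (hn : 2 ≤ n) : ∃ M g, Cyc n M g := by
  rcases Nat.lt_or_ge n 4 with h | h
  · rcases (show n = 2 ∨ n = 3 by omega) with rfl | rfl
    · refine ⟨_, _, cyc_of_chk (c := c2) (by decide) c2_chk ?_⟩
      intro K hK
      match K, hK with
      | [a, b], _ => exact c2_one a b
    · refine ⟨_, _, cyc_of_chk (c := c3) (by decide) c3_chk ?_⟩
      intro K hK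
      match K, hK with
      | [a, b, c], _ => exact c3_one a b c
  · obtain ⟨k, rfl⟩ : ∃ k, n = k + 1 := ⟨n - 1, by omega⟩
    exact cyc_ge_four k (by omega)

end Pool.Agent.W5h5.BP
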