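import Pool.Agent.W5h5.BG3
import Pool.Agent.W5h5.BP10

/-! Final assembly: the type B permutahedra are facet-Hamiltonian. -/

set_option linter.all false

open Finset

namespace Pool.Agent.W5h5.BG

open Pool.Agent.W5h5.BP

/-- flag of lists to flag of functions -/
def toφ (n : ℕ) (f : Flg) : ℕ → Fin n → SignType := fun j i => (f j).getD i 0

lemma count_getD (F : Face) (n : ℕ) (h : F.length = n) :
    (univ.filter (fun i : Fin n => F.getD i 0 = 0)).card = dim F := by
  have key : ∀ (F : Face), ∑ i : Fin F.length, (if F.getD i 0 = 0 then 1 else 0) = dim F := by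
    intro F
    induction F with
    | nil => rfl
    | cons s F ih =>
      rw [List.length_cons, Fin.sum_univ_succ]
      simp only [Fin.val_zero, Fin.val_succ, List.getD_cons_zero, List.getD_cons_succ]
      rw [ih]
      by_cases hs : s = 0
      · subst hs; rw [if_pos rfl, dim_zero_cons]; omega
      · rw [if_neg hs, dim_cons_ne hs]; omega
  subst h
  rw [Finset.card_filter]
  exact key F

lemma leq_getD (F G : Face) (h : leq F G) (i : ℕ) : G.getD i 0 = 0 ∨ F.getD i 0 = G.getD i 0 := by
  induction F generalizing G i with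
  | nil =>
    match G, h with
    | [], _ => left; simp
  | cons s F ih =>
    match G, h with
    | t :: G, h =>
      match i with
      | 0 => exact h.1
      | i + 1 => exact ih G h.2 i

lemma toφ_GF {n : ℕ} {f : Flg} (h : IsFlag n f) : GF n (toφ n f) :=
  ⟨fun j hj => by
    have := count_getD (f j) n (h.len j hj)
    rw [h.dm j hj] at this
    exact this,
   fun j hj i => leq_getD _ _ (h.le j hj) i⟩

lemma list_ext {n : ℕ} {F G : Face} (hF : F.length = n) (hG : G.length = n)
    (h : ∀ i : Fin n, F.getD i 0 = G.getD i 0) : F = G := by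
  apply List.ext_getElem (by rw [hF, hG])
  intro i h1 h2
  have := h ⟨i, by omega⟩
  simpa [List.getD_eq_getElem?_getD, h1, h2] using this

lemma toφ_ne {n j : ℕ} {f g : Flg} (hf : IsFlag n f) (hg : IsFlag n g) (hj : j ≤ n)
    (h : g j ≠ f j) : toφ n g j ≠ toφ n f j := by
  intro he
  apply h
  exact list_ext (hg.len j hj) (hf.len j hj) (fun i => congrFun he i)

lemma edge_of_flip {n j : ℕ} {f g : Flg} (hf : IsFlag n f) (hg : IsFlag n g) (h : Flip n f g j) :
    (skeleton (typeBPermutahedron n)).Adj (vert (toφ n f)) (vert (toφ n g)) := by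
  have h1 := toφ_GF hf
  have h2 := toφ_GF hg
  have hne := toφ_ne hf hg h.1.le h.2.2
  refine ⟨fun he => hne (vert_inj h1 h2 he h.1).symm, ?_⟩
  refine edge_exposed h.1 h1 h2 (fun k hk hkj => ?_) hne
  funext i
  simp only [toφ]
  rw [h.2.1 k hkj]

lemma adj_iff {m : ℕ} (u v : Fin (m + 3)) : (SimpleGraph.cycleGraph (m + 3)).Adj u v ↔
    ((v : ℕ) = ((u : ℕ) + 1) % (m + 3) ∨ (u : ℕ) = ((v : ℕ) + 1) % (m + 3)) := by
  have key : ∀ a b : Fin (m + 3), b - a = 1 ↔ (b : ℕ) = ((a : ℕ) + 1) % (m + 3) := by
    intro a b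
    rw [sub_eq_iff_eq_add', Fin.ext_iff, Fin.val_add]
    simp
  show (u - v = 1 ∨ v - u = 1) ↔ _
  rw [key, key, or_comm]

theorem facet_hamiltonian (n : ℕ) (hn : 2 ≤ n) : FacetHamiltonian (typeBPermutahedron n) := by
  obtain ⟨M, g, hc⟩ := exists_cyc n hn
  obtain ⟨m, rfl⟩ : ∃ m, M = m + 3 := ⟨M - 3, by have := hc.hM; omega⟩
  have hflag : ∀ t : Fin (m + 3), IsFlag n (g t) := fun t => hc.flag t t.2
  let c0 : Fin (m + 3) → (Fin n → ℝ) := fun t => vert (toφ n (g t))
  have hstep : ∀ u v : Fin (m + 3), (v : ℕ) = ((u : ℕ) + 1) % (m + 3) →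
      (skeleton (typeBPermutahedron n)).Adj (c0 u) (c0 v) := by
    intro u v huv
    obtain ⟨j, hj⟩ := hc.flip u u.2
    rw [← huv] at hj
    exact edge_of_flip (hflag u) (hflag v) hj
  let c : SimpleGraph.cycleGraph (m + 3) →g skeleton (typeBPermutahedron n) :=
    { toFun := c0
      map_rel' := by
        intro u v huv
        rcases (adj_iff u v).1 huv with h | h
        · exact hstep u v h
        · exact (hstep v u h).symm }
  refine ⟨m + 3, by omega, c, ?_, ?_⟩
  · -- injectivity
    have key : ∀ u v : Fin (m + 3), (u : ℕ) < v → c0 u ≠ c0 v := by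
      intro u v huv he
      obtain ⟨k, hk, hne⟩ := hc.inj u v huv v.2
      have h1 := vert_inj (toφ_GF (hflag u)) (toφ_GF (hflag v)) he hk
      exact toφ_ne (hflag v) (hflag u) hk.le hne h1
    intro u v huv
    by_contra hne
    rcases lt_or_gt_of_ne (fun h : (u : ℕ) = v => hne (Fin.ext h)) with h | h
    · exact key u v h huv
    · exact key v u h huv.symm
  · intro F hF
    obtain ⟨s, hs, rfl⟩ := facet_eq hF
    have hKl : (List.ofFn s).length = n := List.length_ofFn
    have hget : ∀ i : Fin n, (List.ofFn s).getD i 0 = s i := by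
      intro i
      simp [List.getD_eq_getElem?_getD]
    have hKd : dim (List.ofFn s) = zn s := by
      rw [← count_getD _ n hKl]
      unfold zn
      congr 1
      apply Finset.filter_congr
      intro i _
      rw [hget]
    -- membership in the facet
    have hmem : ∀ t : Fin (m + 3), t ∈ (c ⁻¹' {x ∈ typeBPermutahedron n | ell s x = cc s}) ↔
        g t (dim (List.ofFn s)) = List.ofFn s := by
      intro t
      have h1 : t ∈ (c ⁻¹' {x ∈ typeBPermutahedron n | ell s x = cc s}) ↔
          ell s (vert (toφ n (g t))) = cc s := by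
        constructor
        · intro h; exact h.2
        · intro h; exact ⟨vert_mem (toφ_GF (hflag t)), h⟩
      rw [h1, ell_vert_eq s hs (toφ_GF (hflag t)), hKd]
      constructor
      · intro h
        refine list_ext ((hflag t).len _ hs.le) hKl (fun i => ?_)
        rw [hget]; exact congrFun h i
      · intro h
        funext i
        simp only [toφ]
        rw [h]; exact hget i
    obtain ⟨s0, hs0, hin0, hone⟩ := hc.one (List.ofFn s) hKl (by rw [hKd]; exact hs)
    rw [SimpleGraph.connected_iff_exists_forall_reachable]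
    refine ⟨⟨⟨s0, hs0⟩, (hmem ⟨s0, hs0⟩).2 hin0⟩, ?_⟩
    have hP : ∀ k, k < m + 3 → ∀ w : (c ⁻¹' {x ∈ typeBPermutahedron n | ell s x = cc s}),
        ((w : Fin (m + 3)) : ℕ) = (s0 + k) % (m + 3) →
        ((SimpleGraph.cycleGraph (m + 3)).induce
          (c ⁻¹' {x ∈ typeBPermutahedron n | ell s x = cc s})).Reachable
          ⟨⟨s0, hs0⟩, (hmem ⟨s0, hs0⟩).2 hin0⟩ w := by
      intro k
      induction k with
      | zero =>
        intro _ w hw
        have hw2 : ((w : Fin (m + 3)) : ℕ) = s0 :=
          hw.trans (by rw [Nat.add_zero, Nat.mod_eq_of_lt hs0])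
        have : w = ⟨⟨s0, hs0⟩, (hmem ⟨s0, hs0⟩).2 hin0⟩ := Subtype.ext (Fin.ext hw2)
        rw [this]
      | succ k ih =>
        intro hk w hw
        have ht : (s0 + k) % (m + 3) < m + 3 := Nat.mod_lt _ (by omega)
        have hw' : ((w : Fin (m + 3)) : ℕ) = ((s0 + k) % (m + 3) + 1) % (m + 3) := by
          rw [hw, Nat.mod_add_mod, Nat.add_assoc]
        by_cases hu : (⟨(s0 + k) % (m + 3), ht⟩ : Fin (m + 3)) ∈
            (c ⁻¹' {x ∈ typeBPermutahedron n | ell s x = cc s})
        · have h1 := ih (by omega) ⟨⟨(s0 + k) % (m + 3), ht⟩, hu⟩ rfl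
          refine h1.trans (SimpleGraph.Adj.reachable ?_)
          rw [SimpleGraph.comap_adj]
          exact (adj_iff _ _).2 (Or.inl hw')
        · exfalso
          have hwin := (hmem w).1 w.2
          rw [hmem] at hu
          have := hone ((s0 + k) % (m + 3)) ht (by rw [← hw']; exact hwin) hu
          rw [← hw', hw] at this
          rcases Nat.lt_or_ge (s0 + (k + 1)) (m + 3) with h | h
          · rw [Nat.mod_eq_of_lt h] at this; omega
          · rw [Nat.mod_eq_sub_mod h, Nat.mod_eq_of_lt (by omega)] at this; omega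
    intro w
    refine hP (((w : Fin (m + 3)) + (m + 3) - s0) % (m + 3)) (Nat.mod_lt _ (by omega)) w ?_
    rw [Nat.add_mod_mod]
    have h1 : s0 + (((w : Fin (m + 3)) : ℕ) + (m + 3) - s0) = ((w : Fin (m + 3)) : ℕ) + (m + 3) := by
      omega
    rw [h1, Nat.add_mod_right, Nat.mod_eq_of_lt (w : Fin (m + 3)).2]

end Pool.Agent.W5h5.BG
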