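import Mathlib

/-!
Combinatorial part of the facet-Hamiltonicity of the type B permutahedra:
faces of the cube as sign words, flags, states and walks.
-/

namespace Pool.Agent.W5h5.BP

/-- A face of the `n`-cube: a word of length `n` over `{-1, 0, 1}`, `0` marking a free coordinate. -/
abbrev Face := List SignType

/-- A flag: level `j` holds a face of dimension `j`. -/
abbrev Flg := ℕ → Face

/-- A state: a flag together with a level. -/
abbrev St := Flg × ℕ

/-- Dimension of a face. -/
def dim (F : Face) : ℕ := F.count 0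

/-- Inclusion of faces. -/
def leq : Face → Face → Prop
  | [], [] => True
  | f :: F, g :: G => (g = 0 ∨ f = g) ∧ leq F G
  | _, _ => False

instance decLeq : ∀ F G, Decidable (leq F G)
  | [], [] => isTrue trivial
  | f :: F, g :: G =>
      haveI := decLeq F G
      inferInstanceAs (Decidable ((g = 0 ∨ f = g) ∧ leq F G))
  | [], _ :: _ => isFalse (fun h => h)
  | _ :: _, [] => isFalse (fun h => h)

@[simp] lemma leq_cons (s t : SignType) (F G : Face) :
    leq (s :: F) (t :: G) ↔ (t = 0 ∨ s = t) ∧ leq F G := Iff.rfl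

lemma leq_refl (F : Face) : leq F F := by
  induction F with
  | nil => trivial
  | cons a F ih => exact ⟨Or.inr rfl, ih⟩

@[simp] lemma dim_zero_cons (F : Face) : dim (0 :: F) = dim F + 1 := by
  simp [dim]

lemma dim_cons_ne {s : SignType} (hs : s ≠ 0) (F : Face) : dim (s :: F) = dim F := by
  simp [dim, hs]

@[simp] lemma dim_one_cons (F : Face) : dim (1 :: F) = dim F := dim_cons_ne (by decide) F

@[simp] lemma dim_neg_cons (F : Face) : dim ((-1) :: F) = dim F := dim_cons_ne (by decide) F

lemma dim_le_length (F : Face) : dim F ≤ F.length := List.count_le_length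

/-- Complete flags of the `n`-cube. -/
structure IsFlag (n : ℕ) (f : Flg) : Prop where
  len : ∀ j ≤ n, (f j).length = n
  dm : ∀ j ≤ n, dim (f j) = j
  le : ∀ j < n, leq (f j) (f (j + 1))

/-- Lift of a flag: first coordinate `s` on levels `≤ i`, free above. -/
def up (s : SignType) (f : Flg) (i : ℕ) : Flg := fun j => if j ≤ i then s :: f j else 0 :: f (j - 1)

lemma up_le {s : SignType} {f : Flg} {i j : ℕ} (h : j ≤ i) : up s f i j = s :: f j := by
  simp [up, h]

lemma up_gt {s : SignType} {f : Flg} {i j : ℕ} (h : i < j) : up s f i j = 0 :: f (j - 1) := by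
  simp [up, h]

lemma up_flag {s : SignType} (hs : s ≠ 0) {n i : ℕ} {f : Flg} (hf : IsFlag n f) (hi : i ≤ n) :
    IsFlag (n + 1) (up s f i) := by
  refine ⟨fun j hj => ?_, fun j hj => ?_, fun j hj => ?_⟩
  · by_cases h : j ≤ i
    · rw [up_le h, List.length_cons, hf.len j (by omega)]
    · rw [up_gt (by omega), List.length_cons, hf.len (j - 1) (by omega)]
  · by_cases h : j ≤ i
    · rw [up_le h, dim_cons_ne hs, hf.dm j (by omega)]
    · rw [up_gt (by omega), dim_zero_cons, hf.dm (j - 1) (by omega)]; omega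
  · by_cases h : j + 1 ≤ i
    · rw [up_le h, up_le (by omega)]
      exact ⟨Or.inr rfl, hf.le j (by omega)⟩
    · by_cases h' : j ≤ i
      · rw [up_le h', up_gt (by omega)]
        exact ⟨Or.inl rfl, by simpa using leq_refl (f j)⟩
      · rw [up_gt (by omega), up_gt (by omega)]
        refine ⟨Or.inl rfl, ?_⟩
        have := hf.le (j - 1) (by omega)
        simpa [show j - 1 + 1 = j by omega] using this

/-- The state has a valid flag and a valid level. -/
def Good (n : ℕ) (a : St) : Prop := IsFlag n a.1 ∧ a.2 ≤ n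

/-- Flip of one level of a flag. -/
def Flip (n : ℕ) (f g : Flg) (j : ℕ) : Prop := j < n ∧ (∀ k, k ≠ j → g k = f k) ∧ g j ≠ f j

/-- One step: flip a level different from the current one, or move the level by one. -/
def Step (n : ℕ) (a b : St) : Prop :=
  (∃ j, j ≠ a.2 ∧ b.2 = a.2 ∧ Flip n a.1 b.1 j) ∨
  (b.1 = a.1 ∧ (b.2 = a.2 + 1 ∨ a.2 = b.2 + 1))

lemma Flip.symm {n : ℕ} {f g : Flg} {j : ℕ} (h : Flip n f g j) : Flip n g f j :=
  ⟨h.1, fun k hk => (h.2.1 k hk).symm, fun e => h.2.2 e.symm⟩

lemma Step.symm {n : ℕ} {a b : St} (h : Step n a b) : Step n b a := by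
  rcases h with ⟨j, h1, h2, h3⟩ | ⟨h1, h2⟩
  · exact Or.inl ⟨j, by rw [h2]; exact h1, h2.symm, h3.symm⟩
  · exact Or.inr ⟨h1.symm, h2.symm⟩

/-- A walk from `a` through the states of the list. -/
def Walk (n : ℕ) : St → List St → Prop
  | _, [] => True
  | a, b :: l => (Step n a b ∧ Good n b) ∧ Walk n b l

/-- last state -/
def lst : St → List St → St
  | a, [] => a
  | _, b :: l => lst b l

@[simp] lemma lst_nil (a : St) : lst a [] = a := rfl
@[simp] lemma lst_cons (a b : St) (l : List St) : lst a (b :: l) = lst b l := rfl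
@[simp] lemma walk_nil (n : ℕ) (a : St) : Walk n a [] ↔ True := Iff.rfl
@[simp] lemma walk_cons (n : ℕ) (a b : St) (l : List St) :
    Walk n a (b :: l) ↔ (Step n a b ∧ Good n b) ∧ Walk n b l := Iff.rfl

@[simp] lemma lst_append (a : St) (l m : List St) : lst a (l ++ m) = lst (lst a l) m := by
  induction l generalizing a with
  | nil => rfl
  | cons b l ih => exact ih b

lemma walk_append {n : ℕ} {a : St} {l m : List St} :
    Walk n a (l ++ m) ↔ Walk n a l ∧ Walk n (lst a l) m := by
  induction l generalizing a with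
  | nil => simp
  | cons b l ih => simp [ih, and_assoc]

lemma Walk.good_lst {n : ℕ} {a : St} {l : List St} (ha : Good n a) (h : Walk n a l) :
    Good n (lst a l) := by
  induction l generalizing a with
  | nil => exact ha
  | cons b l ih => exact ih h.1.2 h.2

/-- Number of entries into `X` along the walk. -/
def ent (X : St → Prop) [DecidablePred X] : St → List St → ℕ
  | _, [] => 0
  | a, b :: l => (if X b ∧ ¬ X a then 1 else 0) + ent X b l

section ent
variable (X Y : St → Prop) [DecidablePred X] [DecidablePred Y]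

@[simp] lemma ent_nil (a : St) : ent X a [] = 0 := rfl
@[simp] lemma ent_cons (a b : St) (l : List St) :
    ent X a (b :: l) = (if X b ∧ ¬ X a then 1 else 0) + ent X b l := rfl

lemma ent_append (a : St) (l m : List St) : ent X a (l ++ m) = ent X a l + ent X (lst a l) m := by
  induction l generalizing a with
  | nil => simp
  | cons b l ih => simp [ih, add_assoc]

variable {X} in
lemma ent_pos {a : St} {l : List St} (h : 0 < ent X a l) : ∃ b ∈ l, X b := by
  induction l generalizing a with
  | nil => simp at h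
  | cons b l ih =>
    rw [ent_cons] at h
    by_cases hb : X b
    · exact ⟨b, by simp, hb⟩
    · have : 0 < ent X b l := by simpa [hb] using h
      obtain ⟨c, hc, hX⟩ := ih this
      exact ⟨c, by simp [hc], hX⟩

variable {X} in
lemma ent_pos' {a b : St} {l : List St} (ha : ¬ X a) (hb : b ∈ l) (hX : X b) : 0 < ent X a l := by
  induction l generalizing a with
  | nil => simp at hb
  | cons c l ih =>
    rw [ent_cons]
    by_cases hc : X c
    · simp [hc, ha]
    · rcases List.mem_cons.1 hb with rfl | h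
      · exact absurd hX hc
      · have := ih hc h; omega

/-- reversed walk, from `lst a l` to `a` -/
def rv : St → List St → List St
  | _, [] => []
  | a, b :: l => rv b l ++ [a]

lemma lst_rv (a : St) (l : List St) : lst (lst a l) (rv a l) = a := by
  induction l generalizing a with
  | nil => rfl
  | cons b l ih => simp [rv]

lemma walk_rv {n : ℕ} {a : St} {l : List St} (ha : Good n a) (h : Walk n a l) :
    Walk n (lst a l) (rv a l) := by
  induction l generalizing a with
  | nil => trivial
  | cons b l ih =>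
    simp only [rv, lst_cons, walk_append, lst_rv, walk_cons, walk_nil, and_true]
    exact ⟨ih h.1.2 h.2, h.1.1.symm, ha⟩

/-- value of a predicate -/
def val (X : St → Prop) [DecidablePred X] (a : St) : ℕ := if X a then 1 else 0

lemma ent_rv (a : St) (l : List St) :
    ent X (lst a l) (rv a l) + val X (lst a l) = ent X a l + val X a := by
  induction l generalizing a with
  | nil => simp [rv]
  | cons b l ih =>
    have := ih b
    simp only [rv, lst_cons, ent_append, lst_rv, ent_cons, ent_nil] 
    have h2 : (if X a ∧ ¬ X b then 1 else 0) + val X b = (if X b ∧ ¬ X a then 1 else 0) + val X a := by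
      by_cases h : X a <;> by_cases h' : X b <;> simp [val, h, h']
    omega

lemma ent_map (g : St → St) (a : St) (l : List St) :
    ent X (g a) (l.map g) = ent (fun s => X (g s)) a l := by
  induction l generalizing a with
  | nil => rfl
  | cons b l ih => simp [ih]

variable {X Y} in
lemma ent_congr (a : St) (l : List St) (ha : X a ↔ Y a) (h : ∀ b ∈ l, (X b ↔ Y b)) :
    ent X a l = ent Y a l := by
  induction l generalizing a with
  | nil => rfl
  | cons b l ih =>
    simp only [ent_cons]
    rw [ih b (h b (by simp)) (fun c hc => h c (by simp [hc]))]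
    simp only [ha, h b (by simp)]

variable {X} in
lemma ent_false (a : St) (l : List St) (h : ∀ b ∈ l, ¬ X b) : ent X a l = 0 := by
  induction l generalizing a with
  | nil => rfl
  | cons b l ih =>
    simp only [ent_cons]
    rw [ih b (fun c hc => h c (by simp [hc]))]
    simp [h b (by simp)]

end ent

/-- The face `K` is in the flag of the state. -/
def In (K : Face) (a : St) : Prop := a.1 (dim K) = K
/-- The state sits at the face `K`. -/
def Vis (K : Face) (a : St) : Prop := a.1 (dim K) = K ∧ a.2 = dim K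
/-- `K` in the flag, not above the level. -/
def PA (K : Face) (a : St) : Prop := a.1 (dim K) = K ∧ dim K ≤ a.2
/-- `K` in the flag, not below the level. -/
def PC (K : Face) (a : St) : Prop := a.1 (dim K) = K ∧ a.2 ≤ dim K

instance (K : Face) : DecidablePred (In K) := fun a => inferInstanceAs (Decidable (a.1 (dim K) = K))
instance (K : Face) : DecidablePred (Vis K) :=
  fun a => inferInstanceAs (Decidable (a.1 (dim K) = K ∧ a.2 = dim K))
instance (K : Face) : DecidablePred (PA K) :=
  fun a => inferInstanceAs (Decidable (a.1 (dim K) = K ∧ dim K ≤ a.2))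
instance (K : Face) : DecidablePred (PC K) :=
  fun a => inferInstanceAs (Decidable (a.1 (dim K) = K ∧ a.2 ≤ dim K))

theorem In_iff (K : Face) (a : St) : In K a ↔ a.1 (dim K) = K := ⟨fun h => h, fun h => h⟩
theorem Vis_iff (K : Face) (a : St) : Vis K a ↔ (a.1 (dim K) = K ∧ a.2 = dim K) :=
  ⟨fun h => h, fun h => h⟩
theorem PA_iff (K : Face) (a : St) : PA K a ↔ (a.1 (dim K) = K ∧ dim K ≤ a.2) :=
  ⟨fun h => h, fun h => h⟩
theorem PC_iff (K : Face) (a : St) : PC K a ↔ (a.1 (dim K) = K ∧ a.2 ≤ dim K) :=
  ⟨fun h => h, fun h => h⟩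

/-- The key identity. -/
lemma ent_identity {n : ℕ} (K : Face) (a : St) (l : List St) (h : Walk n a l) :
    ent (PA K) a l + ent (PC K) a l = ent (In K) a l + ent (Vis K) a l := by
  induction l generalizing a with
  | nil => rfl
  | cons b l ih =>
    have := ih b h.2
    simp only [ent_cons]
    have h2 : (if PA K b ∧ ¬ PA K a then 1 else 0) + (if PC K b ∧ ¬ PC K a then 1 else 0) =
      (if In K b ∧ ¬ In K a then 1 else 0) + (if Vis K b ∧ ¬ Vis K a then 1 else 0) := by
      have hs := h.1.1
      simp only [PA_iff, PC_iff, In_iff, Vis_iff]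
      rcases hs with ⟨j, h1, h2, h3⟩ | ⟨h1, h2⟩
      · rw [h2]
        by_cases hA : a.1 (dim K) = K <;> by_cases hB : b.1 (dim K) = K <;> simp only [hA, hB, true_and, false_and, not_true_eq_false, not_false_eq_true, and_true, and_false, if_false] <;>
        split_ifs <;> omega
      · rw [h1]
        by_cases hA : a.1 (dim K) = K <;> simp only [hA, true_and, false_and, not_true_eq_false, not_false_eq_true, and_true, and_false, if_false] <;>
        split_ifs <;> omega
    omega

/-! values of the predicates on lifted flags -/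

theorem in_11 (H : Face) (f : Flg) (m p : ℕ) :
    In (1 :: H) (up 1 f m, p) ↔ (f (dim H) = H ∧ dim H ≤ m) := by
  simp only [In_iff, dim_one_cons]
  by_cases h : dim H ≤ m
  · rw [up_le h]; simp [h]
  · rw [up_gt (by omega)]; simp [h]

theorem in_nn (H : Face) (f : Flg) (m p : ℕ) :
    In (-1 :: H) (up (-1) f m, p) ↔ (f (dim H) = H ∧ dim H ≤ m) := by
  simp only [In_iff, dim_neg_cons]
  by_cases h : dim H ≤ m
  · rw [up_le h]; simp [h]
  · rw [up_gt (by omega)]; simp [h]

theorem in_1n (H : Face) (f : Flg) (m p : ℕ) :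
    In (1 :: H) (up (-1) f m, p) ↔ False := by
  simp only [In_iff, dim_one_cons]
  by_cases h : dim H ≤ m
  · rw [up_le h]; simp
  · rw [up_gt (by omega)]; simp

theorem in_n1 (H : Face) (f : Flg) (m p : ℕ) :
    In (-1 :: H) (up 1 f m, p) ↔ False := by
  simp only [In_iff, dim_neg_cons]
  by_cases h : dim H ≤ m
  · rw [up_le h]; simp
  · rw [up_gt (by omega)]; simp

theorem in_zero (H : Face) (f : Flg) (m p : ℕ) (t : SignType) (ht : t ≠ 0) :
    In (0 :: H) (up t f m, p) ↔ (f (dim H) = H ∧ m ≤ dim H) := by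
  simp only [In_iff, dim_zero_cons]
  by_cases h : dim H + 1 ≤ m
  · rw [up_le h]; simp only [List.cons.injEq, ht, false_and, false_iff, not_and]; omega
  · rw [up_gt (by omega)]; simp; omega

theorem in_01 (H : Face) (f : Flg) (m p : ℕ) :
    In (0 :: H) (up 1 f m, p) ↔ (f (dim H) = H ∧ m ≤ dim H) := in_zero H f m p 1 (by decide)

theorem in_0n (H : Face) (f : Flg) (m p : ℕ) :
    In (0 :: H) (up (-1) f m, p) ↔ (f (dim H) = H ∧ m ≤ dim H) := in_zero H f m p (-1) (by decide)

theorem vis_in (K : Face) (a : St) : Vis K a ↔ (In K a ∧ a.2 = dim K) := ⟨fun h => h, fun h => h⟩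

theorem vis_11 (H : Face) (f : Flg) (m p : ℕ) :
    Vis (1 :: H) (up 1 f m, p) ↔ ((f (dim H) = H ∧ dim H ≤ m) ∧ p = dim H) := by
  rw [vis_in, in_11, dim_one_cons]

theorem vis_nn (H : Face) (f : Flg) (m p : ℕ) :
    Vis (-1 :: H) (up (-1) f m, p) ↔ ((f (dim H) = H ∧ dim H ≤ m) ∧ p = dim H) := by
  rw [vis_in, in_nn, dim_neg_cons]

theorem vis_1n (H : Face) (f : Flg) (m p : ℕ) :
    Vis (1 :: H) (up (-1) f m, p) ↔ False := by
  rw [vis_in, in_1n, false_and]

theorem vis_n1 (H : Face) (f : Flg) (m p : ℕ) :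
    Vis (-1 :: H) (up 1 f m, p) ↔ False := by
  rw [vis_in, in_n1, false_and]

theorem vis_01 (H : Face) (f : Flg) (m p : ℕ) :
    Vis (0 :: H) (up 1 f m, p) ↔ ((f (dim H) = H ∧ m ≤ dim H) ∧ p = dim H + 1) := by
  rw [vis_in, in_01, dim_zero_cons]

theorem vis_0n (H : Face) (f : Flg) (m p : ℕ) :
    Vis (0 :: H) (up (-1) f m, p) ↔ ((f (dim H) = H ∧ m ≤ dim H) ∧ p = dim H + 1) := by
  rw [vis_in, in_0n, dim_zero_cons]

/-! steps of lifted flags -/

lemma flip_up {s : SignType} (hs : s ≠ 0) (f : Flg) {n m : ℕ} (h : m < n) :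
    Flip (n + 1) (up s f m) (up s f (m + 1)) (m + 1) := by
  refine ⟨by omega, fun k hk => ?_, ?_⟩
  · by_cases h1 : k ≤ m
    · rw [up_le h1, up_le (by omega)]
    · rw [up_gt (by omega), up_gt (by omega)]
  · rw [up_le (by omega), up_gt (by omega)]
    simp [hs]

lemma flip_bot {s t : SignType} (hst : s ≠ t) (f : Flg) (n : ℕ) :
    Flip (n + 1) (up s f 0) (up t f 0) 0 := by
  refine ⟨by omega, fun k hk => ?_, ?_⟩
  · rw [up_gt (by omega), up_gt (by omega)]
  · rw [up_le (by omega), up_le (by omega)]
    simp [hst.symm]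

lemma flip_low {s : SignType} {n i j : ℕ} {f g : Flg} (h : Flip n f g j) (hj : j < i) :
    Flip (n + 1) (up s f i) (up s g i) j := by
  refine ⟨by have := h.1; omega, fun k hk => ?_, ?_⟩
  · by_cases h1 : k ≤ i
    · rw [up_le h1, up_le h1, h.2.1 k hk]
    · rw [up_gt (by omega), up_gt (by omega), h.2.1 _ (by omega)]
  · rw [up_le (by omega), up_le (by omega)]
    simpa using h.2.2

lemma flip_high {s : SignType} {n i j : ℕ} {f g : Flg} (h : Flip n f g j) (hj : i < j) :
    Flip (n + 1) (up s f i) (up s g i) (j + 1) := by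
  refine ⟨by have := h.1; omega, fun k hk => ?_, ?_⟩
  · by_cases h1 : k ≤ i
    · rw [up_le h1, up_le h1, h.2.1 k (by omega)]
    · rw [up_gt (by omega), up_gt (by omega), h.2.1 _ (by omega)]
  · rw [up_gt (by omega), up_gt (by omega)]
    simpa using h.2.2

lemma good_up {s : SignType} (hs : s ≠ 0) {n : ℕ} {f : Flg} (hf : IsFlag n f) {m p : ℕ}
    (hm : m ≤ n) (hp : p ≤ n + 1) : Good (n + 1) (up s f m, p) := ⟨up_flag hs hf hm, hp⟩

/-- step raising the lift height -/
lemma st_up {s : SignType} (hs : s ≠ 0) {n : ℕ} {f : Flg} {m p : ℕ} (h : m < n) (hp : p ≠ m + 1) :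
    Step (n + 1) (up s f m, p) (up s f (m + 1), p) :=
  Or.inl ⟨m + 1, hp.symm, rfl, flip_up hs f h⟩

lemma st_dn {s : SignType} (hs : s ≠ 0) {n : ℕ} {f : Flg} {m p : ℕ} (h : m < n) (hp : p ≠ m + 1) :
    Step (n + 1) (up s f (m + 1), p) (up s f m, p) :=
  (st_up hs h hp).symm

lemma st_bot {s t : SignType} (hst : s ≠ t) {n : ℕ} {f : Flg} {p : ℕ} (hp : p ≠ 0) :
    Step (n + 1) (up s f 0, p) (up t f 0, p) :=
  Or.inl ⟨0, hp.symm, rfl, flip_bot hst f n⟩

lemma st_mu {n : ℕ} {f : Flg} {p q : ℕ} (h : q = p + 1) : Step n (f, p) (f, q) :=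
  Or.inr ⟨rfl, Or.inl h⟩

lemma st_md {n : ℕ} {f : Flg} {p q : ℕ} (h : p = q + 1) : Step n (f, p) (f, q) :=
  Or.inr ⟨rfl, Or.inr h⟩

end Pool.Agent.W5h5.BP
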