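import Pool.Agent.W5h5.BP1

/-! The ladder lift of a walk. -/

set_option linter.all false

namespace Pool.Agent.W5h5.BP

/-- parity offset -/
def tt (n i : ℕ) : ℕ := (n + 1 + i) % 2

/-- lifted state -/
def ls (n : ℕ) (a : St) : St := (up 1 a.1 a.2, a.2 + tt n a.2)

/-- lifted step -/
def ldst (n : ℕ) (a b : St) : List St :=
  if b.2 = a.2 then [(up 1 b.1 b.2, b.2 + tt n b.2)]
  else if b.2 = a.2 + 1 then
    (if tt n a.2 = 0 then
      [(up 1 a.1 (a.2+1), a.2), (up 1 a.1 (a.2+1), a.2+1), (up 1 a.1 (a.2+1), a.2+2)]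
     else [(up 1 a.1 a.2, a.2+2), (up 1 a.1 (a.2+1), a.2+2), (up 1 a.1 (a.2+1), a.2+1)])
  else
    (if tt n a.2 = 0 then
      [(up 1 b.1 (b.2+1), b.2), (up 1 b.1 b.2, b.2), (up 1 b.1 b.2, b.2+1)]
     else [(up 1 b.1 b.2, b.2+2), (up 1 b.1 b.2, b.2+1), (up 1 b.1 b.2, b.2)])

/-- lifted walk -/
def lad (n : ℕ) : St → List St → List St
  | _, [] => []
  | a, b :: l => ldst n a b ++ lad n b l

lemma lad_append (n : ℕ) (a : St) (l m : List St) :
    lad n a (l ++ m) = lad n a l ++ lad n (lst a l) m := by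
  induction l generalizing a with
  | nil => rfl
  | cons b l ih => simp [lad, ih]

/-- `l'` (from `a'` to `b'`) is a ladder-type lift of the walk `l` from `a`. -/
structure LadP (n : ℕ) (a : St) (l : List St) (a' : St) (l' : List St) (b' : St) : Prop where
  w : Walk (n + 1) a' l'
  last : lst a' l' = b'
  i1 : ∀ H, ent (In (1 :: H)) a' l' = ent (PA H) a l
  i0 : ∀ H, ent (In (0 :: H)) a' l' = ent (PC H) a l
  im : ∀ H, ent (In (-1 :: H)) a' l' = 0
  v1 : ∀ H, ent (Vis (1 :: H)) a' l' = ent (Vis H) a l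
  v0 : ∀ H, ent (Vis (0 :: H)) a' l' = ent (Vis H) a l
  vm : ∀ H, ent (Vis (-1 :: H)) a' l' = 0

lemma LadP.append {n : ℕ} {a : St} {l m : List St} {a' : St} {l' m' : List St} {b' c' : St}
    (h : LadP n a l a' l' b') (h2 : LadP n (lst a l) m b' m' c') :
    LadP n a (l ++ m) a' (l' ++ m') c' := by
  obtain ⟨w, last, i1, i0, im, v1, v0, vm⟩ := h
  subst last
  obtain ⟨w2, last2, j1, j0, jm, u1, u0, um⟩ := h2
  refine ⟨walk_append.2 ⟨w, w2⟩, by rw [lst_append, last2], fun H => ?_, fun H => ?_, fun H => ?_,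
    fun H => ?_, fun H => ?_, fun H => ?_⟩ <;> simp only [ent_append]
  · rw [i1, j1]
  · rw [i0, j0]
  · rw [im, jm]
  · rw [v1, u1]
  · rw [v0, u0]
  · rw [vm, um]

lemma LadP.nil (n : ℕ) (a a' : St) : LadP n a [] a' [] a' :=
  ⟨trivial, rfl, fun _ => rfl, fun _ => rfl, fun _ => rfl, fun _ => rfl, fun _ => rfl, fun _ => rfl⟩

/-- flip steps -/
lemma ladP_flip {n : ℕ} {f g : Flg} {i p j : ℕ} (hg : IsFlag n g) (hi : i ≤ n)
    (hji : j ≠ i) (hF : Flip n f g j) (hp : p = i ∨ p = i + 1) :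
    LadP n (f, i) [(g, i)] (up 1 f i, p) [(up 1 g i, p)] (up 1 g i, p) := by
  have key : ∀ H : Face, dim H = i → g (dim H) = f (dim H) := fun H h => hF.2.1 _ (by omega)
  refine ⟨?_, rfl, fun H => ?_, fun H => ?_, fun H => ?_, fun H => ?_, fun H => ?_, fun H => ?_⟩
  · simp only [walk_cons, walk_nil, and_true]
    refine ⟨?_, good_up (by decide) hg hi (by omega)⟩
    rcases lt_or_gt_of_ne hji with h | h
    · exact Or.inl ⟨j, by simp only; omega, rfl, flip_low hF h⟩
    · exact Or.inl ⟨j + 1, by simp only; omega, rfl, flip_high hF h⟩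
  all_goals
    have k := key H
    simp only [ent_cons, ent_nil, in_11, in_01, in_n1, vis_11, vis_01, vis_n1]
  all_goals try simp only [PA_iff, PC_iff, Vis_iff]
  all_goals
    by_cases hd : dim H = i
    · have k' := k hd
      rw [hd] at k'
      by_cases hI : f i = H <;> simp [hd, k', hI] 
    · by_cases hI : f (dim H) = H <;> by_cases hJ : g (dim H) = H <;> simp [hI, hJ] <;>
        (try split_ifs) <;> omega

lemma ladP_up0 {n : ℕ} {f : Flg} {i : ℕ} (hf : IsFlag n f) (hi : i + 1 ≤ n) :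
    LadP n (f, i) [(f, i+1)] (up 1 f i, i)
      [(up 1 f (i+1), i), (up 1 f (i+1), i+1), (up 1 f (i+1), i+2)] (up 1 f (i+1), i+2) := by
  refine ⟨?_, rfl, fun H => ?_, fun H => ?_, fun H => ?_, fun H => ?_, fun H => ?_, fun H => ?_⟩
  · simp only [walk_cons, walk_nil, and_true]
    exact ⟨⟨st_up (by decide) (by omega) (by omega), good_up (by decide) hf hi (by omega)⟩,
      ⟨st_mu rfl, good_up (by decide) hf hi (by omega)⟩,
      ⟨st_mu rfl, good_up (by decide) hf hi (by omega)⟩⟩
  all_goals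
    simp only [ent_cons, ent_nil, in_11, in_01, in_n1, vis_11, vis_01, vis_n1]
    try simp only [PA_iff, PC_iff, Vis_iff]
    by_cases hI : f (dim H) = H <;> simp [hI] <;> (try split_ifs) <;> omega

lemma ladP_up1 {n : ℕ} {f : Flg} {i : ℕ} (hf : IsFlag n f) (hi : i + 1 ≤ n) :
    LadP n (f, i) [(f, i+1)] (up 1 f i, i+1)
      [(up 1 f i, i+2), (up 1 f (i+1), i+2), (up 1 f (i+1), i+1)] (up 1 f (i+1), i+1) := by
  refine ⟨?_, rfl, fun H => ?_, fun H => ?_, fun H => ?_, fun H => ?_, fun H => ?_, fun H => ?_⟩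
  · simp only [walk_cons, walk_nil, and_true]
    exact ⟨⟨st_mu rfl, good_up (by decide) hf (by omega) (by omega)⟩,
      ⟨st_up (by decide) (by omega) (by omega), good_up (by decide) hf hi (by omega)⟩,
      ⟨st_md rfl, good_up (by decide) hf hi (by omega)⟩⟩
  all_goals
    simp only [ent_cons, ent_nil, in_11, in_01, in_n1, vis_11, vis_01, vis_n1]
    try simp only [PA_iff, PC_iff, Vis_iff]
    by_cases hI : f (dim H) = H <;> simp [hI] <;> (try split_ifs) <;> omega

lemma ladP_dn0 {n : ℕ} {f : Flg} {i : ℕ} (hf : IsFlag n f) (hi : i + 1 ≤ n) :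
    LadP n (f, i+1) [(f, i)] (up 1 f (i+1), i+1)
      [(up 1 f (i+1), i), (up 1 f i, i), (up 1 f i, i+1)] (up 1 f i, i+1) := by
  refine ⟨?_, rfl, fun H => ?_, fun H => ?_, fun H => ?_, fun H => ?_, fun H => ?_, fun H => ?_⟩
  · simp only [walk_cons, walk_nil, and_true]
    exact ⟨⟨st_md rfl, good_up (by decide) hf (by omega) (by omega)⟩,
      ⟨st_dn (by decide) (by omega) (by omega), good_up (by decide) hf (by omega) (by omega)⟩,
      ⟨st_mu rfl, good_up (by decide) hf (by omega) (by omega)⟩⟩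
  all_goals
    simp only [ent_cons, ent_nil, in_11, in_01, in_n1, vis_11, vis_01, vis_n1]
    try simp only [PA_iff, PC_iff, Vis_iff]
    by_cases hI : f (dim H) = H <;> simp [hI] <;> (try split_ifs) <;> omega

lemma ladP_dn1 {n : ℕ} {f : Flg} {i : ℕ} (hf : IsFlag n f) (hi : i + 1 ≤ n) :
    LadP n (f, i+1) [(f, i)] (up 1 f (i+1), i+2)
      [(up 1 f i, i+2), (up 1 f i, i+1), (up 1 f i, i)] (up 1 f i, i) := by
  refine ⟨?_, rfl, fun H => ?_, fun H => ?_, fun H => ?_, fun H => ?_, fun H => ?_, fun H => ?_⟩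
  · simp only [walk_cons, walk_nil, and_true]
    exact ⟨⟨st_dn (by decide) (by omega) (by omega), good_up (by decide) hf (by omega) (by omega)⟩,
      ⟨st_md rfl, good_up (by decide) hf (by omega) (by omega)⟩,
      ⟨st_md rfl, good_up (by decide) hf (by omega) (by omega)⟩⟩
  all_goals
    simp only [ent_cons, ent_nil, in_11, in_01, in_n1, vis_11, vis_01, vis_n1]
    try simp only [PA_iff, PC_iff, Vis_iff]
    by_cases hI : f (dim H) = H <;> simp [hI] <;> (try split_ifs) <;> omega

lemma tt_cases (n i : ℕ) : tt n i = 0 ∨ tt n i = 1 := by unfold tt; omega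

lemma ladP_step {n : ℕ} {a b : St} (ha : Good n a) (hb : Good n b) (h : Step n a b) :
    LadP n a [b] (ls n a) (ldst n a b) (ls n b) := by
  obtain ⟨f, i⟩ := a
  obtain ⟨g, k⟩ := b
  rcases h with ⟨j, h1, h2, h3⟩ | ⟨h1, h2⟩
  · simp only at h1 h2 h3
    subst h2
    simp only [ldst, ls, if_true]
    refine ladP_flip hb.1 hb.2 h1 h3 ?_
    rcases tt_cases n k with h | h <;> rw [h] <;> simp
  · simp only at h1 h2
    subst h1
    have hi := ha.2
    have hk := hb.2
    simp only at hi hk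
    rcases h2 with h2 | h2
    · subst h2
      rcases tt_cases n i with h | h
      · have h' : tt n (i + 1) = 1 := by unfold tt at *; omega
        have := ladP_up0 hb.1 hk
        simpa [ldst, ls, h, h'] using this
      · have h' : tt n (i + 1) = 0 := by unfold tt at *; omega
        have := ladP_up1 hb.1 hk
        simpa [ldst, ls, h, h'] using this
    · subst h2
      have e1 : k ≠ k + 1 + 1 := by omega
      rcases tt_cases n (k+1) with h | h
      · have h' : tt n k = 1 := by unfold tt at *; omega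
        have := ladP_dn0 hb.1 hi
        simpa [ldst, ls, h, h', e1] using this
      · have h' : tt n k = 0 := by unfold tt at *; omega
        have := ladP_dn1 hb.1 hi
        simpa [ldst, ls, h, h', e1] using this

lemma ladP_lad {n : ℕ} {a : St} {l : List St} (ha : Good n a) (h : Walk n a l) :
    LadP n a l (ls n a) (lad n a l) (ls n (lst a l)) := by
  induction l generalizing a with
  | nil => exact LadP.nil n a _
  | cons b l ih => exact (ladP_step ha h.1.2 h.1.1).append (ih h.1.2 h.2)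

end Pool.Agent.W5h5.BP
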