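import Pool.Agent.W5h5.BP2

/-! Crossing, reversed and closing parts. -/

set_option linter.all false

namespace Pool.Agent.W5h5.BP

/-- raise the lift height over `E` -/
def climb (E : Flg) (p : ℕ) : ℕ → ℕ → List St
  | _, 0 => []
  | k, m + 1 => (up (-1) E (k + 1), p) :: climb E p (k + 1) m

lemma climb_last (E : Flg) (p k m : ℕ) :
    lst (up (-1) E k, p) (climb E p k m) = (up (-1) E (k + m), p) := by
  induction m generalizing k with
  | zero => rfl
  | succ m ih => simp only [climb, lst_cons]; rw [ih]; congr 2; omega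

lemma climb_walk {n : ℕ} {E : Flg} (hE : IsFlag n E) {p k m : ℕ} (hp : p ≤ k) (hk : k + m ≤ n) :
    Walk (n + 1) (up (-1) E k, p) (climb E p k m) := by
  induction m generalizing k with
  | zero => trivial
  | succ m ih =>
    refine ⟨⟨st_up (by decide) (by omega) (by omega), good_up (by decide) hE (by omega) (by omega)⟩,
      ih (by omega) (by omega)⟩

lemma climb_i1 (E : Flg) (p k m : ℕ) (H : Face) :
    ent (In (1 :: H)) (up (-1) E k, p) (climb E p k m) = 0 := by
  induction m generalizing k with
  | zero => rfl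
  | succ m ih => simp only [climb, ent_cons, ih, in_1n]; simp

lemma climb_i0 (E : Flg) (p k m : ℕ) (H : Face) :
    ent (In (0 :: H)) (up (-1) E k, p) (climb E p k m) = 0 := by
  induction m generalizing k with
  | zero => rfl
  | succ m ih =>
    simp only [climb, ent_cons, ih, in_0n]
    by_cases hI : E (dim H) = H <;> simp [hI] <;> omega

lemma climb_im (E : Flg) (p k m : ℕ) (H : Face) :
    ent (In (-1 :: H)) (up (-1) E k, p) (climb E p k m) =
      if E (dim H) = H ∧ k < dim H ∧ dim H ≤ k + m then 1 else 0 := by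
  induction m generalizing k with
  | zero => simp only [climb, ent_nil]; rw [if_neg]; omega
  | succ m ih =>
    simp only [climb, ent_cons, ih, in_nn]
    by_cases hI : E (dim H) = H <;> simp [hI] <;> (try split_ifs) <;> omega

lemma climb_v1 (E : Flg) (p k m : ℕ) (H : Face) :
    ent (Vis (1 :: H)) (up (-1) E k, p) (climb E p k m) = 0 := by
  induction m generalizing k with
  | zero => rfl
  | succ m ih => simp only [climb, ent_cons, ih, vis_1n]; simp

lemma climb_v0 (E : Flg) (p k m : ℕ) (hp : p ≤ k) (H : Face) :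
    ent (Vis (0 :: H)) (up (-1) E k, p) (climb E p k m) = 0 := by
  induction m generalizing k with
  | zero => rfl
  | succ m ih =>
    simp only [climb, ent_cons, ih (k + 1) (by omega), vis_0n]
    by_cases hI : E (dim H) = H <;> simp [hI] <;> omega

lemma climb_vm (E : Flg) (p k m : ℕ) (hp : p ≤ k) (H : Face) :
    ent (Vis (-1 :: H)) (up (-1) E k, p) (climb E p k m) = 0 := by
  induction m generalizing k with
  | zero => rfl
  | succ m ih =>
    simp only [climb, ent_cons, ih (k + 1) (by omega), vis_nn]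
    by_cases hI : E (dim H) = H <;> simp [hI] <;> omega

/-- the crossing part from the positive to the negative side -/
structure Cross (n : ℕ) (E : Flg) (p1 : ℕ) (x : St) (l : List St) : Prop where
  w : Walk (n + 1) x l
  last : lst x l = (up (-1) E n, p1)
  i1 : ∀ H, ent (In (1 :: H)) x l = 0
  i0 : ∀ H, ent (In (0 :: H)) x l = 0
  im : ∀ H, dim H ≤ n → ent (In (-1 :: H)) x l = if E (dim H) = H then 1 else 0
  v1 : ∀ H, ent (Vis (1 :: H)) x l = 0
  v0 : ∀ H, ent (Vis (0 :: H)) x l = 0
  vm : ∀ H, dim H ≤ n → ent (Vis (-1 :: H)) x l = if E (dim H) = H ∧ p1 = dim H then 1 else 0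

def crossE (n : ℕ) (E : Flg) : List St :=
  [(up (-1) E 0, 1), (up (-1) E 0, 0)] ++ climb E 0 0 n

lemma cross_even {n : ℕ} {E : Flg} (hE : IsFlag n E) :
    Cross n E 0 (up 1 E 0, 1) (crossE n E) := by
  refine ⟨?_, ?_, fun H => ?_, fun H => ?_, fun H hd => ?_, fun H => ?_, fun H => ?_,
    fun H hd => ?_⟩
  · rw [crossE, walk_append]
    refine ⟨?_, climb_walk hE (by omega) (by omega)⟩
    simp only [walk_cons, walk_nil, and_true]
    exact ⟨⟨st_bot (by decide) (by omega), good_up (by decide) hE (by omega) (by omega)⟩,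
      ⟨st_md rfl, good_up (by decide) hE (by omega) (by omega)⟩⟩
  · rw [crossE, lst_append]
    simp only [lst_cons, lst_nil]
    rw [climb_last]; simp
  all_goals rw [crossE, ent_append]; simp only [lst_cons, lst_nil]
  · rw [climb_i1]; simp only [ent_cons, ent_nil, in_1n, in_11]; simp
  · rw [climb_i0]; simp only [ent_cons, ent_nil, in_0n, in_01]; simp
  · rw [climb_im]; simp only [ent_cons, ent_nil, in_nn, in_n1]
    by_cases hI : E (dim H) = H <;> simp [hI] <;> (try split_ifs) <;> omega
  · rw [climb_v1]; simp only [ent_cons, ent_nil, vis_1n, vis_11]; simp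
  · rw [climb_v0 _ _ _ _ (by omega)]; simp only [ent_cons, ent_nil, vis_0n, vis_01]; simp
  · rw [climb_vm _ _ _ _ (by omega)]; simp only [ent_cons, ent_nil, vis_nn, vis_n1]
    by_cases hI : E (dim H) = H <;> simp [hI] <;> (try split_ifs) <;> omega

def crossO (n : ℕ) (E : Flg) : List St :=
  [(up (-1) E 0, 2), (up (-1) E 1, 2), (up (-1) E 1, 1)] ++ climb E 1 1 (n - 1)

lemma cross_odd {n : ℕ} {E : Flg} (hE : IsFlag n E) (hn : 2 ≤ n) :
    Cross n E 1 (up 1 E 0, 2) (crossO n E) := by
  refine ⟨?_, ?_, fun H => ?_, fun H => ?_, fun H hd => ?_, fun H => ?_, fun H => ?_,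
    fun H hd => ?_⟩
  · rw [crossO, walk_append]
    refine ⟨?_, climb_walk hE (by omega) (by omega)⟩
    simp only [walk_cons, walk_nil, and_true]
    exact ⟨⟨st_bot (by decide) (by omega), good_up (by decide) hE (by omega) (by omega)⟩,
      ⟨st_up (by decide) (by omega) (by omega), good_up (by decide) hE (by omega) (by omega)⟩,
      ⟨st_md rfl, good_up (by decide) hE (by omega) (by omega)⟩⟩
  · rw [crossO, lst_append]
    simp only [lst_cons, lst_nil]
    rw [climb_last]; congr 2; omega
  all_goals rw [crossO, ent_append]; simp only [lst_cons, lst_nil]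
  · rw [climb_i1]; simp only [ent_cons, ent_nil, in_1n, in_11]; simp
  · rw [climb_i0]; simp only [ent_cons, ent_nil, in_0n, in_01]
    by_cases hI : E (dim H) = H <;> simp [hI] <;> (try split_ifs) <;> omega
  · rw [climb_im]; simp only [ent_cons, ent_nil, in_nn, in_n1]
    by_cases hI : E (dim H) = H <;> simp [hI] <;> (try split_ifs) <;> omega
  · rw [climb_v1]; simp only [ent_cons, ent_nil, vis_1n, vis_11]; simp
  · rw [climb_v0 _ _ _ _ (by omega)]; simp only [ent_cons, ent_nil, vis_0n, vis_01]
    by_cases hI : E (dim H) = H <;> simp [hI] <;> (try split_ifs) <;> omega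
  · rw [climb_vm _ _ _ _ (by omega)]; simp only [ent_cons, ent_nil, vis_nn, vis_n1]
    by_cases hI : E (dim H) = H <;> simp [hI] <;> (try split_ifs) <;> omega

/-- lift to the negative facet -/
def gm (n : ℕ) (s : St) : St := (up (-1) s.1 n, s.2)

lemma gm_step {n : ℕ} {a b : St} (h : Step n a b) : Step (n + 1) (gm n a) (gm n b) := by
  rcases h with ⟨j, h1, h2, h3⟩ | ⟨h1, h2⟩
  · exact Or.inl ⟨j, h1, h2, flip_low h3 h3.1⟩
  · exact Or.inr ⟨by simp [gm, h1], h2⟩

lemma gm_good {n : ℕ} {a : St} (h : Good n a) : Good (n + 1) (gm n a) :=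
  good_up (by decide) h.1 le_rfl (by have := h.2; omega)

lemma gm_walk {n : ℕ} {a : St} {l : List St} (h : Walk n a l) :
    Walk (n + 1) (gm n a) (l.map (gm n)) := by
  induction l generalizing a with
  | nil => trivial
  | cons b l ih => exact ⟨⟨gm_step h.1.1, gm_good h.1.2⟩, ih h.2⟩

lemma lst_map (g : St → St) (a : St) (l : List St) : lst (g a) (l.map g) = g (lst a l) := by
  induction l generalizing a with
  | nil => rfl
  | cons b l ih => exact ih b

/-- levels `≥ n` do not change along a walk -/
lemma walk_top {n : ℕ} {a : St} {l : List St} (h : Walk n a l) :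
    ∀ b ∈ l, ∀ k, n ≤ k → b.1 k = a.1 k := by
  induction l generalizing a with
  | nil => simp
  | cons c l ih =>
    have hc : ∀ k, n ≤ k → c.1 k = a.1 k := by
      intro k hk
      rcases h.1.1 with ⟨j, h1, h2, h3⟩ | ⟨h1, h2⟩
      · exact h3.2.1 k (by have := h3.1; omega)
      · rw [h1]
    intro b hb k hk
    rcases List.mem_cons.1 hb with rfl | hb
    · exact hc k hk
    · rw [ih h.2 b hb k hk, hc k hk]

lemma walk_good {n : ℕ} {a : St} {l : List St} (h : Walk n a l) : ∀ b ∈ l, Good n b := by
  induction l generalizing a with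
  | nil => simp
  | cons c l ih =>
    intro b hb
    rcases List.mem_cons.1 hb with rfl | hb
    · exact h.1.2
    · exact ih h.2 b hb

/-- the reversed walk lifted to the negative facet -/
def revM (n : ℕ) (a : St) (l : List St) : List St := (rv a l).map (gm n)

structure RevM (n : ℕ) (a : St) (l : List St) (x : St) (l' : List St) : Prop where
  w : Walk (n + 1) x l'
  last : lst x l' = gm n a
  i1 : ∀ H, ent (In (1 :: H)) x l' = 0
  i0 : ∀ H, ent (In (0 :: H)) x l' = 0
  im : ∀ H, dim H ≤ n → ent (In (-1 :: H)) x l' + val (In H) (lst a l) =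
    ent (In H) a l + val (In H) a
  v1 : ∀ H, ent (Vis (1 :: H)) x l' = 0
  v0 : ∀ H, ent (Vis (0 :: H)) x l' = 0
  vm : ∀ H, dim H ≤ n → ent (Vis (-1 :: H)) x l' + val (Vis H) (lst a l) =
    ent (Vis H) a l + val (Vis H) a

lemma revM_prop {n : ℕ} {a : St} {l : List St} (ha : Good n a) (h : Walk n a l) :
    RevM n a l (gm n (lst a l)) (revM n a l) := by
  have hw := walk_rv ha h
  have hgl := Walk.good_lst ha h
  refine ⟨gm_walk hw, ?_, fun H => ?_, fun H => ?_, fun H hd => ?_, fun H => ?_, fun H => ?_,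
    fun H hd => ?_⟩
  · rw [revM, lst_map, lst_rv]
  · rw [revM, ent_map]
    exact ent_false _ _ (fun b _ => by simp only [gm, in_1n]; simp)
  · rw [revM, ent_map]
    have htop := walk_top hw
    generalize rv a l = m at *
    generalize lst a l = c at *
    clear h ha
    induction m generalizing c with
    | nil => rfl
    | cons b m ih =>
      rw [ent_cons, ih b (hw.1.2) hw.2 (walk_top hw.2)]
      simp only [gm, in_0n]
      rw [if_neg, add_zero]
      rintro ⟨⟨h1, h2⟩, h3⟩
      exact h3 ⟨by rw [← htop b (by simp) _ h2]; exact h1, h2⟩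
  · rw [revM, ent_map, ← ent_rv]
    congr 1
    exact ent_congr _ _ (by simp only [gm]; rw [in_nn, In_iff]; simp [hd])
      (fun b _ => by simp only [gm]; rw [in_nn, In_iff]; simp [hd])
  · rw [revM, ent_map]
    exact ent_false _ _ (fun b _ => by simp only [gm, vis_1n]; simp)
  · rw [revM, ent_map]
    refine ent_false _ _ (fun b hb => ?_)
    have := (walk_good hw b hb).2
    simp only [gm, vis_0n]; rintro ⟨⟨h1, h2⟩, h3⟩; omega
  · rw [revM, ent_map, ← ent_rv]
    congr 1
    exact ent_congr _ _ (by simp only [gm]; rw [vis_nn, Vis_iff]; simp [hd])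
      (fun b _ => by simp only [gm]; rw [vis_nn, Vis_iff]; simp [hd])

/-- closing zigzag -/
def zig (B : Flg) : ℕ → List St
  | 0 => []
  | 1 => [(up (-1) B 1, 0), (up (-1) B 0, 0), (up (-1) B 0, 1)]
  | k + 2 => [(up (-1) B (k+2), k+1), (up (-1) B (k+1), k+1), (up (-1) B (k+1), k+2),
      (up (-1) B k, k+2), (up (-1) B k, k+1), (up (-1) B k, k)] ++ zig B k

/-- counts of a closing part -/
structure Cl (n : ℕ) (B : Flg) (q : ℕ) (x : St) (l : List St) (c0 cm : ℕ → Prop)
    [DecidablePred c0] [DecidablePred cm] : Prop where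
  w : Walk (n + 1) x l
  last : lst x l = (up (-1) B 0, q)
  i1 : ∀ H, ent (In (1 :: H)) x l = 0
  im : ∀ H, ent (In (-1 :: H)) x l = 0
  v1 : ∀ H, ent (Vis (1 :: H)) x l = 0
  v0 : ∀ H, ent (Vis (0 :: H)) x l = if B (dim H) = H ∧ c0 (dim H) then 1 else 0
  vm : ∀ H, ent (Vis (-1 :: H)) x l = if B (dim H) = H ∧ cm (dim H) then 1 else 0

lemma zig_cl {n : ℕ} {B : Flg} (hB : IsFlag n B) : ∀ k ≤ n,
    Cl n B (k % 2) (up (-1) B k, k) (zig B k) (fun d => d < k) (fun d => d < k) ∧
      ∀ H, ent (In (0 :: H)) (up (-1) B k, k) (zig B k) =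
        if B (dim H) = H ∧ dim H < k then 1 else 0
  | 0, _ => by
    refine ⟨⟨trivial, rfl, fun H => rfl, fun H => rfl, fun H => rfl, fun H => ?_, fun H => ?_⟩,
      fun H => ?_⟩ <;> simp [zig]
  | 1, hk => by
    refine ⟨⟨?_, rfl, fun H => ?_, fun H => ?_, fun H => ?_, fun H => ?_, fun H => ?_⟩,
      fun H => ?_⟩
    · simp only [zig, walk_cons, walk_nil, and_true]
      exact ⟨⟨st_md rfl, good_up (by decide) hB (by omega) (by omega)⟩,
        ⟨st_dn (by decide) (by omega) (by omega), good_up (by decide) hB (by omega) (by omega)⟩,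
        ⟨st_mu rfl, good_up (by decide) hB (by omega) (by omega)⟩⟩
    all_goals
      simp only [zig, ent_cons, ent_nil, in_nn, in_0n, in_1n, vis_nn, vis_0n, vis_1n]
      by_cases hI : B (dim H) = H <;> simp [hI] <;> (try split_ifs) <;> omega
  | k + 2, hk => by
    obtain ⟨⟨w, last, i1, im, v1, v0, vm⟩, i0⟩ := zig_cl hB k (by omega)
    refine ⟨⟨?_, ?_, fun H => ?_, fun H => ?_, fun H => ?_, fun H => ?_, fun H => ?_⟩,
      fun H => ?_⟩
    · rw [zig, walk_append]
      simp only [lst_cons, lst_nil]
      refine ⟨?_, w⟩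
      simp only [walk_cons, walk_nil, and_true]
      exact ⟨⟨st_md rfl, good_up (by decide) hB (by omega) (by omega)⟩,
        ⟨st_dn (by decide) (by omega) (by omega), good_up (by decide) hB (by omega) (by omega)⟩,
        ⟨st_mu rfl, good_up (by decide) hB (by omega) (by omega)⟩,
        ⟨st_dn (by decide) (by omega) (by omega), good_up (by decide) hB (by omega) (by omega)⟩,
        ⟨st_md rfl, good_up (by decide) hB (by omega) (by omega)⟩,
        ⟨st_md rfl, good_up (by decide) hB (by omega) (by omega)⟩⟩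
    · rw [zig, lst_append]
      simp only [lst_cons, lst_nil]
      rw [last]; congr 1; omega
    all_goals rw [zig, ent_append]; simp only [lst_cons, lst_nil]
    · rw [i1]; simp only [ent_cons, ent_nil, in_1n]; simp
    · rw [im]; simp only [ent_cons, ent_nil, in_nn]
      by_cases hI : B (dim H) = H <;> simp [hI] <;> (try split_ifs) <;> omega
    · rw [v1]; simp only [ent_cons, ent_nil, vis_1n]; simp
    · rw [v0]; simp only [ent_cons, ent_nil, vis_0n]
      by_cases hI : B (dim H) = H <;> simp [hI] <;> (try split_ifs) <;> omega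
    · rw [vm]; simp only [ent_cons, ent_nil, vis_nn]
      by_cases hI : B (dim H) = H <;> simp [hI] <;> (try split_ifs) <;> omega
    · rw [i0]; simp only [ent_cons, ent_nil, in_0n]
      by_cases hI : B (dim H) = H <;> simp [hI] <;> (try split_ifs) <;> omega

end Pool.Agent.W5h5.BP
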