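import Pool.Agent.W5h5.BP3

/-! Assembly of the walk in dimension `n + 1`. -/

set_option linter.all false

namespace Pool.Agent.W5h5.BP

/-- walk of type I -/
structure TI (n : ℕ) (B E : Flg) (l : List St) : Prop where
  hB : IsFlag n B
  w : Walk n (B, n) l
  last : lst (B, n) l = (E, 0)
  hin : ∀ H : Face, H.length = n →
    (if B (dim H) = H then 1 else 0) + ent (In H) (B, n) l = 1
  hvis : ∀ H : Face, H.length = n → ent (Vis H) (B, n) l = if B (dim H) = H then 0 else 1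

/-- walk of type II -/
structure TII (n : ℕ) (B E : Flg) (l : List St) : Prop where
  w : Walk n (B, n - 2) l
  last : lst (B, n - 2) l = (E, 1)
  hin : ∀ H : Face, H.length = n →
    (if B (dim H) = H then 1 else 0) + ent (In H) (B, n - 2) l = 1
  hvis : ∀ H : Face, H.length = n → ent (Vis H) (B, n - 2) l =
    if B (dim H) = H ∧ dim H < n then 0 else 1

lemma TI.papc {n : ℕ} {B E : Flg} {l : List St} (h : TI n B E l) (H : Face) (hH : H.length = n) :
    ent (PA H) (B, n) l = (if B (dim H) = H then 0 else 1) ∧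
    ent (PC H) (B, n) l = (if B (dim H) = H then 0 else 1) := by
  have hd : dim H ≤ n := hH ▸ dim_le_length H
  have h1 := h.hin H hH
  have h2 := h.hvis H hH
  have h3 := ent_identity H (B, n) l h.w
  by_cases hB : B (dim H) = H
  · rw [if_pos hB] at h1 h2 ⊢; omega
  · rw [if_neg hB] at h1 h2 ⊢
    obtain ⟨s, hs, hv⟩ := ent_pos (X := Vis H) (a := (B, n)) (l := l) (by omega)
    have hv' := (Vis_iff H s).1 hv
    have h4 : 0 < ent (PA H) (B, n) l := by
      refine ent_pos' ?_ hs ?_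
      · rw [PA_iff]; exact fun h => hB h.1
      · rw [PA_iff]; exact ⟨hv'.1, hv'.2.ge⟩
    have h5 : 0 < ent (PC H) (B, n) l := by
      refine ent_pos' ?_ hs ?_
      · rw [PC_iff]; exact fun h => hB h.1
      · rw [PC_iff]; exact ⟨hv'.1, hv'.2.le⟩
    omega

lemma face_cases (K : Face) {n : ℕ} (hK : K.length = n + 1) :
    ∃ H : Face, H.length = n ∧ (K = 0 :: H ∨ K = 1 :: H ∨ K = -1 :: H) := by
  match K, hK with
  | s :: H, hK =>
    refine ⟨H, by simpa using hK, ?_⟩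
    have : s = 0 ∨ s = 1 ∨ s = -1 := by cases s <;> decide
    rcases this with rfl | rfl | rfl <;> simp

lemma val_in (H : Face) (a : St) : val (In H) a = if a.1 (dim H) = H then 1 else 0 := by
  unfold val; exact if_congr (In_iff H a) rfl rfl

lemma val_vis (H : Face) (a : St) :
    val (Vis H) a = if a.1 (dim H) = H ∧ a.2 = dim H then 1 else 0 := by
  unfold val; exact if_congr (Vis_iff H a) rfl rfl

lemma up_top_iff {B : Flg} {n : ℕ} (H : Face) (hd : dim H ≤ n) :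
    (up 1 B n (dim (1 :: H)) = 1 :: H ↔ B (dim H) = H) ∧
    (up 1 B n (dim (0 :: H)) = 0 :: H ↔ (B (dim H) = H ∧ n ≤ dim H)) ∧
    ¬ (up 1 B n (dim (-1 :: H)) = -1 :: H) := by
  have h1 := in_11 H B n 0
  have h2 := in_01 H B n 0
  have h3 := in_n1 H B n 0
  rw [In_iff] at h1 h2 h3
  refine ⟨by rw [h1]; simp [hd], h2, by rw [h3]; simp⟩

lemma asm {n : ℕ} {B E : Flg} {l v l1 l2 l3 l4 : List St} {p0 p1 p2 q : ℕ} {x1 : St}
    {c0 cm : ℕ → Prop} [DecidablePred c0] [DecidablePred cm]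
    (hW : TI n B E l)
    (hL : LadP n (B, n) l (up 1 B n, p0) l1 x1)
    (hC : Cross n E p1 x1 l2)
    (hv1 : lst (B, p2) v = (E, p1))
    (hvin : ∀ H : Face, H.length = n →
      (if B (dim H) = H then 1 else 0) + ent (In H) (B, p2) v = 1)
    (hR : RevM n (B, p2) v (gm n (E, p1)) l3)
    (hcl : Cl n B q (up (-1) B n, p2) l4 c0 cm)
    (hcl0 : ∀ H, ent (In (0 :: H)) (up (-1) B n, p2) l4 =
        if B (dim H) = H ∧ dim H < n then 1 else 0) :
    Walk (n + 1) (up 1 B n, p0) (l1 ++ l2 ++ l3 ++ l4) ∧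
    lst (up 1 B n, p0) (l1 ++ l2 ++ l3 ++ l4) = (up (-1) B 0, q) ∧
    (∀ K : Face, K.length = n + 1 → (if (up 1 B n) (dim K) = K then 1 else 0) +
      ent (In K) (up 1 B n, p0) (l1 ++ l2 ++ l3 ++ l4) = 1) ∧
    (∀ H : Face, H.length = n → ent (Vis (1 :: H)) (up 1 B n, p0) (l1 ++ l2 ++ l3 ++ l4) =
      if B (dim H) = H then 0 else 1) ∧
    (∀ H : Face, H.length = n → ent (Vis (0 :: H)) (up 1 B n, p0) (l1 ++ l2 ++ l3 ++ l4) =
      (if B (dim H) = H then 0 else 1) + (if B (dim H) = H ∧ c0 (dim H) then 1 else 0)) ∧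
    (∀ H : Face, H.length = n → ent (Vis (-1 :: H)) (up 1 B n, p0) (l1 ++ l2 ++ l3 ++ l4) =
      ent (Vis H) (B, p2) v + (if B (dim H) = H ∧ p2 = dim H then 1 else 0) +
      (if B (dim H) = H ∧ cm (dim H) then 1 else 0)) := by
  have e1 : lst (up 1 B n, p0) l1 = x1 := hL.last
  have e2 : lst x1 l2 = gm n (E, p1) := hC.last
  have e3 : lst (gm n (E, p1)) l3 = (up (-1) B n, p2) := hR.last
  have e4 : lst (up (-1) B n, p2) l4 = (up (-1) B 0, q) := hcl.last
  refine ⟨?_, ?_, ?_, ?_, ?_, ?_⟩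
  · simp only [walk_append, lst_append, e1, e2, e3]
    exact ⟨⟨⟨hL.w, hC.w⟩, hR.w⟩, hcl.w⟩
  · simp only [lst_append, e1, e2, e3, e4]
  · intro K hK
    simp only [ent_append, lst_append, e1, e2, e3]
    obtain ⟨H, hH, hK'⟩ := face_cases K hK
    have hd : dim H ≤ n := hH ▸ dim_le_length H
    obtain ⟨u1, u0, um⟩ := up_top_iff (B := B) H hd
    obtain ⟨a1, a2⟩ := hW.papc H hH
    rcases hK' with rfl | rfl | rfl
    · rw [hL.i0, hC.i0, hR.i0, hcl0, a2]
      simp only [u0]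
      by_cases hB : B (dim H) = H
      · simp [hB]; split_ifs <;> omega
      · simp [hB]
    · rw [hL.i1, hC.i1, hR.i1, hcl.i1, a1]
      simp only [u1]
      by_cases hB : B (dim H) = H <;> simp [hB]
    · rw [hL.im, hC.im H hd, hcl.im, if_neg um]
      have hr := hR.im H hd
      rw [hv1, val_in, val_in] at hr
      have := hvin H hH
      simp only at hr this ⊢
      omega
  · intro H hH
    simp only [ent_append, lst_append, e1, e2, e3]
    rw [hL.v1, hC.v1, hR.v1, hcl.v1, hW.hvis H hH]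
    rfl
  · intro H hH
    simp only [ent_append, lst_append, e1, e2, e3]
    rw [hL.v0, hC.v0, hR.v0, hcl.v0, hW.hvis H hH]
    rfl
  · intro H hH
    have hd : dim H ≤ n := hH ▸ dim_le_length H
    simp only [ent_append, lst_append, e1, e2, e3]
    rw [hL.vm, hC.vm H hd, hcl.vm]
    have hr := hR.vm H hd
    rw [hv1, val_vis, val_vis] at hr
    simp only at hr ⊢
    omega

lemma asm_TI {n : ℕ} {B E : Flg} {l v l1 l2 l3 l4 : List St} {p1 p2 : ℕ} {x1 : St}
    {c0 cm : ℕ → Prop} [DecidablePred c0] [DecidablePred cm]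
    (hW : TI n B E l)
    (hL : LadP n (B, n) l (up 1 B n, n + 1) l1 x1)
    (hC : Cross n E p1 x1 l2)
    (hv1 : lst (B, p2) v = (E, p1))
    (hvin : ∀ H : Face, H.length = n →
      (if B (dim H) = H then 1 else 0) + ent (In H) (B, p2) v = 1)
    (hR : RevM n (B, p2) v (gm n (E, p1)) l3)
    (hcl : Cl n B 0 (up (-1) B n, p2) l4 c0 cm)
    (hcl0 : ∀ H, ent (In (0 :: H)) (up (-1) B n, p2) l4 =
        if B (dim H) = H ∧ dim H < n then 1 else 0)
    (hc0 : ∀ d, c0 d ↔ d < n)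
    (hvv : ∀ H : Face, H.length = n → ent (Vis H) (B, p2) v +
      (if B (dim H) = H ∧ p2 = dim H then 1 else 0) +
      (if B (dim H) = H ∧ cm (dim H) then 1 else 0) = 1) :
    TI (n + 1) (up 1 B n) (up (-1) B 0) (l1 ++ l2 ++ l3 ++ l4) := by
  obtain ⟨a1, a2, a3, a4, a5, a6⟩ := asm hW hL hC hv1 hvin hR hcl hcl0
  refine ⟨up_flag (by decide) hW.hB le_rfl, a1, a2, a3, ?_⟩
  intro K hK
  obtain ⟨H, hH, hK'⟩ := face_cases K hK
  have hd : dim H ≤ n := hH ▸ dim_le_length H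
  obtain ⟨u1, u0, um⟩ := up_top_iff (B := B) H hd
  rcases hK' with rfl | rfl | rfl
  · rw [a5 H hH]
    simp only [u0, hc0]
    by_cases hB : B (dim H) = H
    · simp [hB]; split_ifs <;> omega
    · simp [hB]
  · rw [a4 H hH]
    simp only [u1]
  · rw [a6 H hH, hvv H hH, if_neg um]

lemma asm_TII {n : ℕ} {B E : Flg} {l v l1 l2 l3 l4 : List St} {p1 p2 : ℕ} {x1 : St}
    {c0 cm : ℕ → Prop} [DecidablePred c0] [DecidablePred cm]
    (hW : TI n B E l)
    (hL : LadP n (B, n) l (up 1 B n, n - 1) l1 x1)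
    (hC : Cross n E p1 x1 l2)
    (hv1 : lst (B, p2) v = (E, p1))
    (hvin : ∀ H : Face, H.length = n →
      (if B (dim H) = H then 1 else 0) + ent (In H) (B, p2) v = 1)
    (hR : RevM n (B, p2) v (gm n (E, p1)) l3)
    (hcl : Cl n B 1 (up (-1) B n, p2) l4 c0 cm)
    (hcl0 : ∀ H, ent (In (0 :: H)) (up (-1) B n, p2) l4 =
        if B (dim H) = H ∧ dim H < n then 1 else 0)
    (hc0 : ∀ d, c0 d ↔ d ≤ n)
    (hvv : ∀ H : Face, H.length = n → ent (Vis H) (B, p2) v +
      (if B (dim H) = H ∧ p2 = dim H then 1 else 0) +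
      (if B (dim H) = H ∧ cm (dim H) then 1 else 0) = 1) :
    TII (n + 1) (up 1 B n) (up (-1) B 0) (l1 ++ l2 ++ l3 ++ l4) := by
  obtain ⟨a1, a2, a3, a4, a5, a6⟩ := asm hW hL hC hv1 hvin hR hcl hcl0
  refine ⟨a1, a2, a3, ?_⟩
  intro K hK
  show ent (Vis K) (up 1 B n, n - 1) (l1 ++ l2 ++ l3 ++ l4) = _
  obtain ⟨H, hH, hK'⟩ := face_cases K hK
  have hd : dim H ≤ n := hH ▸ dim_le_length H
  obtain ⟨u1, u0, um⟩ := up_top_iff (B := B) H hd
  rcases hK' with rfl | rfl | rfl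
  · have e : ¬ (up 1 B n (dim (0 :: H)) = 0 :: H ∧ dim (0 :: H) < n + 1) := by
      rintro ⟨h1, h2⟩
      have h3 := (u0.1 h1).2
      rw [dim_zero_cons] at h2; omega
    rw [a5 H hH, if_neg e]
    simp only [hc0]
    by_cases hB : B (dim H) = H
    · simp [hB]; omega
    · simp [hB]
  · have e : (up 1 B n (dim (1 :: H)) = 1 :: H ∧ dim (1 :: H) < n + 1) ↔ B (dim H) = H := by
      rw [u1, dim_one_cons]
      exact ⟨fun h => h.1, fun h => ⟨h, by omega⟩⟩
    rw [a4 H hH]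
    simp only [e]
  · rw [a6 H hH, hvv H hH, if_neg (fun h => um h.1)]

end Pool.Agent.W5h5.BP
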