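import Pool.Agent.W5h5.BP4

/-! The induction steps. -/

set_option linter.all false

namespace Pool.Agent.W5h5.BP

def clII (m : ℕ) (B : Flg) : List St :=
  [(up (-1) B (m+1), m+2), (up (-1) B m, m+2), (up (-1) B m, m+1), (up (-1) B m, m)] ++ zig B m

lemma clII_prop {m : ℕ} {B : Flg} (hB : IsFlag (m + 1) B) (hm : m % 2 = 1) :
    Cl (m + 1) B 1 (up (-1) B (m+1), m+1) (clII m B) (fun d => d ≤ m + 1) (fun d => d < m + 1) ∧
      ∀ H, ent (In (0 :: H)) (up (-1) B (m+1), m+1) (clII m B) =
        if B (dim H) = H ∧ dim H < m + 1 then 1 else 0 := by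
  obtain ⟨⟨w, last, i1, im, v1, v0, vm⟩, i0⟩ := zig_cl hB m (by omega)
  rw [hm] at last
  refine ⟨⟨?_, ?_, fun H => ?_, fun H => ?_, fun H => ?_, fun H => ?_, fun H => ?_⟩,
    fun H => ?_⟩
  · rw [clII, walk_append]
    simp only [lst_cons, lst_nil]
    refine ⟨?_, w⟩
    simp only [walk_cons, walk_nil, and_true]
    exact ⟨⟨st_mu rfl, good_up (by decide) hB (by omega) (by omega)⟩,
      ⟨st_dn (by decide) (by omega) (by omega), good_up (by decide) hB (by omega) (by omega)⟩,
      ⟨st_md rfl, good_up (by decide) hB (by omega) (by omega)⟩,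
      ⟨st_md rfl, good_up (by decide) hB (by omega) (by omega)⟩⟩
  · rw [clII, lst_append]
    simp only [lst_cons, lst_nil]
    rw [last]
  all_goals rw [clII, ent_append]; simp only [lst_cons, lst_nil]
  · rw [i1]; simp only [ent_cons, ent_nil, in_1n]; simp
  · rw [im]; simp only [ent_cons, ent_nil, in_nn]
    by_cases hI : B (dim H) = H <;> simp [hI] <;> (try split_ifs) <;> omega
  · rw [v1]; simp only [ent_cons, ent_nil, vis_1n]; simp
  · rw [v0]; simp only [ent_cons, ent_nil, vis_0n]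
    by_cases hI : B (dim H) = H <;> simp [hI] <;> (try split_ifs) <;> omega
  · rw [vm]; simp only [ent_cons, ent_nil, vis_nn]
    by_cases hI : B (dim H) = H <;> simp [hI] <;> (try split_ifs) <;> omega
  · rw [i0]; simp only [ent_cons, ent_nil, in_0n]
    by_cases hI : B (dim H) = H <;> simp [hI] <;> (try split_ifs) <;> omega

def clI (m : ℕ) (B : Flg) : List St :=
  [(up (-1) B (m+3), m+2), (up (-1) B (m+2), m+2), (up (-1) B (m+2), m+3),
   (up (-1) B (m+1), m+3), (up (-1) B (m+1), m+2), (up (-1) B m, m+2), (up (-1) B m, m+1),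
   (up (-1) B m, m)] ++ zig B m

lemma clI_prop {m : ℕ} {B : Flg} (hB : IsFlag (m + 3) B) (hm : m % 2 = 0) :
    Cl (m + 3) B 0 (up (-1) B (m+3), m+1) (clI m B) (fun d => d < m + 3)
      (fun d => d < m + 3 ∧ d ≠ m + 1) ∧
      ∀ H, ent (In (0 :: H)) (up (-1) B (m+3), m+1) (clI m B) =
        if B (dim H) = H ∧ dim H < m + 3 then 1 else 0 := by
  obtain ⟨⟨w, last, i1, im, v1, v0, vm⟩, i0⟩ := zig_cl hB m (by omega)
  rw [hm] at last
  refine ⟨⟨?_, ?_, fun H => ?_, fun H => ?_, fun H => ?_, fun H => ?_, fun H => ?_⟩,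
    fun H => ?_⟩
  · rw [clI, walk_append]
    simp only [lst_cons, lst_nil]
    refine ⟨?_, w⟩
    simp only [walk_cons, walk_nil, and_true]
    exact ⟨⟨st_mu rfl, good_up (by decide) hB (by omega) (by omega)⟩,
      ⟨st_dn (by decide) (by omega) (by omega), good_up (by decide) hB (by omega) (by omega)⟩,
      ⟨st_mu rfl, good_up (by decide) hB (by omega) (by omega)⟩,
      ⟨st_dn (by decide) (by omega) (by omega), good_up (by decide) hB (by omega) (by omega)⟩,
      ⟨st_md rfl, good_up (by decide) hB (by omega) (by omega)⟩,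
      ⟨st_dn (by decide) (by omega) (by omega), good_up (by decide) hB (by omega) (by omega)⟩,
      ⟨st_md rfl, good_up (by decide) hB (by omega) (by omega)⟩,
      ⟨st_md rfl, good_up (by decide) hB (by omega) (by omega)⟩⟩
  · rw [clI, lst_append]
    simp only [lst_cons, lst_nil]
    rw [last]
  all_goals rw [clI, ent_append]; simp only [lst_cons, lst_nil]
  · rw [i1]; simp only [ent_cons, ent_nil, in_1n]; simp
  · rw [im]; simp only [ent_cons, ent_nil, in_nn]
    by_cases hI : B (dim H) = H <;> simp [hI] <;> (try split_ifs) <;> omega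
  · rw [v1]; simp only [ent_cons, ent_nil, vis_1n]; simp
  · rw [v0]; simp only [ent_cons, ent_nil, vis_0n]
    by_cases hI : B (dim H) = H <;> simp [hI] <;> (try split_ifs) <;> omega
  · rw [vm]; simp only [ent_cons, ent_nil, vis_nn]
    by_cases hI : B (dim H) = H <;> simp [hI] <;> (try split_ifs) <;> omega
  · rw [i0]; simp only [ent_cons, ent_nil, in_0n]
    by_cases hI : B (dim H) = H <;> simp [hI] <;> (try split_ifs) <;> omega

/-- modified ladder end -/
def midO (E : Flg) : List St :=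
  [(up 1 E 2, 1), (up 1 E 1, 1), (up 1 E 1, 0), (up 1 E 0, 0), (up 1 E 0, 1), (up 1 E 0, 2)]

lemma midO_prop {n : ℕ} {E : Flg} (hE : IsFlag n E) (hn : 2 ≤ n) :
    LadP n (E, 2) [(E, 1), (E, 0)] (up 1 E 2, 2) (midO E) (up 1 E 0, 2) := by
  refine ⟨?_, rfl, fun H => ?_, fun H => ?_, fun H => ?_, fun H => ?_, fun H => ?_, fun H => ?_⟩
  · simp only [midO, walk_cons, walk_nil, and_true]
    exact ⟨⟨st_md rfl, good_up (by decide) hE (by omega) (by omega)⟩,
      ⟨st_dn (by decide) (by omega) (by omega), good_up (by decide) hE (by omega) (by omega)⟩,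
      ⟨st_md rfl, good_up (by decide) hE (by omega) (by omega)⟩,
      ⟨st_dn (by decide) (by omega) (by omega), good_up (by decide) hE (by omega) (by omega)⟩,
      ⟨st_mu rfl, good_up (by decide) hE (by omega) (by omega)⟩,
      ⟨st_mu rfl, good_up (by decide) hE (by omega) (by omega)⟩⟩
  all_goals
    simp only [midO, ent_cons, ent_nil, in_11, in_01, in_n1, vis_11, vis_01, vis_n1]
  all_goals try simp only [PA_iff, PC_iff, Vis_iff]
  all_goals
    by_cases hI : E (dim H) = H <;> simp [hI] <;> (try split_ifs) <;> omega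

/-- modified ladder start -/
def midE (m : ℕ) (h g : Flg) : List St :=
  [(up 1 h (m+2), m), (up 1 g (m+2), m), (up 1 g (m+2), m+1), (up 1 g (m+1), m+1),
   (up 1 g (m+1), m+2), (up 1 g m, m+2), (up 1 g m, m+1)]

lemma midE_prop {m : ℕ} {h g : Flg} (hh : IsFlag (m+2) h) (hg : IsFlag (m+2) g)
    (hF : Flip (m + 2) h g (m + 1)) :
    LadP (m+2) (h, m+2) [(g, m+2), (g, m+1), (g, m)] (up 1 h (m+2), m+1) (midE m h g)
      (up 1 g m, m+1) := by
  refine ⟨?_, rfl, fun H => ?_, fun H => ?_, fun H => ?_, fun H => ?_, fun H => ?_, fun H => ?_⟩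
  · simp only [midE, walk_cons, walk_nil, and_true]
    exact ⟨⟨st_md rfl, good_up (by decide) hh (by omega) (by omega)⟩,
      ⟨Or.inl ⟨m + 1, by simp, rfl, flip_low hF (by omega)⟩,
        good_up (by decide) hg (by omega) (by omega)⟩,
      ⟨st_mu rfl, good_up (by decide) hg (by omega) (by omega)⟩,
      ⟨st_dn (by decide) (by omega) (by omega), good_up (by decide) hg (by omega) (by omega)⟩,
      ⟨st_mu rfl, good_up (by decide) hg (by omega) (by omega)⟩,
      ⟨st_dn (by decide) (by omega) (by omega), good_up (by decide) hg (by omega) (by omega)⟩,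
      ⟨st_md rfl, good_up (by decide) hg (by omega) (by omega)⟩⟩
  all_goals
    simp only [midE, ent_cons, ent_nil, in_11, in_01, in_n1, vis_11, vis_01, vis_n1]
  all_goals try simp only [PA_iff, PC_iff, Vis_iff]
  all_goals try simp only [false_and, if_false, add_zero]
  all_goals
    by_cases hd : dim H = m + 1
    · rw [hd]
      by_cases hI : h (m + 1) = H <;> by_cases hJ : g (m + 1) = H <;> simp [hI, hJ] <;>
        (try split_ifs) <;> omega
    · have hk : h (dim H) = g (dim H) := (hF.2.1 _ hd).symm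
      rw [hk]
      by_cases hJ : g (dim H) = H <;> simp [hJ] <;> (try split_ifs) <;> omega

lemma ladP_flip' {n : ℕ} {f g : Flg} {p j : ℕ} (hg : IsFlag n g)
    (hF : Flip n f g j) (hp : p ≤ n) (hpj : p ≠ j) :
    LadP n (f, n) [(g, n)] (up 1 f n, p) [(up 1 g n, p)] (up 1 g n, p) := by
  have hjn := hF.1
  refine ⟨?_, rfl, fun H => ?_, fun H => ?_, fun H => ?_, fun H => ?_, fun H => ?_, fun H => ?_⟩
  · simp only [walk_cons, walk_nil, and_true]
    refine ⟨?_, good_up (by decide) hg (by omega) (by omega)⟩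
    exact Or.inl ⟨j, hpj.symm, rfl, flip_low hF hF.1⟩
  all_goals
    simp only [ent_cons, ent_nil, in_11, in_01, in_n1, vis_11, vis_01, vis_n1]
  all_goals try simp only [PA_iff, PC_iff, Vis_iff]
  all_goals try simp only [false_and, if_false, add_zero]
  all_goals
    by_cases hd : dim H = j
    · rw [hd]
      by_cases hI : f j = H <;> by_cases hJ : g j = H <;> simp [hI, hJ] <;>
        (try split_ifs) <;> omega
    · have hk : g (dim H) = f (dim H) := (hF.2.1 _ hd)
      rw [hk]
      by_cases hJ : f (dim H) = H <;> simp [hJ] <;> (try split_ifs) <;> omega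

lemma step_same {n : ℕ} {f g : Flg} {i : ℕ} (h : Step n (f, i) (g, i)) :
    ∃ j, j ≠ i ∧ Flip n f g j := by
  rcases h with ⟨j, h1, h2, h3⟩ | ⟨h1, h2⟩
  · exact ⟨j, h1, h3⟩
  · simp only at h2; omega

def preL (m : ℕ) (p : List St) : List St := p.map (fun s => (up 1 s.1 (m + 2), m + 1))

lemma ladP_pre {m : ℕ} {f : Flg} {p : List St} (hw : Walk (m + 2) (f, m + 2) p)
    (hp : ∀ s ∈ p, s.2 = m + 2 ∧ s.1 (m + 1) = f (m + 1)) :
    LadP (m + 2) (f, m + 2) p (up 1 f (m + 2), m + 1) (preL m p)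
      (up 1 (lst (f, m + 2) p).1 (m + 2), m + 1) := by
  induction p generalizing f with
  | nil => exact LadP.nil _ _ _
  | cons b l ih =>
    obtain ⟨g, i⟩ := b
    have h1 := hp (g, i) (by simp)
    simp only at h1
    obtain ⟨rfl, h2⟩ := h1
    obtain ⟨j, hj, hF⟩ := step_same hw.1.1
    have hjm : m + 1 ≠ j := by rintro rfl; exact hF.2.2 h2
    have h3 := ladP_flip' hw.1.2.1 hF (p := m + 1) (by omega) hjm
    have h4 := ih hw.2 (fun s hs => by
      have := hp s (by simp [hs])
      exact ⟨this.1, by rw [this.2, h2]⟩)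
    exact h3.append h4

lemma lad_pre {n : ℕ} {f : Flg} {p : List St} (hw : Walk n (f, n) p)
    (hp : ∀ s ∈ p, s.2 = n) : ∀ s ∈ lad n (f, n) p, s.2 = n + 1 ∧ s.1 n = 1 :: f n := by
  induction p generalizing f with
  | nil => simp [lad]
  | cons b l ih =>
    obtain ⟨g, i⟩ := b
    have h1 := hp (g, i) (by simp)
    simp only at h1
    subst h1
    obtain ⟨j, hj, hF⟩ := step_same hw.1.1
    have h4 := ih hw.2 (fun s hs => hp s (by simp [hs]))
    have hgf : g i = f i := hF.2.1 i hj.symm
    intro s hs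
    rw [lad, List.mem_append] at hs
    rcases hs with hs | hs
    · simp only [ldst, if_true, List.mem_singleton] at hs
      subst hs
      refine ⟨?_, ?_⟩
      · simp only; unfold tt; omega
      · simp only; rw [up_le le_rfl, hgf]
    · have := h4 s hs
      exact ⟨this.1, by rw [this.2, hgf]⟩

/-- data in odd dimension `m + 3` -/
def OddD (m : ℕ) (B E : Flg) : Prop :=
  ∃ (p : List St) (g : Flg) (q v : List St),
    (∀ s ∈ p, s.2 = m + 3) ∧ lst (B, m + 3) p = (g, m + 3) ∧ lst (g, m + 2) q = (E, 2) ∧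
    TI (m + 3) B E (p ++ ([(g, m + 2)] ++ (q ++ [(E, 1), (E, 0)]))) ∧ TII (m + 3) B E v

/-- data in even dimension `m + 2` -/
def EvenD (m : ℕ) (B E : Flg) : Prop :=
  ∃ (p : List St) (h g : Flg) (q : List St),
    (∀ s ∈ p, s.2 = m + 2 ∧ s.1 (m + 1) = B (m + 1)) ∧ lst (B, m + 2) p = (h, m + 2) ∧
    (∀ k, k ≠ m + 1 → g k = h k) ∧
    TI (m + 2) B E (p ++ ([(g, m + 2), (g, m + 1), (g, m)] ++ q))

end Pool.Agent.W5h5.BP
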