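import Pool.Agent.W5h5.BP5

/-! The induction steps, continued. -/

set_option linter.all false

namespace Pool.Agent.W5h5.BP

lemma ldst_dn1 {n k : ℕ} (g : Flg) (h : tt n (k + 1) = 1) :
    ldst n (g, k + 1) (g, k) =
      [(up 1 g k, k + 2), (up 1 g k, k + 1), (up 1 g k, k)] := by
  have e1 : k ≠ k + 1 := by omega
  have e2 : k ≠ k + 1 + 1 := by omega
  simp [ldst, h, e2]

theorem stepA {m : ℕ} {B E : Flg} (hm : m % 2 = 0) (h : OddD m B E) :
    EvenD (m + 2) (up 1 B (m + 3)) (up (-1) B 0) := by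
  obtain ⟨p, g, q, v, hp, hpl, hql, hW, hV⟩ := h
  have hB := hW.hB
  have hgB : Good (m + 3) (B, m + 3) := ⟨hB, le_rfl⟩
  have hgE := Walk.good_lst hgB hW.w
  rw [hW.last] at hgE
  have hE : IsFlag (m + 3) E := hgE.1
  have hw := hW.w
  rw [walk_append, walk_append] at hw
  simp only [hpl, lst_cons, lst_nil] at hw
  obtain ⟨hwp, hwg, hwq⟩ := hw
  rw [walk_append] at hwq
  have hw0 : Walk (m + 3) (B, m + 3) (p ++ ([(g, m + 2)] ++ q)) := by
    rw [walk_append, walk_append]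
    simp only [hpl, lst_cons, lst_nil]
    exact ⟨hwp, hwg, hwq.1⟩
  have hl0 : lst (B, m + 3) (p ++ ([(g, m + 2)] ++ q)) = (E, 2) := by
    simp only [lst_append, hpl, lst_cons, lst_nil, hql]
  have hL0 := ladP_lad hgB hw0
  have t1 : tt (m + 3) (m + 3) = 1 := by unfold tt; omega
  have t2 : tt (m + 3) 2 = 0 := by unfold tt; omega
  rw [hl0] at hL0
  simp only [ls, t1, t2, add_zero] at hL0
  have hmid := midO_prop hE (by omega)
  have hL := LadP.append hL0 (by rw [hl0]; exact hmid)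
  rw [show (p ++ ([(g, m + 2)] ++ q)) ++ [(E, 1), (E, 0)] =
    p ++ ([(g, m + 2)] ++ (q ++ [(E, 1), (E, 0)])) by simp] at hL
  have hC := cross_odd hE (by omega)
  have hgV : Good (m + 3) (B, m + 1) := ⟨hB, by simp only; omega⟩
  have hV1 : Walk (m + 3) (B, m + 1) v := hV.w
  have hV2 : lst (B, m + 1) v = (E, 1) := hV.last
  have hR := revM_prop hgV hV1
  rw [hV2] at hR
  obtain ⟨hcl, hcl0⟩ := clI_prop hB hm
  have key := asm_TI hW hL hC hV2 hV.hin hR hcl hcl0 (fun d => Iff.rfl) (fun H hH => by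
    have h1 : ent (Vis H) (B, m + 1) v = if B (dim H) = H ∧ dim H < m + 3 then 0 else 1 :=
      hV.hvis H hH
    have hd : dim H ≤ m + 3 := hH ▸ dim_le_length H
    rw [h1]
    by_cases hI : B (dim H) = H
    · simp only [hI, true_and]
      split_ifs <;> omega
    · simp [hI])
  refine ⟨lad (m + 3) (B, m + 3) p, up 1 g (m + 3), up 1 g (m + 2),
    lad (m + 3) (g, m + 2) q ++ midO E ++ crossO (m + 3) E ++ revM (m + 3) (B, m + 1) v ++ clI m B,
    ?_, ?_, ?_, ?_⟩
  · intro s hs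
    have := lad_pre hwp hp s hs
    refine ⟨this.1, ?_⟩
    rw [up_le le_rfl]
    exact this.2
  · have := (ladP_lad hgB hwp).last
    rw [hpl] at this
    simpa [ls, t1] using this
  · intro k hk
    by_cases h1 : k ≤ m + 2
    · rw [up_le h1, up_le (by omega)]
    · rw [up_gt (by omega), up_gt (by omega)]
  · have e : lad (m + 3) (B, m + 3) (p ++ ([(g, m + 2)] ++ q)) =
      lad (m + 3) (B, m + 3) p ++
      ([(up 1 g (m + 2), m + 4), (up 1 g (m + 2), m + 3), (up 1 g (m + 2), m + 2)] ++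
        lad (m + 3) (g, m + 2) q) := by
      rw [lad_append, hpl]
      congr 1
      show ldst (m + 3) (g, m + 3) (g, m + 2) ++ lad (m + 3) (g, m + 2) q = _
      rw [ldst_dn1 g t1]
    rw [e] at key
    simpa [List.append_assoc] using key

lemma zig_tail (B : Flg) (j : ℕ) : ∃ z, zig B (2 * j + 2) = z ++ [(up (-1) B 0, 1), (up (-1) B 0, 0)] ∧
    lst (up (-1) B (2 * j + 2), 2 * j + 2) z = (up (-1) B 0, 2) := by
  induction j with
  | zero =>
    exact ⟨[(up (-1) B 2, 1), (up (-1) B 1, 1), (up (-1) B 1, 2), (up (-1) B 0, 2)], rfl, rfl⟩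
  | succ j ih =>
    obtain ⟨z, h1, h2⟩ := ih
    refine ⟨[(up (-1) B (2*j+4), 2*j+3), (up (-1) B (2*j+3), 2*j+3), (up (-1) B (2*j+3), 2*j+4),
      (up (-1) B (2*j+2), 2*j+4), (up (-1) B (2*j+2), 2*j+3), (up (-1) B (2*j+2), 2*j+2)] ++ z,
      ?_, ?_⟩
    · show zig B ((2 * j + 2) + 2) = _
      rw [zig, h1]; simp
    · rw [lst_append]
      simpa using h2

theorem stepB {m : ℕ} {B E : Flg} (hm : m % 2 = 0) (h : EvenD m B E) :
    OddD m (up 1 B (m + 2)) (up (-1) B 0) := by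
  obtain ⟨p, h, g, q, hp, hpl, hgh, hW⟩ := h
  have hB := hW.hB
  have hgB : Good (m + 2) (B, m + 2) := ⟨hB, le_rfl⟩
  have hgE := Walk.good_lst hgB hW.w
  rw [hW.last] at hgE
  have hE : IsFlag (m + 2) E := hgE.1
  have t1 : tt (m + 2) (m + 2) = 1 := by unfold tt; omega
  have t2 : tt (m + 2) 0 = 1 := by unfold tt; omega
  have t3 : tt (m + 2) m = 1 := by unfold tt; omega
  have hL := ladP_lad hgB hW.w
  rw [hW.last] at hL
  simp only [ls, t1, t2, zero_add] at hL
  have hC := cross_even hE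
  have hR := revM_prop hgB hW.w
  rw [hW.last] at hR
  have hin' := hW.hin
  have hvis' := hW.hvis
  obtain ⟨hcl, hcl0⟩ := zig_cl hB (m + 2) le_rfl
  rw [show (m + 2) % 2 = 0 by omega] at hcl
  have hvv : ∀ H : Face, H.length = m + 2 →
      ent (Vis H) (B, m + 2) (p ++ ([(g, m + 2), (g, m + 1), (g, m)] ++ q)) +
      (if B (dim H) = H ∧ m + 2 = dim H then 1 else 0) +
      (if B (dim H) = H ∧ dim H < m + 2 then 1 else 0) = 1 := by
    intro H hH
    have hd : dim H ≤ m + 2 := hH ▸ dim_le_length H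
    rw [hvis' H hH]
    by_cases hI : B (dim H) = H
    · simp only [hI, true_and, if_true]
      split_ifs <;> omega
    · simp [hI]
  have key := asm_TI hW hL hC hW.last hin' hR hcl hcl0 (fun d => Iff.rfl) hvv
  -- type II
  have hw := hW.w
  rw [walk_append, walk_append] at hw
  simp only [hpl, lst_cons, lst_nil] at hw
  obtain ⟨hwp, hwg, hwq⟩ := hw
  simp only [walk_cons, walk_nil, and_true] at hwg
  obtain ⟨⟨s1, g1⟩, ⟨s2, g2⟩, ⟨s3, g3⟩⟩ := hwg
  have hhg := Walk.good_lst hgB hwp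
  rw [hpl] at hhg
  obtain ⟨j, hj, hF⟩ := step_same s1
  have hjm : j = m + 1 := by
    by_contra hne
    exact hF.2.2 (hgh j hne)
  subst hjm
  have hq1 : lst (g, m) q = (E, 0) := by
    have := hW.last
    simp only [lst_append, hpl, lst_cons, lst_nil] at this
    exact this
  have hL1 := ladP_pre hwp hp
  rw [hpl] at hL1
  have hL2 := midE_prop hhg.1 g1.1 hF
  have hL3 := ladP_lad g3 hwq
  rw [hq1] at hL3
  simp only [ls, t3, t2, zero_add] at hL3
  have hL4 := LadP.append hL1 (l := p) (m := [(g, m + 2), (g, m + 1), (g, m)] ++ q)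
    (m' := midE m h g ++ lad (m + 2) (g, m) q) (c' := (up 1 E 0, 1)) (by
      rw [hpl]
      exact LadP.append hL2 hL3)
  obtain ⟨hclII, hclII0⟩ := clII_prop (m := m + 1) hB (by omega)
  have key2 := asm_TII hW hL4 hC hW.last hin' hR hclII hclII0 (fun d => Iff.rfl) hvv
  obtain ⟨z, hz1, hz2⟩ := zig_tail B (m / 2)
  rw [show 2 * (m / 2) + 2 = m + 2 by omega] at hz1 hz2
  -- decomposition of the new type I walk
  have hdec : lad (m + 2) (B, m + 2) (p ++ ([(g, m + 2), (g, m + 1), (g, m)] ++ q)) =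
      (lad (m + 2) (B, m + 2) p ++ [(up 1 g (m + 2), m + 3), (up 1 g (m + 1), m + 3)]) ++
      ([(up 1 g (m + 1), m + 2)] ++ ((up 1 g (m + 1), m + 1) ::
        lad (m + 2) (g, m + 1) ([(g, m)] ++ q))) := by
    rw [lad_append, hpl]
    rw [List.append_assoc]
    congr 1
    show ldst (m + 2) (h, m + 2) (g, m + 2) ++ (ldst (m + 2) (g, m + 2) (g, m + 1) ++
      lad (m + 2) (g, m + 1) ([(g, m)] ++ q)) = _
    rw [ldst_dn1 g t1]
    simp [ldst, t1]
  have hlast3 : lst (up 1 B (m + 2), m + 3)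
      (lad (m + 2) (B, m + 2) (p ++ ([(g, m + 2), (g, m + 1), (g, m)] ++ q)) ++
        crossE (m + 2) E ++ revM (m + 2) (B, m + 2) (p ++ ([(g, m + 2), (g, m + 1), (g, m)] ++ q)))
      = (up (-1) B (m + 2), m + 2) := by
    rw [lst_append, lst_append]
    have e1 := hL.last
    have e2 := hC.last
    have e3 := hR.last
    simp only [gm] at e2 e3
    have e1' : lst (up 1 B (m + 2), m + 3)
      (lad (m + 2) (B, m + 2) (p ++ ([(g, m + 2), (g, m + 1), (g, m)] ++ q))) = (up 1 E 0, 1) := e1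
    rw [e1', e2, e3]
  refine ⟨lad (m + 2) (B, m + 2) p ++ [(up 1 g (m + 2), m + 3), (up 1 g (m + 1), m + 3)],
    up 1 g (m + 1),
    ((up 1 g (m + 1), m + 1) :: lad (m + 2) (g, m + 1) ([(g, m)] ++ q)) ++
      (crossE (m + 2) E ++ revM (m + 2) (B, m + 2) (p ++ ([(g, m + 2), (g, m + 1), (g, m)] ++ q))
        ++ z), _, ?_, ?_, ?_, ?_, key2⟩
  · intro s hs
    rw [List.mem_append] at hs
    rcases hs with hs | hs
    · exact (lad_pre hwp (fun s hs => (hp s hs).1) s hs).1
    · simp only [List.mem_cons, List.mem_nil_iff, or_false] at hs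
      rcases hs with rfl | rfl <;> rfl
  · rw [lst_append]; rfl
  · rw [hdec] at hlast3
    simp only [lst_append, lst_cons, lst_nil] at hlast3 ⊢
    rw [hlast3, hz2]
  · rw [hz1, hdec] at key
    simpa [List.append_assoc] using key

end Pool.Agent.W5h5.BP
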