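import Pool.Agent.W5h5.BP6

/-! The base case in dimension three. -/

set_option linter.all false

namespace Pool.Agent.W5h5.BP

/-- flag from a list of faces -/
def cf (l : List Face) : Flg := fun j => l.getD j []

/-- coded state -/
def mk (s : List Face × ℕ) : St := (cf s.1, s.2)

/-- coded step -/
def cStep (n : ℕ) (a b : List Face × ℕ) : Prop :=
  (b.1 = a.1 ∧ (b.2 = a.2 + 1 ∨ a.2 = b.2 + 1)) ∨
  (b.2 = a.2 ∧ ∃ j, j < n ∧ (j ≠ a.2 ∧ b.1 = a.1.set j (b.1.getD j []) ∧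
    b.1.getD j [] ≠ a.1.getD j []))

instance (n : ℕ) (a b : List Face × ℕ) : Decidable (cStep n a b) := by
  unfold cStep; infer_instance

def cFlag (n : ℕ) (l : List Face) : Prop :=
  (∀ j, j ≤ n → (l.getD j []).length = n ∧ dim (l.getD j []) = j) ∧
  ∀ j, j < n → leq (l.getD j []) (l.getD (j + 1) [])

instance (n : ℕ) (l : List Face) : Decidable (cFlag n l) := by
  unfold cFlag; infer_instance

lemma cFlag.isFlag {n : ℕ} {l : List Face} (h : cFlag n l) : IsFlag n (cf l) :=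
  ⟨fun j hj => (h.1 j hj).1, fun j hj => (h.1 j hj).2, fun j hj => h.2 j hj⟩

lemma getD_set_ne (l : List Face) (j k : ℕ) (x : Face) (h : k ≠ j) :
    (l.set j x).getD k [] = l.getD k [] := by
  simp [List.getD_eq_getElem?_getD, List.getElem?_set, h.symm]

lemma cStep.step {n : ℕ} {a b : List Face × ℕ} (h : cStep n a b) : Step n (mk a) (mk b) := by
  rcases h with ⟨h1, h2⟩ | ⟨h1, j, hj, h2, h3, h4⟩
  · exact Or.inr ⟨by simp [mk, h1], h2⟩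
  · refine Or.inl ⟨j, h2, h1, hj, ?_, h4⟩
    intro k hk
    show b.1.getD k [] = a.1.getD k []
    rw [h3]
    exact getD_set_ne _ _ _ _ hk

/-- coded walk -/
def cWalk (n : ℕ) : (List Face × ℕ) → List (List Face × ℕ) → Prop
  | _, [] => True
  | a, b :: l => (cStep n a b ∧ cFlag n b.1 ∧ b.2 ≤ n) ∧ cWalk n b l

instance decCWalk (n : ℕ) : ∀ a l, Decidable (cWalk n a l)
  | _, [] => isTrue trivial
  | a, b :: l =>
      haveI := decCWalk n b l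
      inferInstanceAs (Decidable ((cStep n a b ∧ cFlag n b.1 ∧ b.2 ≤ n) ∧ cWalk n b l))

lemma cWalk.walk {n : ℕ} {a : List Face × ℕ} {l : List (List Face × ℕ)} (h : cWalk n a l) :
    Walk n (mk a) (l.map mk) := by
  induction l generalizing a with
  | nil => trivial
  | cons b l ih => exact ⟨⟨h.1.1.step, h.1.2.1.isFlag, h.1.2.2⟩, ih h.2⟩

/-- coded last -/
def cLst : (List Face × ℕ) → List (List Face × ℕ) → (List Face × ℕ)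
  | a, [] => a
  | _, b :: l => cLst b l

lemma cLst_mk (a : List Face × ℕ) (l : List (List Face × ℕ)) :
    lst (mk a) (l.map mk) = mk (cLst a l) := by
  induction l generalizing a with
  | nil => rfl
  | cons b l ih => exact ih b

abbrev p : SignType := SignType.pos
abbrev m : SignType := SignType.neg
abbrev z : SignType := SignType.zero

def B3 : List Face := [[p,p,p],[p,z,p],[z,z,p],[z,z,z]]
def E3 : List Face := [[m,p,p],[z,p,p],[z,p,z],[z,z,z]]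
def g3 : List Face := [[p,p,p],[p,z,p],[p,z,z],[z,z,z]]

def q3 : List (List Face × ℕ) := [
    ([[p,p,p],[p,p,z],[p,z,z],[z,z,z]], 2),
    ([[p,p,p],[p,p,z],[p,z,z],[z,z,z]], 1),
    ([[p,p,m],[p,p,z],[p,z,z],[z,z,z]], 1),
    ([[p,p,m],[p,p,z],[p,z,z],[z,z,z]], 0),
    ([[p,p,m],[p,z,m],[p,z,z],[z,z,z]], 0),
    ([[p,p,m],[p,z,m],[p,z,z],[z,z,z]], 1),
    ([[p,p,m],[p,z,m],[z,z,m],[z,z,z]], 1),
    ([[p,p,m],[p,z,m],[z,z,m],[z,z,z]], 2),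
    ([[p,p,m],[z,p,m],[z,z,m],[z,z,z]], 2),
    ([[p,p,m],[z,p,m],[z,z,m],[z,z,z]], 1),
    ([[m,p,m],[z,p,m],[z,z,m],[z,z,z]], 1),
    ([[m,p,m],[z,p,m],[z,z,m],[z,z,z]], 0),
    ([[m,p,m],[m,z,m],[z,z,m],[z,z,z]], 0),
    ([[m,p,m],[m,z,m],[z,z,m],[z,z,z]], 1),
    ([[m,m,m],[m,z,m],[z,z,m],[z,z,z]], 1),
    ([[m,m,m],[m,z,m],[z,z,m],[z,z,z]], 0),
    ([[m,m,m],[z,m,m],[z,z,m],[z,z,z]], 0),
    ([[m,m,m],[z,m,m],[z,z,m],[z,z,z]], 1),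
    ([[p,m,m],[z,m,m],[z,z,m],[z,z,z]], 1),
    ([[p,m,m],[z,m,m],[z,z,m],[z,z,z]], 0),
    ([[p,m,m],[z,m,m],[z,m,z],[z,z,z]], 0),
    ([[p,m,m],[p,m,z],[z,m,z],[z,z,z]], 0),
    ([[p,m,m],[p,m,z],[z,m,z],[z,z,z]], 1),
    ([[p,m,p],[p,m,z],[z,m,z],[z,z,z]], 1),
    ([[p,m,p],[p,m,z],[z,m,z],[z,z,z]], 0),
    ([[p,m,p],[z,m,p],[z,m,z],[z,z,z]], 0),
    ([[p,m,p],[z,m,p],[z,m,z],[z,z,z]], 1),
    ([[p,m,p],[z,m,p],[z,m,z],[z,z,z]], 2),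
    ([[m,m,p],[z,m,p],[z,m,z],[z,z,z]], 2),
    ([[m,m,p],[m,m,z],[z,m,z],[z,z,z]], 2),
    ([[m,m,p],[m,m,z],[z,m,z],[z,z,z]], 1),
    ([[m,m,p],[m,m,z],[z,m,z],[z,z,z]], 0),
    ([[m,m,p],[m,m,z],[m,z,z],[z,z,z]], 0),
    ([[m,m,p],[m,z,p],[m,z,z],[z,z,z]], 0),
    ([[m,m,p],[m,z,p],[m,z,z],[z,z,z]], 1),
    ([[m,m,p],[m,z,p],[m,z,z],[z,z,z]], 2),
    ([[m,p,p],[m,z,p],[m,z,z],[z,z,z]], 2),
    ([[m,p,p],[m,p,z],[m,z,z],[z,z,z]], 2),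
    ([[m,p,p],[m,p,z],[m,z,z],[z,z,z]], 1),
    ([[m,p,p],[m,p,z],[z,p,z],[z,z,z]], 1),
    ([[m,p,p],[m,p,z],[z,p,z],[z,z,z]], 2),
    ([[m,p,p],[z,p,p],[z,p,z],[z,z,z]], 2)]

def v3 : List (List Face × ℕ) := [
    ([[p,p,p],[p,z,p],[p,z,z],[z,z,z]], 1),
    ([[p,p,p],[p,z,p],[p,z,z],[z,z,z]], 2),
    ([[p,p,p],[p,p,z],[p,z,z],[z,z,z]], 2),
    ([[p,p,p],[p,p,z],[p,z,z],[z,z,z]], 1),
    ([[p,p,m],[p,p,z],[p,z,z],[z,z,z]], 1),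
    ([[p,p,m],[p,p,z],[p,z,z],[z,z,z]], 0),
    ([[p,p,m],[p,z,m],[p,z,z],[z,z,z]], 0),
    ([[p,p,m],[p,z,m],[p,z,z],[z,z,z]], 1),
    ([[p,p,m],[p,z,m],[z,z,m],[z,z,z]], 1),
    ([[p,p,m],[p,z,m],[z,z,m],[z,z,z]], 2),
    ([[p,p,m],[z,p,m],[z,z,m],[z,z,z]], 2),
    ([[p,p,m],[z,p,m],[z,z,m],[z,z,z]], 1),
    ([[m,p,m],[z,p,m],[z,z,m],[z,z,z]], 1),
    ([[m,p,m],[z,p,m],[z,z,m],[z,z,z]], 0),
    ([[m,p,m],[m,z,m],[z,z,m],[z,z,z]], 0),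
    ([[m,p,m],[m,z,m],[z,z,m],[z,z,z]], 1),
    ([[m,m,m],[m,z,m],[z,z,m],[z,z,z]], 1),
    ([[m,m,m],[m,z,m],[z,z,m],[z,z,z]], 0),
    ([[m,m,m],[z,m,m],[z,z,m],[z,z,z]], 0),
    ([[m,m,m],[z,m,m],[z,z,m],[z,z,z]], 1),
    ([[p,m,m],[z,m,m],[z,z,m],[z,z,z]], 1),
    ([[p,m,m],[z,m,m],[z,z,m],[z,z,z]], 0),
    ([[p,m,m],[z,m,m],[z,m,z],[z,z,z]], 0),
    ([[p,m,m],[p,m,z],[z,m,z],[z,z,z]], 0),
    ([[p,m,m],[p,m,z],[z,m,z],[z,z,z]], 1),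
    ([[p,m,p],[p,m,z],[z,m,z],[z,z,z]], 1),
    ([[p,m,p],[p,m,z],[z,m,z],[z,z,z]], 0),
    ([[p,m,p],[z,m,p],[z,m,z],[z,z,z]], 0),
    ([[p,m,p],[z,m,p],[z,m,z],[z,z,z]], 1),
    ([[p,m,p],[z,m,p],[z,m,z],[z,z,z]], 2),
    ([[m,m,p],[z,m,p],[z,m,z],[z,z,z]], 2),
    ([[m,m,p],[m,m,z],[z,m,z],[z,z,z]], 2),
    ([[m,m,p],[m,m,z],[z,m,z],[z,z,z]], 1),
    ([[m,m,p],[m,m,z],[z,m,z],[z,z,z]], 0),
    ([[m,m,p],[m,m,z],[m,z,z],[z,z,z]], 0),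
    ([[m,m,p],[m,z,p],[m,z,z],[z,z,z]], 0),
    ([[m,m,p],[m,z,p],[m,z,z],[z,z,z]], 1),
    ([[m,m,p],[m,z,p],[m,z,z],[z,z,z]], 2),
    ([[m,m,p],[m,z,p],[m,z,z],[z,z,z]], 3),
    ([[m,p,p],[m,z,p],[m,z,z],[z,z,z]], 3),
    ([[m,p,p],[m,p,z],[m,z,z],[z,z,z]], 3),
    ([[m,p,p],[m,p,z],[z,p,z],[z,z,z]], 3),
    ([[m,p,p],[m,p,z],[z,p,z],[z,z,z]], 2),
    ([[m,p,p],[m,p,z],[z,p,z],[z,z,z]], 1),
    ([[m,p,p],[m,p,z],[z,p,z],[z,z,z]], 0),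
    ([[m,p,p],[z,p,p],[z,p,z],[z,z,z]], 0),
    ([[m,p,p],[z,p,p],[z,p,z],[z,z,z]], 1)]

def w3 : List (List Face × ℕ) := [(g3, 3)] ++ ([(g3, 2)] ++ (q3 ++ [(E3, 1), (E3, 0)]))

lemma w3_walk : cWalk 3 (B3, 3) w3 := by decide +kernel
lemma v3_walk : cWalk 3 (B3, 1) v3 := by decide +kernel
lemma B3_flag : cFlag 3 B3 := by decide +kernel
lemma w3_last : cLst (B3, 3) w3 = (E3, 0) := by decide +kernel
lemma q3_last : cLst (g3, 2) q3 = (E3, 2) := by decide +kernel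
lemma v3_last : cLst (B3, 1) v3 = (E3, 1) := by decide +kernel
lemma w3_in : ∀ a b c : SignType, (if cf B3 (dim [a,b,c]) = [a,b,c] then 1 else 0) +
    ent (In [a,b,c]) (mk (B3, 3)) (w3.map mk) = 1 := by decide +kernel
lemma w3_vis : ∀ a b c : SignType,
    ent (Vis [a,b,c]) (mk (B3, 3)) (w3.map mk) =
      if cf B3 (dim [a,b,c]) = [a,b,c] then 0 else 1 := by decide +kernel
lemma v3_in : ∀ a b c : SignType, (if cf B3 (dim [a,b,c]) = [a,b,c] then 1 else 0) +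
    ent (In [a,b,c]) (mk (B3, 1)) (v3.map mk) = 1 := by decide +kernel
lemma v3_vis : ∀ a b c : SignType,
    ent (Vis [a,b,c]) (mk (B3, 1)) (v3.map mk) =
      if cf B3 (dim [a,b,c]) = [a,b,c] ∧ dim [a,b,c] < 3 then 0 else 1 := by decide +kernel

lemma len3 (H : Face) (h : H.length = 3) : ∃ a b c, H = [a, b, c] := by
  match H, h with
  | [a, b, c], _ => exact ⟨a, b, c, rfl⟩

theorem base : OddD 0 (cf B3) (cf E3) := by
  refine ⟨[mk (g3, 3)], cf g3, q3.map mk, v3.map mk, ?_, rfl, ?_, ?_, ?_⟩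
  · intro s hs
    rw [List.mem_singleton] at hs
    subst hs; rfl
  · have := cLst_mk (g3, 2) q3
    rw [q3_last] at this
    exact this
  · have e : [mk (g3, 3)] ++ ([(cf g3, 0 + 2)] ++ (q3.map mk ++ [(cf E3, 1), (cf E3, 0)])) =
        w3.map mk := by
      simp [w3, mk]
    rw [e]
    refine ⟨B3_flag.isFlag, w3_walk.walk, ?_, ?_, ?_⟩
    · have := cLst_mk (B3, 3) w3
      rw [w3_last] at this
      exact this
    · intro H hH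
      obtain ⟨a, b, c, rfl⟩ := len3 H hH
      exact w3_in a b c
    · intro H hH
      obtain ⟨a, b, c, rfl⟩ := len3 H hH
      exact w3_vis a b c
  · refine ⟨v3_walk.walk, ?_, ?_, ?_⟩
    · have := cLst_mk (B3, 1) v3
      rw [v3_last] at this
      exact this
    · intro H hH
      obtain ⟨a, b, c, rfl⟩ := len3 H hH
      exact v3_in a b c
    · intro H hH
      obtain ⟨a, b, c, rfl⟩ := len3 H hH
      exact v3_vis a b c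

/-- all dimensions at least three -/
theorem allD (k : ℕ) : ∃ B E, OddD (2 * k) B E := by
  induction k with
  | zero => exact ⟨_, _, base⟩
  | succ k ih =>
    obtain ⟨B, E, h⟩ := ih
    have h1 := stepA (by omega) h
    have h2 := stepB (by omega) h1
    exact ⟨_, _, h2⟩

end Pool.Agent.W5h5.BP
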