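import Pool.Agent.W5h5.BP7

/-! From walks to cyclic sequences of flags. -/

set_option linter.all false

namespace Pool.Agent.W5h5.BP

def InF (K : Face) (f : Flg) : Prop := f (dim K) = K

instance (K : Face) : DecidablePred (InF K) := fun f => inferInstanceAs (Decidable (f (dim K) = K))

theorem InF_iff (K : Face) (f : Flg) : InF K f ↔ f (dim K) = K := ⟨fun h => h, fun h => h⟩

def entA {α : Type*} (X : α → Prop) [DecidablePred X] : α → List α → ℕ
  | _, [] => 0
  | a, b :: l => (if X b ∧ ¬ X a then 1 else 0) + entA X b l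

def lstA {α : Type*} : α → List α → α
  | a, [] => a
  | _, b :: l => lstA b l

lemma entA_append {α : Type*} (X : α → Prop) [DecidablePred X] (a : α) (l m : List α) :
    entA X a (l ++ m) = entA X a l + entA X (lstA a l) m := by
  induction l generalizing a with
  | nil => simp [entA, lstA]
  | cons b l ih => simp [entA, lstA, ih, add_assoc]

lemma lstA_append {α : Type*} (a : α) (l m : List α) : lstA a (l ++ m) = lstA (lstA a l) m := by
  induction l generalizing a with
  | nil => rfl
  | cons b l ih => exact ih b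

open Classical in
/-- flags of a walk, without repetitions of the same flag -/
noncomputable def ds : Flg → List St → List Flg
  | _, [] => []
  | f, b :: l => if b.1 = f then ds f l else b.1 :: ds b.1 l

lemma ds_ent (K : Face) (a : St) (l : List St) :
    entA (InF K) a.1 (ds a.1 l) = ent (In K) a l := by
  induction l generalizing a with
  | nil => rfl
  | cons b l ih =>
    simp only [ds]
    split_ifs with h
    · rw [← h, ih b, ent_cons]
      have : ¬ (In K b ∧ ¬ In K a) := by
        rw [In_iff, In_iff, h]; tauto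
      rw [if_neg this, zero_add]
    · simp only [entA]
      rw [ih b, ent_cons]
      congr 1

lemma ds_last (a : St) (l : List St) : lstA a.1 (ds a.1 l) = (lst a l).1 := by
  induction l generalizing a with
  | nil => rfl
  | cons b l ih =>
    simp only [ds]
    split_ifs with h
    · rw [← h, ih b]; rfl
    · simp only [lstA]
      rw [ih b]; rfl

/-- chain of flips -/
def FCh (n : ℕ) : Flg → List Flg → Prop
  | _, [] => True
  | f, b :: l => ((∃ j, Flip n f b j) ∧ IsFlag n b) ∧ FCh n b l

lemma FCh_append {n : ℕ} {a : Flg} {l m : List Flg} :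
    FCh n a (l ++ m) ↔ FCh n a l ∧ FCh n (lstA a l) m := by
  induction l generalizing a with
  | nil => simp [FCh, lstA]
  | cons b l ih => simp [FCh, lstA, ih, and_assoc]

lemma ds_chain {n : ℕ} {a : St} {l : List St} (h : Walk n a l) : FCh n a.1 (ds a.1 l) := by
  induction l generalizing a with
  | nil => trivial
  | cons b l ih =>
    simp only [ds]
    split_ifs with hb
    · rw [← hb]; exact ih h.2
    · refine ⟨⟨?_, h.1.2.1⟩, ih h.2⟩
      rcases h.1.1 with ⟨j, h1, h2, h3⟩ | ⟨h1, h2⟩
      · exact ⟨j, h3⟩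
      · exact absurd h1 hb

/-- element of a list of flags -/
def gl (f : Flg) (D : List Flg) (t : ℕ) : Flg := (f :: D).getD t (fun _ => [])

@[simp] lemma gl_zero (f : Flg) (D : List Flg) : gl f D 0 = f := rfl
@[simp] lemma gl_succ (f b : Flg) (D : List Flg) (t : ℕ) : gl f (b :: D) (t + 1) = gl b D t := rfl

lemma gl_chain {n : ℕ} {f : Flg} {D : List Flg} (h : FCh n f D) :
    ∀ t < D.length, (∃ j, Flip n (gl f D t) (gl f D (t + 1)) j) ∧ IsFlag n (gl f D (t + 1)) := by
  induction D generalizing f with
  | nil => intro t ht; simp at ht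
  | cons b D ih =>
    intro t ht
    match t with
    | 0 => exact h.1
    | t + 1 => exact ih h.2 t (by simpa using ht)

lemma gl_ent (X : Flg → Prop) [DecidablePred X] (f : Flg) (D : List Flg) :
    entA X f D = ∑ t ∈ Finset.range D.length,
      (if X (gl f D (t + 1)) ∧ ¬ X (gl f D t) then 1 else 0) := by
  induction D generalizing f with
  | nil => rfl
  | cons b D ih =>
    rw [entA, ih b, List.length_cons, Finset.sum_range_succ', add_comm]
    rfl

lemma gl_append_left (f : Flg) (D C : List Flg) (t : ℕ) (ht : t ≤ D.length) :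
    gl f (D ++ C) t = gl f D t := by
  induction D generalizing f t with
  | nil =>
    have : t = 0 := by simpa using ht
    subst this; rfl
  | cons b D ih =>
    match t with
    | 0 => rfl
    | t + 1 => exact ih b t (by simpa using ht)

lemma gl_append_right (f : Flg) (D C : List Flg) (t : ℕ) :
    gl f (D ++ C) (D.length + 1 + t) = C.getD t (fun _ => []) := by
  induction D generalizing f with
  | nil =>
    rw [show ([] : List Flg).length + 1 + t = t + 1 by simp; omega]; rfl
  | cons b D ih =>
    rw [List.length_cons, show D.length + 1 + 1 + t = (D.length + 1 + t) + 1 by omega]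
    exact ih b

lemma gl_last (f : Flg) (D : List Flg) : gl f D D.length = lstA f D := by
  induction D generalizing f with
  | nil => rfl
  | cons b D ih => exact ih b

/-- raising lifts on the positive side -/
def hy (B : Flg) : ℕ → ℕ → List Flg
  | _, 0 => []
  | k, m + 1 => up 1 B k :: hy B (k + 1) m

lemma hy_length (B : Flg) (k m : ℕ) : (hy B k m).length = m := by
  induction m generalizing k with
  | zero => rfl
  | succ m ih => simp [hy, ih]

lemma hy_getD (B : Flg) (k m i : ℕ) (hi : i < m) (d : Flg) :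
    (hy B k m).getD i d = up 1 B (k + i) := by
  induction m generalizing k i with
  | zero => omega
  | succ m ih =>
    match i with
    | 0 => rfl
    | i + 1 =>
      have := ih (k + 1) i (by omega)
      simp only [hy, List.getD_cons_succ]
      rw [this]; congr 1; omega

lemma hy_chain {n : ℕ} {B : Flg} (hB : IsFlag n B) (k m : ℕ) (h : k + m ≤ n) :
    FCh (n + 1) (up 1 B k) (hy B (k + 1) m) := by
  induction m generalizing k with
  | zero => trivial
  | succ m ih =>
    exact ⟨⟨⟨k + 1, flip_up (by decide) B (by omega)⟩, up_flag (by decide) hB (by omega)⟩,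
      ih (k + 1) (by omega)⟩

theorem inF_11 (H : Face) (f : Flg) (m : ℕ) :
    InF (1 :: H) (up 1 f m) ↔ (f (dim H) = H ∧ dim H ≤ m) := in_11 H f m 0
theorem inF_n1 (H : Face) (f : Flg) (m : ℕ) : InF (-1 :: H) (up 1 f m) ↔ False := in_n1 H f m 0
theorem inF_1n (H : Face) (f : Flg) (m : ℕ) : InF (1 :: H) (up (-1) f m) ↔ False := in_1n H f m 0
theorem inF_nn (H : Face) (f : Flg) (m : ℕ) :
    InF (-1 :: H) (up (-1) f m) ↔ (f (dim H) = H ∧ dim H ≤ m) := in_nn H f m 0
theorem inF_01 (H : Face) (f : Flg) (m : ℕ) :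
    InF (0 :: H) (up 1 f m) ↔ (f (dim H) = H ∧ m ≤ dim H) := in_01 H f m 0
theorem inF_0n (H : Face) (f : Flg) (m : ℕ) :
    InF (0 :: H) (up (-1) f m) ↔ (f (dim H) = H ∧ m ≤ dim H) := in_0n H f m 0

lemma hy_ent1 (B : Flg) (k m : ℕ) (H : Face) :
    entA (InF (1 :: H)) (up 1 B k) (hy B (k + 1) m) =
      if B (dim H) = H ∧ k < dim H ∧ dim H ≤ k + m then 1 else 0 := by
  induction m generalizing k with
  | zero => simp only [hy, entA]; rw [if_neg]; omega
  | succ m ih =>
    simp only [hy, entA, ih, inF_11]
    by_cases hI : B (dim H) = H <;> simp [hI] <;> (try split_ifs) <;> omega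

lemma hy_entn (B : Flg) (k m : ℕ) (H : Face) :
    entA (InF (-1 :: H)) (up 1 B k) (hy B (k + 1) m) = 0 := by
  induction m generalizing k with
  | zero => rfl
  | succ m ih =>
    simp only [hy, entA, ih, inF_n1]; simp

lemma hy_ent0 (B : Flg) (k m : ℕ) (H : Face) :
    entA (InF (0 :: H)) (up 1 B k) (hy B (k + 1) m) = 0 := by
  induction m generalizing k with
  | zero => rfl
  | succ m ih =>
    simp only [hy, entA, ih, inF_01]
    by_cases hI : B (dim H) = H <;> simp [hI] <;> (try split_ifs) <;> omega

/-- A cyclic sequence of flags meeting every proper face in one block. -/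
structure Cyc (n M : ℕ) (g : ℕ → Flg) : Prop where
  hM : 3 ≤ M
  flag : ∀ t < M, IsFlag n (g t)
  flip : ∀ t < M, ∃ j, Flip n (g t) (g ((t + 1) % M)) j
  inj : ∀ s t, s < t → t < M → ∃ k < n, g s k ≠ g t k
  one : ∀ K : Face, K.length = n → dim K < n → ∃ s < M, g s (dim K) = K ∧
    ∀ t < M, g ((t + 1) % M) (dim K) = K → g t (dim K) ≠ K → (t + 1) % M = s

lemma sum_one_unique {m : ℕ} {P : ℕ → Prop} [DecidablePred P]
    (h : ∑ t ∈ Finset.range m, (if P t then 1 else 0) = 1) :
    ∃ s < m, P s ∧ ∀ t < m, P t → t = s := by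
  rw [Finset.sum_boole] at h
  have h' : ((Finset.range m).filter P).card = 1 := by simpa using h
  obtain ⟨s, hs⟩ := Finset.card_eq_one.1 h'
  have hs' : s ∈ (Finset.range m).filter P := by rw [hs]; simp
  rw [Finset.mem_filter, Finset.mem_range] at hs'
  refine ⟨s, hs'.1, hs'.2, fun t ht hP => ?_⟩
  have : t ∈ (Finset.range m).filter P := by
    rw [Finset.mem_filter, Finset.mem_range]; exact ⟨ht, hP⟩
  rw [hs] at this
  simpa using this

lemma sum_zero_none {m : ℕ} {P : ℕ → Prop} [DecidablePred P]
    (h : ∑ t ∈ Finset.range m, (if P t then 1 else 0) = 0) : ∀ t < m, ¬ P t := by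
  intro t ht hP
  have := Finset.sum_eq_zero_iff.1 h t (Finset.mem_range.2 ht)
  simp [hP] at this

lemma exists_entry {X : ℕ → Prop} {i k : ℕ} (hik : i ≤ k) (h1 : ¬ X i) (h2 : X k) :
    ∃ t, i ≤ t ∧ t < k ∧ ¬ X t ∧ X (t + 1) := by
  obtain ⟨d, rfl⟩ := Nat.exists_eq_add_of_le hik
  induction d with
  | zero => exact absurd h2 h1
  | succ d ih =>
    by_cases h : X (i + d)
    · obtain ⟨t, a, b, c, e⟩ := ih (by omega) h
      exact ⟨t, a, by omega, c, e⟩
    · exact ⟨i + d, by omega, by omega, h, h2⟩

/-- no gap in a run -/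
lemma no_gap {X : Flg → Prop} [DecidablePred X] {g : ℕ → Flg} {m : ℕ}
    (h : (if X (g 0) then 1 else 0) +
      ∑ t ∈ Finset.range m, (if X (g (t + 1)) ∧ ¬ X (g t) then 1 else 0) = 1)
    {i j k : ℕ} (hij : i ≤ j) (hjk : j ≤ k) (hk : k ≤ m) (hi : X (g i)) (hkk : X (g k)) :
    X (g j) := by
  by_contra hj
  obtain ⟨t, t1, t2, t3, t4⟩ := exists_entry (X := fun t => X (g t)) hjk hj hkk
  by_cases h0 : X (g 0)
  · rw [if_pos h0] at h
    exact sum_zero_none (m := m) (P := fun t => X (g (t + 1)) ∧ ¬ X (g t)) (by omega) t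
      (by omega) ⟨t4, t3⟩
  · rw [if_neg h0, zero_add] at h
    obtain ⟨s, hs, hP, hu⟩ := sum_one_unique (m := m) (P := fun t => X (g (t + 1)) ∧ ¬ X (g t)) h
    obtain ⟨u, u1, u2, u3, u4⟩ := exists_entry (X := fun t => X (g t)) (Nat.zero_le i) h0 hi
    have e1 := hu t (by omega) ⟨t4, t3⟩
    have e2 := hu u (by omega) ⟨u4, u3⟩
    omega

lemma exists_in {X : Flg → Prop} [DecidablePred X] {g : ℕ → Flg} {m : ℕ}
    (h : (if X (g 0) then 1 else 0) +
      ∑ t ∈ Finset.range m, (if X (g (t + 1)) ∧ ¬ X (g t) then 1 else 0) = 1) :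
    ∃ t ≤ m, X (g t) := by
  by_cases h0 : X (g 0)
  · exact ⟨0, by omega, h0⟩
  · rw [if_neg h0, zero_add] at h
    obtain ⟨s, hs, hP, hu⟩ := sum_one_unique (m := m) (P := fun t => X (g (t + 1)) ∧ ¬ X (g t)) h
    exact ⟨s + 1, by omega, hP.1⟩

/-- negation of a face -/
def ngF (F : Face) : Face := F.map (fun s => -s)

lemma ngF_length (F : Face) : (ngF F).length = F.length := by simp [ngF]

lemma ngF_dim (F : Face) : dim (ngF F) = dim F := by
  induction F with
  | nil => rfl
  | cons s F ih =>
    have : s = 0 ∨ s = 1 ∨ s = -1 := by cases s <;> decide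
    simp only [ngF, List.map_cons] at ih ⊢
    rcases this with rfl | rfl | rfl
    · rw [show (-0 : SignType) = 0 from rfl, dim_zero_cons, dim_zero_cons, ih]
    · rw [dim_neg_cons, dim_one_cons, ih]
    · rw [show (- -1 : SignType) = 1 from rfl, dim_neg_cons, dim_one_cons, ih]

lemma ngF_leq (F : Face) (h : leq (ngF F) F) : dim F = F.length := by
  induction F with
  | nil => rfl
  | cons s F ih =>
    simp only [ngF, List.map_cons, leq_cons] at h
    have : s = 0 := by
      have h1 := h.1
      revert h1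
      cases s <;> decide
    subst this
    rw [dim_zero_cons, List.length_cons, ih h.2]

end Pool.Agent.W5h5.BP
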