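import Pool.Agent.W5h5.BP8

/-! The cyclic sequence of flags in dimension at least four. -/

set_option linter.all false

namespace Pool.Agent.W5h5.BP

lemma hy_last (B : Flg) (k m : ℕ) : lstA (up 1 B k) (hy B (k + 1) m) = up 1 B (k + m) := by
  induction m generalizing k with
  | zero => rfl
  | succ m ih =>
    simp only [hy, lstA]; rw [ih]; congr 1; omega

theorem cyc_of_TI {n : ℕ} (hn : 2 ≤ n) {B : Flg} (hB : IsFlag n B) {l : List St}
    (hW : TI (n + 1) (up 1 B n) (up (-1) B 0) l) : ∃ M g, Cyc (n + 1) M g := by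
  obtain ⟨a, ha⟩ : ∃ a, a = up 1 B n := ⟨_, rfl⟩
  rw [← ha] at hW
  obtain ⟨D, hD⟩ : ∃ D, D = ds a l := ⟨_, rfl⟩
  have hfa : IsFlag (n + 1) a := hW.hB
  have hDch : FCh (n + 1) a D := by
    rw [hD]; exact ds_chain (a := (a, n + 1)) hW.w
  have hDlast : lstA a D = up (-1) B 0 := by
    have := ds_last (a, n + 1) l
    rw [hW.last] at this
    rw [hD]; exact this
  have hDent : ∀ K, entA (InF K) a D = ent (In K) (a, n + 1) l := by
    intro K
    rw [hD]; exact ds_ent K (a, n + 1) l
  have hch : FCh (n + 1) a (D ++ hy B 0 (n + 1)) := by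
    rw [FCh_append, hDlast]
    exact ⟨hDch, ⟨⟨0, flip_bot (by decide) B n⟩, up_flag (by decide) hB (by omega)⟩,
      hy_chain hB 0 n (by omega)⟩
  obtain ⟨M, hM⟩ : ∃ M, M = (D ++ hy B 0 (n + 1)).length := ⟨_, rfl⟩
  have hMl : M = D.length + (n + 1) := by rw [hM, List.length_append, hy_length]
  obtain ⟨g, hg⟩ : ∃ g, g = gl a (D ++ hy B 0 (n + 1)) := ⟨_, rfl⟩
  have g0 : g 0 = a := by rw [hg]; rfl
  have gM : g M = a := by
    rw [hg, hM, gl_last, lstA_append, hDlast]
    show lstA (up 1 B 0) (hy B 1 n) = a
    rw [hy_last, ha, Nat.zero_add]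
  have gmod : ∀ t < M, g ((t + 1) % M) = g (t + 1) := by
    intro t ht
    rcases Nat.lt_or_ge (t + 1) M with h | h
    · rw [Nat.mod_eq_of_lt h]
    · have : t + 1 = M := by omega
      rw [this, Nat.mod_self, gM, g0]
  have gD : ∀ t ≤ D.length, g t = gl a D t := by
    intro t ht; rw [hg]; exact gl_append_left _ _ _ _ ht
  have gH : ∀ i ≤ n, g (D.length + 1 + i) = up 1 B i := by
    intro i hi
    rw [hg, gl_append_right, hy_getD _ _ _ _ (by omega), Nat.zero_add]
  have gflag : ∀ t < M, IsFlag (n + 1) (g t) := by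
    intro t ht
    match t with
    | 0 => rw [g0]; exact hfa
    | t + 1 =>
      rw [hg]; exact (gl_chain hch t (by rw [← hM]; omega)).2
  have gflip : ∀ t < M, ∃ j, Flip (n + 1) (g t) (g (t + 1)) j := by
    intro t ht
    rw [hg]; exact (gl_chain hch t (by rw [← hM]; omega)).1
  have hin : ∀ K : Face, K.length = n + 1 → (if a (dim K) = K then 1 else 0) +
      entA (InF K) a D = 1 := by
    intro K hK
    rw [hDent]; exact hW.hin K hK
  -- total number of entries in the closed sequence
  have htot : ∀ K : Face, K.length = n + 1 → dim K < n + 1 →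
      entA (InF K) a (D ++ hy B 0 (n + 1)) = 1 := by
    intro K hK hKd
    rw [entA_append, hDlast]
    have h1 := hin K hK
    have h2 : entA (InF K) (up (-1) B 0) (hy B 0 (n + 1)) =
      (if InF K (up 1 B 0) ∧ ¬ InF K (up (-1) B 0) then 1 else 0) +
        entA (InF K) (up 1 B 0) (hy B (0 + 1) n) := rfl
    rw [h2]
    obtain ⟨H, hH, hK'⟩ := face_cases K hK
    have hd : dim H ≤ n := hH ▸ dim_le_length H
    obtain ⟨u1, u0, um⟩ := up_top_iff (B := B) H hd
    rw [ha] at h1 ⊢
    rcases hK' with rfl | rfl | rfl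
    · rw [dim_zero_cons] at hKd
      simp only [u0] at h1
      rw [if_neg (by omega)] at h1
      rw [hy_ent0]
      simp only [inF_01, inF_0n]
      simp only [and_not_self, if_false]
      omega
    · simp only [u1] at h1
      rw [hy_ent1]
      simp only [inF_11, inF_1n]
      by_cases hI : B (dim H) = H
      · simp only [hI, true_and, not_false_eq_true, and_true, if_true] at h1 ⊢
        split_ifs <;> omega
      · simp only [hI, false_and, if_false] at h1 ⊢
        omega
    · rw [if_neg um] at h1
      rw [hy_entn]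
      simp only [inF_n1, false_and, if_false]
      omega
  -- linear part
  have hlin : ∀ K : Face, K.length = n + 1 → (if InF K (gl a D 0) then 1 else 0) +
      ∑ t ∈ Finset.range D.length, (if InF K (gl a D (t + 1)) ∧ ¬ InF K (gl a D t) then 1 else 0)
        = 1 := by
    intro K hK
    rw [← gl_ent]
    exact hin K hK
  refine ⟨M, g, by omega, gflag, ?_, ?_, ?_⟩
  · intro t ht
    rw [gmod t ht]; exact gflip t ht
  · intro s t hst htM
    by_contra hcon
    push_neg at hcon
    rcases Nat.lt_or_ge D.length t with ht | ht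
    · obtain ⟨i, rfl⟩ : ∃ i, t = D.length + 1 + i := ⟨t - (D.length + 1), by omega⟩
      have hi : i < n := by omega
      rw [gH i hi.le] at hcon
      rcases Nat.lt_or_ge D.length s with hs | hs
      · obtain ⟨i', rfl⟩ : ∃ i', s = D.length + 1 + i' := ⟨s - (D.length + 1), by omega⟩
        have := hcon (i' + 1) (by omega)
        rw [gH i' (by omega), up_gt (by omega), up_le (by omega)] at this
        exact absurd (List.cons.inj this).1 (by decide)
      · have hs1 := hcon i (by omega)
        have hs2 := hcon (i + 1) (by omega)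
        rw [up_le le_rfl] at hs1
        rw [up_gt (by omega), Nat.add_sub_cancel] at hs2
        rw [gD s hs] at hs1 hs2
        have hBi : (B i).length = n := hB.len i hi.le
        have hBd : dim (B i) = i := hB.dm i hi.le
        have hQl : (-1 :: ngF (B i) : Face).length = n + 1 := by
          rw [List.length_cons, ngF_length, hBi]
        have hQd : dim (-1 :: ngF (B i)) = i := by rw [dim_neg_cons, ngF_dim, hBd]
        have hK1l : (1 :: B i : Face).length = n + 1 := by rw [List.length_cons, hBi]
        have hK1d : dim (1 :: B i) = i := by rw [dim_one_cons, hBd]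
        have hK2l : (0 :: B i : Face).length = n + 1 := by rw [List.length_cons, hBi]
        have hK2d : dim (0 :: B i) = i + 1 := by rw [dim_zero_cons, hBd]
        obtain ⟨u, hu, hQu⟩ := exists_in (X := InF (-1 :: ngF (B i))) (g := gl a D)
          (m := D.length) (hlin _ hQl)
        rw [InF_iff, hQd] at hQu
        rcases Nat.le_total u s with h | h
        · have := no_gap (X := InF (1 :: B i)) (g := gl a D) (m := D.length) (hlin _ hK1l)
            (Nat.zero_le u) h hs
            (by rw [InF_iff, hK1d, gl_zero, ha, up_le (by omega)])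
            (by rw [InF_iff, hK1d]; exact hs1)
          rw [InF_iff, hK1d, hQu] at this
          exact absurd (List.cons.inj this).1 (by decide)
        · have := no_gap (X := InF (0 :: B i)) (g := gl a D) (m := D.length) (hlin _ hK2l)
            h hu le_rfl
            (by rw [InF_iff, hK2d]; exact hs2)
            (by rw [InF_iff, hK2d, gl_last, hDlast, up_gt (by omega), Nat.add_sub_cancel])
          rw [InF_iff, hK2d] at this
          have hfl : IsFlag (n + 1) (gl a D u) := by
            rw [← gD u hu]; exact gflag u (by omega)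
          have hle := hfl.le i (by omega)
          rw [this, hQu] at hle
          have := ngF_leq _ hle.2
          omega
    · obtain ⟨j, hj⟩ := gflip s (by omega)
      have hfl := gflag s (by omega)
      have hKl : (g s j).length = n + 1 := hfl.len j hj.1.le
      have hKd : dim (g s j) = j := hfl.dm j hj.1.le
      have := no_gap (X := InF (g s j)) (g := gl a D) (m := D.length) (hlin _ hKl)
        (Nat.le_succ s) (show s + 1 ≤ t by omega) ht
        (by rw [InF_iff, hKd, ← gD s (by omega)])
        (by rw [InF_iff, hKd, ← gD t ht]; exact (hcon j hj.1).symm)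
      rw [InF_iff, hKd, ← gD (s + 1) (by omega)] at this
      exact hj.2.2 this
  · intro K hK hKd
    have h1 := htot K hK hKd
    rw [gl_ent, ← hM, ← hg] at h1
    obtain ⟨s, hs, hP, hu⟩ := sum_one_unique
      (P := fun t => InF K (g (t + 1)) ∧ ¬ InF K (g t)) h1
    refine ⟨(s + 1) % M, Nat.mod_lt _ (by omega), ?_, ?_⟩
    · rw [gmod s hs]; exact hP.1
    · intro t ht h1 h2
      rw [gmod t ht] at h1
      rw [hu t ht ⟨h1, h2⟩]

theorem cyc_ge_four (n : ℕ) (hn : 3 ≤ n) : ∃ M g, Cyc (n + 1) M g := by
  rcases Nat.even_or_odd' n with ⟨k, hk | hk⟩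
  · -- n even, n = 2k = (2(k-2)+2)+2
    obtain ⟨j, rfl⟩ : ∃ j, k = j + 2 := ⟨k - 2, by omega⟩
    obtain ⟨B, E, h⟩ := allD j
    have h1 := stepA (by omega) h
    have h2 := stepB (by omega) h1
    obtain ⟨p0, h0, g0, q0, _, _, _, hW0⟩ := h1
    obtain ⟨p, g, q, v, _, _, _, hW, _⟩ := h2
    subst hk
    exact cyc_of_TI (by omega) hW0.hB hW
  · obtain ⟨j, rfl⟩ : ∃ j, k = j + 1 := ⟨k - 1, by omega⟩
    obtain ⟨B, E, h⟩ := allD j
    have h1 := stepA (by omega) h
    obtain ⟨p, g, q, v, _, _, _, hW, _⟩ := h
    obtain ⟨p0, h0, g0, q0, _, _, _, hW0⟩ := h1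
    subst hk
    exact cyc_of_TI (by omega) hW.hB hW0

end Pool.Agent.W5h5.BP
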